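import Mathlib
import Pool.Agent.Mg.Fbd74a7.G9f9525

set_option linter.all false

section

/-!
Definitions and statements for the point-plane incidence bound and its use for
points of exponential curves in boxes.
-/

open Finset

namespace Pool.Agent.MP_bd74a7_nt.Ic

section Geometry

variable {K : Type} [Field K]

/-- Restriction of a polynomial in `(W, U, t)` to the line `W = x + y t`, `U = z`. -/
noncomputable def evL (l : K × K × K) : MvPolynomial (Fin 3) K →ₐ[K] Polynomial K :=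
  MvPolynomial.aeval
    ![Polynomial.C l.1 + Polynomial.C l.2.1 * Polynomial.X, Polynomial.C l.2.2, Polynomial.X]

/-- Restriction of a polynomial in `(W, U, t)` to the line `W = u + a U`, `t = b`,
for `m = (b, a, u)`. -/
noncomputable def evM (m : K × K × K) : MvPolynomial (Fin 3) K →ₐ[K] Polynomial K :=
  MvPolynomial.aeval
    ![Polynomial.C m.2.2 + Polynomial.C m.2.1 * Polynomial.X, Polynomial.X, Polynomial.C m.1]

/-- The curvature polynomial of the slices `t = const`. -/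
noncomputable def Hs (P : MvPolynomial (Fin 3) K) : MvPolynomial (Fin 3) K :=
  MvPolynomial.pderiv 1 (MvPolynomial.pderiv 1 P) * MvPolynomial.pderiv 0 P ^ 2 -
    2 * MvPolynomial.pderiv 0 (MvPolynomial.pderiv 1 P) * MvPolynomial.pderiv 1 P *
      MvPolynomial.pderiv 0 P +
    MvPolynomial.pderiv 0 (MvPolynomial.pderiv 0 P) * MvPolynomial.pderiv 1 P ^ 2

open Classical in
/-- Number of incidences `x + b y = u + a z` between points `(x, y, z)` and planes `(b, a, u)`. -/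
noncomputable def inc (L M : Finset (K × K × K)) : ℕ :=
  ((L ×ˢ M).filter fun x => x.1.1 + x.2.1 * x.1.2.1 = x.2.2.2 + x.2.2.1 * x.1.2.2).card

/-- At most `k` points of `L` lie on a line. -/
def Col (L : Finset (K × K × K)) (k : ℕ) : Prop :=
  ∀ p q : K × K × K, p ≠ q → ∀ S : Finset (K × K × K), S ⊆ L →
    (∀ r ∈ S, ∃ c : K, r = p + c • (q - p)) → S.card ≤ k

/-- The points have distinct third coordinates. -/
def DisL (L : Finset (K × K × K)) : Prop := ∀ l ∈ L, ∀ l' ∈ L, l.2.2 = l'.2.2 → l = l'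

/-- The planes have distinct first coordinates. -/
def DisM (M : Finset (K × K × K)) : Prop := ∀ m ∈ M, ∀ m' ∈ M, m.1 = m'.1 → m = m'

/-- The integers `1, ..., d` are nonzero in `K`. -/
def Ch (K : Type) [Field K] (d : ℕ) : Prop := ∀ j : ℕ, 1 ≤ j → j ≤ d → (j : K) ≠ 0

end Geometry

def ElimStmt : Prop :=
  ∀ (K : Type) [Field K] (P Q : MvPolynomial (Fin 3) K), Prime P → ¬ P ∣ Q →
    ∃ R : MvPolynomial (Fin 2) K, R ≠ 0 ∧
      R.totalDegree ≤ (P.totalDegree + Q.totalDegree + 1) ^ 2 ∧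
      ∃ A B : MvPolynomial (Fin 3) K, A * P + B * Q = MvPolynomial.rename Fin.succ R

def FewStmt : Prop :=
  ∀ (K : Type) [Field K] [Infinite K] (P Q : MvPolynomial (Fin 3) K), Prime P → ¬ P ∣ Q →
    ∀ L : Finset (K × K × K), DisL L → (∀ l ∈ L, evL l P = 0 ∧ evL l Q = 0) →
      L.card ≤ (P.totalDegree + Q.totalDegree + 1) ^ 2

def FreeStmt : Prop :=
  ∀ (K : Type) [Field K] [Infinite K] (P : MvPolynomial (Fin 3) K), P ≠ 0 →
    Ch K P.totalDegree → MvPolynomial.pderiv 0 P = 0 →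
    ∀ L : Finset (K × K × K), DisL L → (∀ l ∈ L, evL l P = 0) → L.card ≤ P.totalDegree

def HsStmt : Prop :=
  ∀ (K : Type) [Field K] (P : MvPolynomial (Fin 3) K),
    (Hs P).totalDegree ≤ 3 * P.totalDegree ∧
    (∀ m : K × K × K, evM m P = 0 → evM m (Hs P) = 0) ∧
    (MvPolynomial.pderiv 0 P).totalDegree ≤ P.totalDegree ∧
    (P ∣ MvPolynomial.pderiv 0 P → MvPolynomial.pderiv 0 P = 0)

def FlatStmt : Prop :=
  ∀ (K : Type) [Field K] [Infinite K] (P : MvPolynomial (Fin 3) K), Prime P →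
    Ch K P.totalDegree → P ∣ Hs P →
    ∀ l0 l1 l2 : K × K × K, evL l0 P = 0 → evL l0 (MvPolynomial.pderiv 0 P) ≠ 0 →
      evL l1 P = 0 → evL l2 P = 0 → l1.2.2 ≠ l0.2.2 → ∃ c : K, l2 = l0 + c • (l1 - l0)

def InterpStmt : Prop :=
  ∀ (K : Type) [Field K] (M : Finset (K × K × K)) (e : ℕ), 3 * M.card ≤ e ^ 2 →
    ∃ P : MvPolynomial (Fin 3) K, P ≠ 0 ∧ P.totalDegree ≤ 3 * e ∧ ∀ m ∈ M, evM m P = 0

def PrimeStmt : Prop :=
  ∀ (K : Type) [Field K] [Infinite K] (L M : Finset (K × K × K)) (k : ℕ)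
    (P : MvPolynomial (Fin 3) K), DisL L → DisM M → Col L k → 1 ≤ k → Prime P →
    Ch K P.totalDegree → (∀ m ∈ M, evM m P = 0) →
    ∃ L' : Finset (K × K × K), L' ⊆ L ∧ L'.card ≤ 25 * P.totalDegree ^ 2 ∧
      inc L M ≤ inc L' M + 3 * P.totalDegree * L.card + k * M.card

def OneStmt : Prop :=
  ∀ (K : Type) [Field K] [Infinite K] (L M : Finset (K × K × K)) (k : ℕ)
    (P : MvPolynomial (Fin 3) K), DisL L → DisM M → Col L k → 1 ≤ k → P ≠ 0 →
    Ch K P.totalDegree → (∀ m ∈ M, evM m P = 0) →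
    ∃ L' : Finset (K × K × K), L' ⊆ L ∧ L'.card ≤ 25 * P.totalDegree ^ 2 ∧
      inc L M ≤ inc L' M + 3 * P.totalDegree * L.card + k * M.card

def IncStmt : Prop :=
  ∀ (K : Type) [Field K] [Infinite K] (r k : ℕ) (L M : Finset (K × K × K)),
    DisL L → DisM M → Col L k → 1 ≤ k → L.card ≤ 4 ^ r → M.card ≤ 4 ^ r → Ch K (2 ^ r) →
    inc L M ≤ 2 ^ 22 * 8 ^ r + r * k * M.card

def GridStmt : Prop :=
  ∀ (p : ℕ) [Fact p.Prime] (A B C : Finset (ZMod p)) (M : Finset (ZMod p × ZMod p × ZMod p))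
    (q : ℕ), A.card ≤ 4 ^ q → B.card ≤ 4 ^ q → C.card ≤ 4 ^ q → M.card ≤ 64 ^ q →
    (∀ m ∈ M, m.1 ≠ 0) → 8 ^ q < p → inc (A ×ˢ B ×ˢ C) M ≤ 2 ^ 23 * 512 ^ q

/-- Every equation `α u + β v = γ` with nonzero coefficients has at most `N` solutions in `Λ`. -/
def HN (p : ℕ) (Λ : Finset (ZMod p)) (N : ℕ) : Prop :=
  ∀ α β γ : ZMod p, α ≠ 0 → β ≠ 0 → γ ≠ 0 →
    ((Λ ×ˢ Λ).filter fun x => α * x.1 + β * x.2 = γ).card ≤ N

def NStmt : Prop :=
  ∀ (p : ℕ) [Fact p.Prime] (g : ZMod p) (M : ℕ), 1 ≤ M → M < orderOf g → M ^ 2 < p →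
    ∃ N : ℕ, N ^ 4 ≤ 2 ^ 85 * M ^ 3 ∧ HN p ((Icc (-(M : ℤ)) M).image fun j => g ^ j) N

/-- Number of pairs of `V` with ratio `lam`. -/
def rr (p : ℕ) (V : Finset ℤ) (lam : ZMod p) : ℕ :=
  ((V ×ˢ V).filter fun x => (x.2 : ZMod p) = lam * x.1).card

/-- `A = v1 - v0`. -/
def qA (a : ℤ × ℤ × ℤ × ℤ) : ℤ := a.2.1 - a.1
/-- `B = v2 - v0`. -/
def qB (a : ℤ × ℤ × ℤ × ℤ) : ℤ := a.2.2.1 - a.1
/-- `c = v3 - v1 - v2 + v0`. -/
def qc (a : ℤ × ℤ × ℤ × ℤ) : ℤ := a.2.2.2 - a.2.1 - a.2.2.1 + a.1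
/-- `g = gcd (gcd (A, c), gcd (B, c))`. -/
def qg (a : ℤ × ℤ × ℤ × ℤ) : ℕ := Nat.gcd (Int.gcd (qA a) (qc a)) (Int.gcd (qB a) (qc a))
/-- `gcd (A, c) / g`. -/
def qs (a : ℤ × ℤ × ℤ × ℤ) : ℕ := Int.gcd (qA a) (qc a) / qg a
/-- `gcd (B, c) / g`. -/
def qt (a : ℤ × ℤ × ℤ × ℤ) : ℕ := Int.gcd (qB a) (qc a) / qg a

/-- A multiplicative quadruple `v0 v3 = v1 v2` of `V` with `c ≠ 0`. -/
def Gd (p : ℕ) (V : Finset ℤ) (a : ℤ × ℤ × ℤ × ℤ) : Prop :=
  a.1 ∈ V ∧ a.2.1 ∈ V ∧ a.2.2.1 ∈ V ∧ a.2.2.2 ∈ V ∧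
    (a.1 : ZMod p) * a.2.2.2 = a.2.1 * a.2.2.1 ∧ qc a ≠ 0

def TripStmt : Prop :=
  ∀ (p : ℕ) [Fact p.Prime] (m N R σ : ℕ) (V : Finset ℤ) (Λ : Finset (ZMod p))
    (Y : Finset (ℤ × ℤ × ℤ × ℕ × ℕ)), Short p V m → m < p →
    (∀ v ∈ V, ∀ w ∈ V, (v : ZMod p) / w ∈ Λ) → HN p Λ N → 1 ≤ σ →
    (∀ y ∈ Y, y.1 ∈ V ∧ y.2.1 ∈ V ∧ y.2.2.1 ∈ V ∧ y.2.1 ≠ y.2.2.1 ∧
      rr p V ((y.2.1 : ZMod p) / y.1) ≤ R ∧
      σ ≤ y.2.2.2.1 ∧ y.2.2.2.1 < 2 * σ ∧ σ ≤ y.2.2.2.2 ∧ y.2.2.2.2 < 2 * σ ∧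
      y.2.2.2.1 ≤ m ∧ y.2.2.2.2 ≤ m ∧
      (y.2.2.2.1 : ℤ) * (y.2.2.1 - y.1) = y.2.2.2.2 * (y.2.1 - y.1)) →
    Y.card ≤ σ ^ 2 * N * R

def SmallStmt : Prop :=
  ∀ (p : ℕ) [Fact p.Prime] (m ρ : ℕ) (V : Finset ℤ) (T : Finset (ℤ × ℤ × ℤ × ℤ)) (w w' : ℤ),
    Short p V m → 2 * m ^ 2 < p →
    (∀ a ∈ T, Gd p V a ∧ a.1 = w ∧ a.2.1 = w' ∧ qt a < ρ) →
    T.card ≤ 2 * Dm (3 * m ^ 4) * ρ

def NbStmt : Prop :=
  ∀ (p : ℕ) [Fact p.Prime] (m σ ρ : ℕ) (V : Finset ℤ) (T : Finset (ℤ × ℤ × ℤ × ℤ)) (w : ℤ),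
    Short p V m → 2 * m ^ 2 < p → 1 ≤ σ → 1 ≤ ρ →
    (∀ a ∈ T, Gd p V a ∧ a.1 = w ∧ σ ≤ qs a ∧ ρ ≤ qt a) →
    T.card ≤ 2 * Dm (3 * m ^ 4) * V.card ∨
      (T.image fun a => qA a / qs a).card * (σ ^ 2 * ρ ^ 2 * p) ≤ 196 * Dm (3 * m ^ 4) * m ^ 3

def ClassAStmt : Prop :=
  ∀ (p : ℕ) [Fact p.Prime] (m N R σ n : ℕ) (V : Finset ℤ) (Λ : Finset (ZMod p))
    (T : Finset (ℤ × ℤ × ℤ × ℤ)), Short p V m → 2 * m ^ 2 < p →
    (∀ v ∈ V, ∀ w ∈ V, (v : ZMod p) / w ∈ Λ) → HN p Λ N → 1 ≤ σ →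
    (∀ a ∈ T, Gd p V a ∧ rr p V ((a.2.1 : ZMod p) / a.1) ≤ R ∧ σ ≤ qs a ∧ qs a < 2 * σ) →
    (∀ w : ℤ, ((T.filter fun a => a.1 = w).image fun a => qA a / qs a).card ≤ n) →
    T.card ≤ 2 * V.card * n * R ∨ T.card ^ 2 ≤ 2 * V.card * n * σ ^ 2 * N * R ^ 3

def ClassBStmt : Prop :=
  ∀ (p : ℕ) [Fact p.Prime] (m N R σ : ℕ) (V : Finset ℤ) (Λ : Finset (ZMod p))
    (T : Finset (ℤ × ℤ × ℤ × ℤ)), Short p V m → 2 * m ^ 2 < p →
    (∀ v ∈ V, ∀ w ∈ V, (v : ZMod p) / w ∈ Λ) → HN p Λ N → 1 ≤ σ →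
    (∀ a ∈ T, Gd p V a ∧ rr p V ((a.2.1 : ZMod p) / a.1) ≤ R ∧ σ ≤ qs a ∧ qs a < 2 * σ) →
    T.card ≤ 4 * Dm (3 * m ^ 4) * V.card ^ 2 ∨
      T.card ^ 2 ≤ 4 * Dm (3 * m ^ 4) * V.card ^ 2 * σ ^ 2 * N * R ^ 2

def LevelStmt : Prop :=
  ∀ (p : ℕ) [Fact p.Prime] (m N R σ ρ : ℕ) (V : Finset ℤ) (Λ : Finset (ZMod p))
    (T : Finset (ℤ × ℤ × ℤ × ℤ)), Short p V m → 2 * m ^ 2 < p →
    (∀ v ∈ V, ∀ w ∈ V, (v : ZMod p) / w ∈ Λ) → HN p Λ N → 1 ≤ σ → 1 ≤ ρ →
    (∀ a ∈ T, Gd p V a ∧ rr p V ((a.2.1 : ZMod p) / a.1) ≤ R ∧ σ ≤ qs a ∧ qs a < 2 * σ ∧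
      ρ ≤ qt a) →
    T.card ≤ 8 * Dm (3 * m ^ 4) * V.card ^ 2 ∨
      T.card ^ 2 * (ρ ^ 2 * p) ≤ 2000 * Dm (3 * m ^ 4) * V.card * N * R ^ 3 * m ^ 3 ∨
      T.card ^ 3 * (ρ ^ 2 * p) ≤ 20000 * Dm (3 * m ^ 4) ^ 2 * V.card ^ 3 * N * R ^ 3 * m ^ 3

def CoreStmt : Prop :=
  ∃ C : ℕ, ∀ (p : ℕ) [Fact p.Prime] (m N Z : ℕ) (V : Finset ℤ) (Λ : Finset (ZMod p)),
    Short p V m → 2 * m ^ 2 < p → (∀ v ∈ V, ∀ w ∈ V, (v : ZMod p) / w ∈ Λ) → HN p Λ N →
    Λ.card ≤ Z →
    V.card ^ 2 ≤ C * (Dm (3 * m ^ 4) + 1) ^ 3 * Z ∨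
      V.card ^ 5 * p ≤ C * (Dm (3 * m ^ 4) + 1) ^ 10 * Z * N * m ^ 3

end Pool.Agent.MP_bd74a7_nt.Ic

end

section

open Finset
namespace Pool.Agent.MP_bd74a7_nt.Ic

theorem icElim_rename {K : Type} [Field K] {n : ℕ} (R : MvPolynomial (Fin n) K) :
    MvPolynomial.finSuccEquiv K n (MvPolynomial.rename Fin.succ R) = Polynomial.C R := by
  induction R using MvPolynomial.induction_on with
  | C a =>
    rw [MvPolynomial.rename_C]
    exact (MvPolynomial.finSuccEquiv K n).commutes a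
  | add p q hp hq => simp only [map_add, hp, hq]
  | mul_X p i hp =>
    simp only [map_mul, hp, MvPolynomial.rename_X, MvPolynomial.finSuccEquiv_X_succ]

theorem icElim_coeff {K : Type} [Field K] {n : ℕ} (P : MvPolynomial (Fin (n + 1)) K) (i : ℕ) :
    ((MvPolynomial.finSuccEquiv K n P).coeff i).totalDegree ≤ P.totalDegree := by
  by_cases h : (MvPolynomial.finSuccEquiv K n P).coeff i = 0
  · rw [h, MvPolynomial.totalDegree_zero]
    exact Nat.zero_le _
  · exact (Nat.le_add_right _ i).trans (MvPolynomial.totalDegree_coeff_finSuccEquiv_add_le P i h)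

theorem icElim_det {K σ : Type} [Field K] {m D : ℕ} (M : Matrix (Fin m) (Fin m) (MvPolynomial σ K))
    (h : ∀ i j, (M i j).totalDegree ≤ D) : M.det.totalDegree ≤ m * D := by
  rw [Matrix.det_apply]
  refine MvPolynomial.totalDegree_finsetSum_le fun s _ => ?_
  have h1 : (∏ i, M (s i) i).totalDegree ≤ m * D := by
    refine (MvPolynomial.totalDegree_finsetProd _ _).trans
      ((sum_le_card_nsmul _ _ D fun i _ => h _ _).trans ?_)
    rw [card_univ, Fintype.card_fin, smul_eq_mul]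
  rcases Int.units_eq_one_or (Equiv.Perm.sign s) with e | e
  · rwa [e, one_smul]
  · rwa [e, Units.neg_smul, one_smul, MvPolynomial.totalDegree_neg]

theorem icElim_ne {R : Type} [CommRing R] [IsDomain R] [UniqueFactorizationMonoid R]
    {f g : Polynomial R} (hf : Irreducible f) (hd : f.natDegree ≠ 0) (h : ¬ f ∣ g) :
    f.resultant g ≠ 0 := by
  have hp : f.IsPrimitive := hf.isPrimitive hd
  have hinj := IsFractionRing.injective R (FractionRing R)
  have h1 : Irreducible (f.map (algebraMap R (FractionRing R))) :=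
    hp.irreducible_iff_irreducible_map_fraction_map.1 hf
  have h2 := Polynomial.resultant_ne_zero _ (g.map (algebraMap R (FractionRing R)))
    (h1.coprime_iff_not_dvd.2 fun h3 => h (hp.dvd_of_fraction_map_dvd_fraction_map h3))
  rw [Polynomial.natDegree_map_eq_of_injective hinj, Polynomial.natDegree_map_eq_of_injective hinj,
    Polynomial.resultant_map_map] at h2
  intro h0
  exact h2 (by rw [h0, map_zero])

theorem elim_thm : ElimStmt := by
  intro K _ P Q hP hPQ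
  obtain ⟨e, he⟩ : ∃ e, e = MvPolynomial.finSuccEquiv K 2 := ⟨_, rfl⟩
  by_cases hd : (e P).natDegree = 0
  · have h1 := Polynomial.eq_C_of_natDegree_eq_zero hd
    refine ⟨(e P).coeff 0, fun h0 => hP.ne_zero ?_, ?_, 1, 0, e.injective ?_⟩
    · rw [h0, map_zero] at h1
      exact e.injective (h1.trans (map_zero e).symm)
    · have h2 := icElim_coeff P 0
      rw [← he] at h2
      exact h2.trans (le_trans (by omega) (Nat.le_self_pow two_ne_zero _))
    · rw [one_mul, zero_mul, add_zero, he, icElim_rename, ← he]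
      exact h1
  · have hf : Irreducible (e P) := (MulEquiv.irreducible_iff e).2 hP.irreducible
    have hn : ¬ e P ∣ e Q := fun h => hPQ ((map_dvd_iff e).1 h)
    obtain ⟨p, q, -, -, hpq⟩ := Polynomial.exists_mul_add_mul_eq_C_resultant (e P) (e Q) le_rfl
      le_rfl (Or.inl hd)
    refine ⟨(e P).resultant (e Q), icElim_ne hf hd hn, ?_, e.symm p, e.symm q, e.injective ?_⟩
    · have h1 : ∀ S : MvPolynomial (Fin 3) K, (e S).natDegree ≤ S.totalDegree := fun S => by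
        rw [he, MvPolynomial.natDegree_finSuccEquiv]
        exact MvPolynomial.degreeOf_le_totalDegree S 0
      refine (icElim_det (D := P.totalDegree + Q.totalDegree) _ fun i j => ?_).trans ?_
      · subst he
        refine Fin.addCases (fun j => ?_) (fun j => ?_) j
        · simp only [Polynomial.sylvester, Matrix.of_apply, Fin.addCases_left]
          split_ifs
          · exact (icElim_coeff Q _).trans (Nat.le_add_left _ _)
          · exact Nat.zero_le _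
        · simp only [Polynomial.sylvester, Matrix.of_apply, Fin.addCases_right]
          split_ifs
          · exact (icElim_coeff P _).trans (Nat.le_add_right _ _)
          · exact Nat.zero_le _
      · rw [sq]
        exact Nat.mul_le_mul ((add_le_add (h1 P) (h1 Q)).trans (Nat.le_succ _)) (Nat.le_succ _)
    · rw [map_add, map_mul, map_mul, e.apply_symm_apply, e.apply_symm_apply, mul_comm p,
        mul_comm q, hpq, he, icElim_rename]

end Pool.Agent.MP_bd74a7_nt.Ic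

end

section

open Finset

namespace Pool.Agent.MP_bd74a7_nt.Ic

namespace IcHs

open MvPolynomial

variable {K : Type} [Field K]

theorem deg_lt (i : Fin 3) (F : MvPolynomial (Fin 3) K) (h : pderiv i F ≠ 0) :
    (pderiv i F).totalDegree + 1 ≤ F.totalDegree := by
  obtain ⟨s, hs, he⟩ := Finset.exists_mem_eq_sup (pderiv i F).support
    (MvPolynomial.support_nonempty.2 h) (fun s => s.sum fun _ e => e)
  have h1 : (pderiv i F).totalDegree = s.sum fun _ e => e := he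
  have h2 : s + Finsupp.single i 1 ∈ F.support := by
    rw [MvPolynomial.mem_support_iff] at hs ⊢
    intro h0
    apply hs
    rw [coeff_pderiv, h0, zero_mul]
  have h3 := MvPolynomial.le_totalDegree h2
  rw [Finsupp.sum_add_index' (fun _ => rfl) (fun _ _ _ => rfl), Finsupp.sum_single_index rfl] at h3
  omega

theorem deg_le (i : Fin 3) (F : MvPolynomial (Fin 3) K) :
    (pderiv i F).totalDegree ≤ F.totalDegree := by
  by_cases h : pderiv i F = 0
  · rw [h]; simp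
  · have := deg_lt i F h
    omega

theorem comm (F : MvPolynomial (Fin 3) K) :
    pderiv 1 (pderiv 0 F) = pderiv 0 (pderiv 1 F) := by
  ext s
  simp only [coeff_pderiv]
  rw [add_assoc, add_assoc, add_comm (Finsupp.single (1 : Fin 3) 1) (Finsupp.single (0 : Fin 3) 1)]
  simp
  ring

theorem chain (m : K × K × K) (F : MvPolynomial (Fin 3) K) :
    Polynomial.derivative (evM m F) =
      Polynomial.C m.2.1 * evM m (pderiv 0 F) + evM m (pderiv 1 F) := by
  induction F using MvPolynomial.induction_on with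
  | C a => simp [evM]
  | add p q hp hq => simp only [map_add, hp, hq]; ring
  | mul_X p i hp =>
    simp only [map_mul, Polynomial.derivative_mul, hp, Derivation.leibniz, smul_eq_mul, map_add]
    fin_cases i <;> simp [evM, pderiv_X] <;> ring

end IcHs

open IcHs in
theorem hs_thm : HsStmt := by
  intro K _ P
  refine ⟨?_, ?_, deg_le 0 P, ?_⟩
  · have h0 := deg_le 0 P
    have h1 := deg_le 1 P
    have h00 := deg_le 0 (MvPolynomial.pderiv 0 P)
    have h01 := deg_le 0 (MvPolynomial.pderiv 1 P)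
    have h11 := deg_le 1 (MvPolynomial.pderiv 1 P)
    have h2 : (2 : MvPolynomial (Fin 3) K).totalDegree = 0 := by
      have : (2 : MvPolynomial (Fin 3) K) = MvPolynomial.C 2 := rfl
      rw [this, MvPolynomial.totalDegree_C]
    unfold Hs
    have a1 := MvPolynomial.totalDegree_mul (MvPolynomial.pderiv 1 (MvPolynomial.pderiv 1 P))
      (MvPolynomial.pderiv 0 P ^ 2)
    have a2 := MvPolynomial.totalDegree_pow (MvPolynomial.pderiv 0 P) 2
    have a3 := MvPolynomial.totalDegree_mul (2 : MvPolynomial (Fin 3) K)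
      (MvPolynomial.pderiv 0 (MvPolynomial.pderiv 1 P))
    have a4 := MvPolynomial.totalDegree_mul
      (2 * MvPolynomial.pderiv 0 (MvPolynomial.pderiv 1 P)) (MvPolynomial.pderiv 1 P)
    have a5 := MvPolynomial.totalDegree_mul
      (2 * MvPolynomial.pderiv 0 (MvPolynomial.pderiv 1 P) * MvPolynomial.pderiv 1 P)
      (MvPolynomial.pderiv 0 P)
    have a6 := MvPolynomial.totalDegree_mul (MvPolynomial.pderiv 0 (MvPolynomial.pderiv 0 P))
      (MvPolynomial.pderiv 1 P ^ 2)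
    have a7 := MvPolynomial.totalDegree_pow (MvPolynomial.pderiv 1 P) 2
    refine (MvPolynomial.totalDegree_add _ _).trans (max_le ?_ (by omega))
    refine (MvPolynomial.totalDegree_sub _ _).trans (max_le (by omega) (by omega))
  · intro m hm
    have e1 := chain m P
    rw [hm, Polynomial.derivative_zero] at e1
    have e2 := congrArg Polynomial.derivative e1
    rw [Polynomial.derivative_zero, Polynomial.derivative_add, Polynomial.derivative_mul,
      Polynomial.derivative_C, chain, chain, IcHs.comm] at e2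
    unfold Hs
    simp only [map_add, map_sub, map_mul, map_pow, map_ofNat]
    have e3 : evM m (MvPolynomial.pderiv 1 P) =
        -(Polynomial.C m.2.1 * evM m (MvPolynomial.pderiv 0 P)) := by linear_combination -e1
    rw [e3]
    linear_combination (-(evM m (MvPolynomial.pderiv 0 P)) ^ 2) * e2
  · intro hd
    by_contra h
    have h1 := deg_lt 0 P h
    have h2 := MvPolynomial.totalDegree_le_of_dvd_of_isDomain hd h
    omega

end Pool.Agent.MP_bd74a7_nt.Ic

end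

section

/-!
Interpolation: a nonzero polynomial of small degree vanishing on a given finite family of lines.
-/

open Finset

namespace Pool.Agent.MP_bd74a7_nt.Ic

namespace IcInterp

variable {K : Type} [Field K]

/-- The exponent vector attached to a bounded triple. -/
noncomputable def ex (e : ℕ) (s : Fin 3 → Fin (e + 1)) : Fin 3 →₀ ℕ :=
  Finsupp.equivFunOnFinite.symm fun i => (s i : ℕ)

lemma ex_inj (e : ℕ) : Function.Injective (ex e) := by
  intro s t h
  have h1 : (fun i => (s i : ℕ)) = fun i => (t i : ℕ) :=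
    Finsupp.equivFunOnFinite.symm.injective h
  funext i
  exact Fin.ext (congrFun h1 i)

lemma ex_sum_le (e : ℕ) (s : Fin 3 → Fin (e + 1)) : (ex e s).sum (fun _ n => n) ≤ 3 * e := by
  rw [Finsupp.sum_fintype _ _ (fun _ => rfl)]
  have h : ∀ i, (ex e s) i ≤ e := fun i => by
    have := (s i).2
    show (s i : ℕ) ≤ e
    omega
  rw [Fin.sum_univ_three]
  have h0 := h 0
  have h1 := h 1
  have h2 := h 2
  omega

/-- The polynomial with a given coefficient vector. -/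
noncomputable def pol (e : ℕ) : ((Fin 3 → Fin (e + 1)) → K) →ₗ[K] MvPolynomial (Fin 3) K :=
  ∑ s : Fin 3 → Fin (e + 1), (MvPolynomial.monomial (ex e s)).comp (LinearMap.proj s)

lemma pol_apply (e : ℕ) (c : (Fin 3 → Fin (e + 1)) → K) :
    pol e c = ∑ s : Fin 3 → Fin (e + 1), MvPolynomial.monomial (ex e s) (c s) := by
  simp [pol, LinearMap.sum_apply]

lemma coeff_pol (e : ℕ) (c : (Fin 3 → Fin (e + 1)) → K) (t : Fin 3 → Fin (e + 1)) :
    MvPolynomial.coeff (ex e t) (pol e c) = c t := by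
  classical
  rw [pol_apply, MvPolynomial.coeff_sum, Finset.sum_eq_single t]
  · simp
  · intro s _ hs
    rw [MvPolynomial.coeff_monomial, if_neg]
    exact fun h => hs (ex_inj e h)
  · intro h
    exact absurd (Finset.mem_univ t) h

lemma deg_pol (e : ℕ) (c : (Fin 3 → Fin (e + 1)) → K) : (pol e c).totalDegree ≤ 3 * e := by
  rw [pol_apply]
  refine MvPolynomial.totalDegree_finsetSum_le fun s _ => ?_
  exact (MvPolynomial.totalDegree_monomial_le _ _).trans (ex_sum_le e s)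

lemma natDegree_evM (m : K × K × K) (P : MvPolynomial (Fin 3) K) (d : ℕ)
    (hP : P.totalDegree ≤ d) : (evM m P).natDegree ≤ d := by
  have h := MvPolynomial.aeval_natDegree_le (n := 1) P hP
    (![Polynomial.C m.2.2 + Polynomial.C m.2.1 * Polynomial.X, Polynomial.X,
      Polynomial.C m.1] : Fin 3 → Polynomial K) (by
      intro i
      fin_cases i
      · show (Polynomial.C m.2.2 + Polynomial.C m.2.1 * Polynomial.X).natDegree ≤ 1
        compute_degree
      · show (Polynomial.X : Polynomial K).natDegree ≤ 1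
        exact Polynomial.natDegree_X_le
      · show (Polynomial.C m.1).natDegree ≤ 1
        simp)
  simpa [evM] using h

/-- All low coefficients of the restrictions to the lines of `M`. -/
noncomputable def phi (M : Finset (K × K × K)) (e : ℕ) :
    ((Fin 3 → Fin (e + 1)) → K) →ₗ[K] (M × Fin (3 * e + 1) → K) :=
  LinearMap.pi fun x =>
    (Polynomial.lcoeff K (x.2 : ℕ)).comp (((evM (x.1 : K × K × K)).toLinearMap).comp (pol e))

lemma phi_apply (M : Finset (K × K × K)) (e : ℕ) (c : (Fin 3 → Fin (e + 1)) → K)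
    (x : M × Fin (3 * e + 1)) :
    phi M e c x = (evM (x.1 : K × K × K) (pol e c)).coeff (x.2 : ℕ) := rfl

end IcInterp

open IcInterp in
theorem interp_thm : InterpStmt := by
  intro K _ M e he
  have hlt : Module.finrank K (M × Fin (3 * e + 1) → K) <
      Module.finrank K ((Fin 3 → Fin (e + 1)) → K) := by
    rw [Module.finrank_pi, Module.finrank_pi]
    simp only [Fintype.card_prod, Fintype.card_coe, Fintype.card_fin, Fintype.card_pi,
      Finset.prod_const, Finset.card_univ]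
    nlinarith [Nat.zero_le e, Nat.zero_le M.card, Nat.mul_le_mul_right e he]
  have hk := LinearMap.ker_ne_bot_of_finrank_lt (f := phi M e) hlt
  obtain ⟨c, hc, hc0⟩ := (Submodule.ne_bot_iff _).mp hk
  refine ⟨pol e c, ?_, deg_pol e c, ?_⟩
  · intro h
    apply hc0
    funext t
    have := coeff_pol e c t
    rw [h] at this
    simpa using this.symm
  · intro m hm
    have hd := natDegree_evM m (pol e c) (3 * e) (deg_pol e c)
    ext j
    by_cases hj : j < 3 * e + 1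
    · have h0 : phi M e c = 0 := hc
      have := congrFun h0 (⟨m, hm⟩, ⟨j, hj⟩)
      rw [phi_apply] at this
      simpa using this
    · rw [Polynomial.coeff_eq_zero_of_natDegree_lt (by omega)]
      simp

end Pool.Agent.MP_bd74a7_nt.Ic

end

section

open Finset

namespace Pool.Agent.MP_bd74a7_nt.Ic

namespace IcPrime

variable {K : Type} [Field K]

lemma key (l m : K × K × K) (h : l.1 + m.1 * l.2.1 = m.2.2 + m.2.1 * l.2.2)
    (F : MvPolynomial (Fin 3) K) :
    Polynomial.eval m.1 (evL l F) = Polynomial.eval l.2.2 (evM m F) := by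
  have h1 : (Polynomial.aeval m.1).comp (evL l) = (Polynomial.aeval l.2.2).comp (evM m) := by
    apply MvPolynomial.algHom_ext
    intro i
    fin_cases i
    · simp [evL, evM]
      linear_combination h
    · simp [evL, evM]
    · simp [evL, evM]
  have h2 := AlgHom.congr_fun h1 F
  simpa [Polynomial.coe_aeval_eq_eval] using h2

lemma deg (l : K × K × K) (Q : MvPolynomial (Fin 3) K) :
    (evL l Q).natDegree ≤ Q.totalDegree := by
  have h := MvPolynomial.aeval_natDegree_le (m := Q.totalDegree) (n := 1) Q le_rfl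
    ![Polynomial.C l.1 + Polynomial.C l.2.1 * Polynomial.X, Polynomial.C l.2.2, Polynomial.X]
    (by
      intro i
      fin_cases i
      · show (Polynomial.C l.1 + Polynomial.C l.2.1 * Polynomial.X).natDegree ≤ 1
        rw [add_comm]
        exact Polynomial.natDegree_linear_le
      · show (Polynomial.C l.2.2).natDegree ≤ 1
        simp
      · show (Polynomial.X : Polynomial K).natDegree ≤ 1
        exact Polynomial.natDegree_X_le)
  simpa [evL] using h

open Classical in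
/-- Number of planes of `M` through the point `l`. -/
noncomputable def one (l : K × K × K) (M : Finset (K × K × K)) : ℕ :=
  (M.filter fun m => l.1 + m.1 * l.2.1 = m.2.2 + m.2.1 * l.2.2).card

lemma inc_eq (L M : Finset (K × K × K)) : inc L M = ∑ l ∈ L, one l M := by
  unfold inc one
  rw [Finset.card_filter, Finset.sum_product]
  refine Finset.sum_congr rfl fun l _ => ?_
  rw [Finset.card_filter]

lemma one_le_card (l : K × K × K) (M : Finset (K × K × K)) : one l M ≤ M.card := by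
  classical
  unfold one
  exact Finset.card_filter_le _ _

lemma one_le (l : K × K × K) (M : Finset (K × K × K)) (hM : DisM M)
    (Q : MvPolynomial (Fin 3) K) (hQ : evL l Q ≠ 0) (hv : ∀ m ∈ M, evM m Q = 0) :
    one l M ≤ Q.totalDegree := by
  classical
  refine le_trans ?_ (deg l Q)
  refine le_trans ?_ (Polynomial.card_roots' (evL l Q))
  refine le_trans ?_ (Multiset.toFinset_card_le _)
  unfold one
  refine Finset.card_le_card_of_injOn (fun m => m.1) ?_ ?_
  · intro m hm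
    have hm' := Finset.mem_filter.1 (Finset.mem_coe.1 hm)
    rw [Finset.mem_coe, Multiset.mem_toFinset, Polynomial.mem_roots hQ, Polynomial.IsRoot.def,
      key l m hm'.2 Q, hv m hm'.1, Polynomial.eval_zero]
  · intro m hm m' hm' h
    exact hM m (Finset.mem_filter.1 (Finset.mem_coe.1 hm)).1 m'
      (Finset.mem_filter.1 (Finset.mem_coe.1 hm')).1 h

lemma split (L L' L2 M : Finset (K × K × K)) (c k : ℕ) (h1 : L' ⊆ L) (h2 : L2 ⊆ L)
    (hk : L2.card ≤ k) (hc : ∀ l ∈ L, l ∉ L' → l ∉ L2 → one l M ≤ c) :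
    inc L M ≤ inc L' M + c * L.card + k * M.card := by
  classical
  rw [inc_eq, inc_eq]
  have e1 : ∑ l ∈ L', one l M = ∑ l ∈ L, if l ∈ L' then one l M else 0 := by
    rw [← Finset.sum_filter, Finset.filter_mem_eq_inter, Finset.inter_eq_right.2 h1]
  have e2 : L2.card * M.card = ∑ l ∈ L, if l ∈ L2 then M.card else 0 := by
    rw [← Finset.sum_filter, Finset.filter_mem_eq_inter, Finset.inter_eq_right.2 h2,
      Finset.sum_const, smul_eq_mul]
  have e3 : c * L.card = ∑ _l ∈ L, c := by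
    rw [Finset.sum_const, smul_eq_mul, mul_comm]
  have e4 : ∑ l ∈ L, one l M ≤ ∑ l ∈ L', one l M + c * L.card + L2.card * M.card := by
    rw [e1, e2, e3, ← Finset.sum_add_distrib, ← Finset.sum_add_distrib]
    refine Finset.sum_le_sum fun l hl => ?_
    by_cases a1 : l ∈ L'
    · rw [if_pos a1]
      omega
    · by_cases a2 : l ∈ L2
      · rw [if_pos a2]
        have := one_le_card l M
        omega
      · have := hc l hl a1 a2
        omega
  have e5 : L2.card * M.card ≤ k * M.card := Nat.mul_le_mul_right _ hk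
  omega

lemma one_le_deg (P : MvPolynomial (Fin 3) K) (hP : Prime P) : 1 ≤ P.totalDegree := by
  by_contra h
  have h0 : P.totalDegree = 0 := by omega
  have h1 : P = MvPolynomial.C (P.coeff 0) := MvPolynomial.totalDegree_eq_zero_iff_eq_C.1 h0
  have h2 : P.coeff 0 ≠ 0 := by
    intro h3
    rw [h3, map_zero] at h1
    exact hP.ne_zero h1
  apply hP.not_isUnit
  rw [h1]
  exact (IsUnit.mk0 _ h2).map MvPolynomial.C

omit [Field K] in
lemma disL_sub {L L' : Finset (K × K × K)} (h : DisL L) (h1 : L' ⊆ L) : DisL L' :=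
  fun l hl l' hl' e => h l (h1 hl) l' (h1 hl') e

end IcPrime

open IcPrime in
theorem prime_thm (hF : FewStmt) (hW : FreeStmt) (hH : HsStmt) (hT : FlatStmt) : PrimeStmt := by
  intro K _ _ L M k P hL hM hC hk hP hch hv
  classical
  have hd := one_le_deg P hP
  obtain ⟨g1, g2, g3, g4⟩ := hH K P
  have hv2 : ∀ m ∈ M, evM m (Hs P) = 0 := fun m hm => g2 m (hv m hm)
  have hout : ∀ l, evL l P ≠ 0 → one l M ≤ 3 * P.totalDegree := fun l hl =>
    le_trans (one_le l M hM P hl hv) (by omega)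
  by_cases c1 : P ∣ Hs P
  · by_cases c2 : MvPolynomial.pderiv 0 P = 0
    · refine ⟨L.filter fun l => evL l P = 0, Finset.filter_subset _ _, ?_, ?_⟩
      · have := hW K P hP.ne_zero hch c2 (L.filter fun l => evL l P = 0)
          (disL_sub hL (Finset.filter_subset _ _)) (fun l hl => (Finset.mem_filter.1 hl).2)
        nlinarith
      · refine split L _ ∅ M _ k (Finset.filter_subset _ _) (Finset.empty_subset _) (by simp) ?_
        intro l hl a1 _
        exact hout l fun e => a1 (Finset.mem_filter.2 ⟨hl, e⟩)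
    · have c3 : ¬ P ∣ MvPolynomial.pderiv 0 P := fun e => c2 (g4 e)
      refine ⟨L.filter fun l => evL l P = 0 ∧ evL l (MvPolynomial.pderiv 0 P) = 0,
        Finset.filter_subset _ _, ?_, ?_⟩
      · have h1 := hF K P _ hP c3
          (L.filter fun l => evL l P = 0 ∧ evL l (MvPolynomial.pderiv 0 P) = 0)
          (disL_sub hL (Finset.filter_subset _ _)) (fun l hl => (Finset.mem_filter.1 hl).2)
        have h2 : (P.totalDegree + (MvPolynomial.pderiv 0 P).totalDegree + 1) ^ 2 ≤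
            (5 * P.totalDegree) ^ 2 := Nat.pow_le_pow_left (by omega) 2
        calc _ ≤ _ := h1
          _ ≤ _ := h2
          _ = _ := by ring
      · refine split L _ (L.filter fun l => evL l P = 0 ∧ evL l (MvPolynomial.pderiv 0 P) ≠ 0)
          M _ k (Finset.filter_subset _ _) (Finset.filter_subset _ _) ?_ ?_
        · by_contra hlt
          have h1 : 1 < (L.filter fun l =>
              evL l P = 0 ∧ evL l (MvPolynomial.pderiv 0 P) ≠ 0).card := by omega
          obtain ⟨l0, m0, l1, m1, hne⟩ := Finset.one_lt_card.1 h1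
          have n0 := Finset.mem_filter.1 m0
          have n1 := Finset.mem_filter.1 m1
          have h3 : l1.2.2 ≠ l0.2.2 := fun e => hne (hL l1 n1.1 l0 n0.1 e).symm
          apply hlt
          refine hC l0 l1 hne _ (Finset.filter_subset _ _) ?_
          intro r hr
          exact hT K P hP hch c1 l0 l1 r n0.2.1 n0.2.2 n1.2.1 (Finset.mem_filter.1 hr).2.1 h3
        · intro l hl a1 a2
          refine hout l fun e => ?_
          by_cases e2 : evL l (MvPolynomial.pderiv 0 P) = 0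
          · exact a1 (Finset.mem_filter.2 ⟨hl, e, e2⟩)
          · exact a2 (Finset.mem_filter.2 ⟨hl, e, e2⟩)
  · refine ⟨L.filter fun l => evL l P = 0 ∧ evL l (Hs P) = 0, Finset.filter_subset _ _, ?_, ?_⟩
    · have h1 := hF K P _ hP c1 (L.filter fun l => evL l P = 0 ∧ evL l (Hs P) = 0)
        (disL_sub hL (Finset.filter_subset _ _)) (fun l hl => (Finset.mem_filter.1 hl).2)
      have h2 : (P.totalDegree + (Hs P).totalDegree + 1) ^ 2 ≤
          (5 * P.totalDegree) ^ 2 := Nat.pow_le_pow_left (by omega) 2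
      calc _ ≤ _ := h1
        _ ≤ _ := h2
        _ = _ := by ring
    · refine split L _ ∅ M _ k (Finset.filter_subset _ _) (Finset.empty_subset _) (by simp) ?_
      intro l hl a1 _
      by_cases e : evL l P = 0
      · have e2 : evL l (Hs P) ≠ 0 := fun e2 => a1 (Finset.mem_filter.2 ⟨hl, e, e2⟩)
        exact le_trans (one_le l M hM _ e2 hv2) g1
      · exact hout l e

end Pool.Agent.MP_bd74a7_nt.Ic

end

section

open Finset
namespace Pool.Agent.MP_bd74a7_nt.Ic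

namespace IcGrid

variable {k K : Type} [Field k] [Field K] (ι : k →+* K) (τ : K)

/-- the first powers of `τ` are independent -/
def Ind : Prop := ∀ c0 c1 c2 c4 : k,
  ι c0 + ι c1 * τ + ι c2 * τ ^ 2 + ι c4 * τ ^ 4 = 0 → c0 = 0 ∧ c1 = 0 ∧ c2 = 0

/-- the map on points -/
def Fp (l : k × k × k) : K × K × K :=
  (ι l.1 / (1 - τ ^ 2 * ι l.1), ι l.2.1 / (1 - τ ^ 2 * ι l.1),
    (ι l.2.2 - τ * ι l.1 - τ ^ 2 * ι l.2.1) / (1 - τ ^ 2 * ι l.1))

/-- the map on planes -/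
def Gp (m : k × k × k) : K × K × K :=
  ((ι m.1 - ι m.2.1 * τ ^ 2) / (1 - ι m.2.1 * τ - ι m.2.2 * τ ^ 2),
    ι m.2.1 / (1 - ι m.2.1 * τ - ι m.2.2 * τ ^ 2), ι m.2.2 / (1 - ι m.2.1 * τ - ι m.2.2 * τ ^ 2))

/-- the inclusion -/
def Ep (l : k × k × k) : K × K × K := (ι l.1, ι l.2.1, ι l.2.2)

theorem ind_ratFunc (k : Type) [Field k] : Ind (algebraMap k (RatFunc k)) RatFunc.X := by
  intro c0 c1 c2 c4 h
  have h1 : Polynomial.C c0 + Polynomial.C c1 * Polynomial.X + Polynomial.C c2 * Polynomial.X ^ 2 +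
      Polynomial.C c4 * Polynomial.X ^ 4 = 0 := by
    apply RatFunc.algebraMap_injective k
    simpa using h
  refine ⟨?_, ?_, ?_⟩
  · simpa using congrArg (fun f => Polynomial.coeff f 0) h1
  · simpa [Polynomial.coeff_X_pow] using congrArg (fun f => Polynomial.coeff f 1) h1
  · simpa [Polynomial.coeff_X_pow, Polynomial.coeff_X] using
      congrArg (fun f => Polynomial.coeff f 2) h1

variable {ι τ}

theorem den (h : Ind ι τ) (a u : k) : 1 - ι a * τ - ι u * τ ^ 2 ≠ 0 := fun e =>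
  one_ne_zero (h 1 (-a) (-u) 0 (by
    rw [map_one, map_neg, map_neg, map_zero]
    linear_combination e)).1

theorem den' (h : Ind ι τ) (x : k) : 1 - τ ^ 2 * ι x ≠ 0 := fun e =>
  den h 0 x (by
    rw [map_zero]
    linear_combination e)

theorem disF (h : Ind ι τ) {l l' : k × k × k} (e : (Fp ι τ l).2.2 = (Fp ι τ l').2.2) : l = l' := by
  obtain ⟨x, y, z⟩ := l
  obtain ⟨x', y', z'⟩ := l'
  have e1 := (div_eq_div_iff (den' h x) (den' h x')).1 e
  obtain ⟨h0, h1, h2⟩ := h (z - z') (x' - x) (y' - y - z * x' + z' * x) (y * x' - y' * x) (by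
    simp only [map_sub, map_add, map_mul]
    linear_combination e1)
  obtain rfl : z = z' := sub_eq_zero.1 h0
  obtain rfl : x' = x := sub_eq_zero.1 h1
  obtain rfl : y' = y := by linear_combination h2
  rfl

theorem disG (h : Ind ι τ) {m m' : k × k × k} (hm : m.1 ≠ 0) (e : (Gp ι τ m).1 = (Gp ι τ m').1) :
    m = m' := by
  obtain ⟨b, a, u⟩ := m
  obtain ⟨b', a', u'⟩ := m'
  have e1 := (div_eq_div_iff (den h a u) (den h a' u')).1 e
  obtain ⟨h0, h1, h2⟩ := h (b - b') (b' * a - b * a') (b' * u - b * u' + a' - a)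
    (a * u' - a' * u) (by
    simp only [map_sub, map_add, map_mul]
    linear_combination e1)
  obtain rfl : b = b' := sub_eq_zero.1 h0
  obtain rfl : a = a' := mul_left_cancel₀ hm (sub_eq_zero.1 h1)
  obtain rfl : u = u' := mul_left_cancel₀ hm (by linear_combination h2)
  rfl

theorem incFG (h : Ind ι τ) {l m : k × k × k} (e : l.1 + m.1 * l.2.1 = m.2.2 + m.2.1 * l.2.2) :
    (Fp ι τ l).1 + (Gp ι τ m).1 * (Fp ι τ l).2.1 =
      (Gp ι τ m).2.2 + (Gp ι τ m).2.1 * (Fp ι τ l).2.2 := by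
  have e1 := congrArg ι e
  simp only [map_add, map_mul] at e1
  have h1 := den' h l.1
  have h2 := den h m.2.1 m.2.2
  simp only [Fp, Gp]
  rw [div_mul_div_comm, div_mul_div_comm, div_add_div _ _ h1 (mul_ne_zero h2 h1),
    div_add_div _ _ h2 (mul_ne_zero h2 h1),
    div_eq_div_iff (mul_ne_zero h1 (mul_ne_zero h2 h1)) (mul_ne_zero h2 (mul_ne_zero h2 h1))]
  linear_combination (1 - τ ^ 2 * ι l.1) ^ 2 * (1 - ι m.2.1 * τ - ι m.2.2 * τ ^ 2) ^ 2 * e1

theorem line (h : Ind ι τ) {l l0 l1 : k × k × k} {s : K}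
    (e : Fp ι τ l = Fp ι τ l0 + s • (Fp ι τ l1 - Fp ι τ l0)) :
    ∃ μ : K, Ep ι l = Ep ι l0 + μ • (Ep ι l1 - Ep ι l0) := by
  obtain ⟨x, y, z⟩ := l
  obtain ⟨x0, y0, z0⟩ := l0
  obtain ⟨x1, y1, z1⟩ := l1
  have d := mul_inv_cancel₀ (den' h x)
  have d0 := mul_inv_cancel₀ (den' h x0)
  have d1 := mul_inv_cancel₀ (den' h x1)
  simp only [Fp, Prod.mk_add_mk, Prod.smul_mk, Prod.mk_sub_mk, Prod.mk.injEq, smul_eq_mul,
    div_eq_mul_inv] at e
  obtain ⟨e1, e2, e3⟩ := e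
  generalize (1 - τ ^ 2 * ι x)⁻¹ = i at *
  generalize (1 - τ ^ 2 * ι x0)⁻¹ = i0 at *
  generalize (1 - τ ^ 2 * ι x1)⁻¹ = i1 at *
  have e0 : i = i0 + s * (i1 - i0) := by
    linear_combination d - (1 - s) * d0 - s * d1 + τ ^ 2 * e1
  have e4 : ι z * i = ι z0 * i0 + s * (ι z1 * i1 - ι z0 * i0) := by
    linear_combination e3 + τ * e1 + τ ^ 2 * e2
  refine ⟨(1 - τ ^ 2 * ι x) * s * i1, ?_⟩
  simp only [Ep, Prod.mk_add_mk, Prod.smul_mk, Prod.mk_sub_mk, Prod.mk.injEq, smul_eq_mul]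
  refine ⟨?_, ?_, ?_⟩
  · linear_combination (1 - τ ^ 2 * ι x) * (e1 - ι x0 * e0) - (ι x - ι x0) * d
  · linear_combination (1 - τ ^ 2 * ι x) * (e2 - ι y0 * e0) - (ι y - ι y0) * d
  · linear_combination (1 - τ ^ 2 * ι x) * (e4 - ι z0 * e0) - (ι z - ι z0) * d

theorem inj_coord {T : Finset (k × k × k)} {l0 l1 : k × k × k}
    (hT : ∀ l ∈ T, ∃ μ : K, Ep ι l = Ep ι l0 + μ • (Ep ι l1 - Ep ι l0)) (f : k × k × k → k)
    (g : (K × K × K) →ₗ[K] K) (hfg : ∀ l, g (Ep ι l) = ι (f l)) (hne : f l0 ≠ f l1) {A : Finset k}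
    (hA : ∀ l ∈ T, f l ∈ A) : T.card ≤ A.card := by
  refine card_le_card_of_injOn f (fun l hl => hA l hl) fun l hl l' hl' e => ?_
  obtain ⟨μ, h1⟩ := hT l hl
  obtain ⟨μ', h2⟩ := hT l' hl'
  have h3 := congrArg g h1
  have h4 := congrArg g h2
  simp only [map_add, map_smul, map_sub, hfg, smul_eq_mul] at h3 h4
  rw [e, h4] at h3
  have h5 : μ' = μ := mul_right_cancel₀ (sub_ne_zero.2 (ι.injective.ne hne.symm))
    (add_left_cancel h3)
  rw [h5, ← h1] at h2
  simp only [Ep, Prod.mk.injEq] at h2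
  exact Prod.ext (ι.injective h2.1.symm)
    (Prod.ext (ι.injective h2.2.1.symm) (ι.injective h2.2.2.symm))

theorem col [DecidableEq K] (h : Ind ι τ) {A B C : Finset k} {n : ℕ} (hn : 1 ≤ n)
    (hA : A.card ≤ n) (hB : B.card ≤ n) (hC : C.card ≤ n) :
    Col ((A ×ˢ B ×ˢ C).image (Fp ι τ)) n := by
  intro p q _ S hS hl
  by_cases h1 : S.card ≤ 1
  · exact h1.trans hn
  obtain ⟨r0, hr0, r1, hr1, hne⟩ := one_lt_card.1 (not_le.1 h1)
  obtain ⟨l0, -, rfl⟩ := mem_image.1 (hS hr0)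
  obtain ⟨l1, -, rfl⟩ := mem_image.1 (hS hr1)
  obtain ⟨c0, e0⟩ := hl _ hr0
  obtain ⟨c1, e1⟩ := hl _ hr1
  have hc : c1 - c0 ≠ 0 := sub_ne_zero.2 fun e => hne (by rw [e0, e1, e])
  obtain ⟨T, hT⟩ : ∃ T, T = (A ×ˢ B ×ˢ C).filter fun l => Fp ι τ l ∈ S := ⟨_, rfl⟩
  have h2 : S.card ≤ T.card := by
    refine le_trans (card_le_card fun r hr => ?_) (card_image_le (f := Fp ι τ))
    obtain ⟨l, hl, rfl⟩ := mem_image.1 (hS hr)
    exact mem_image_of_mem _ (hT ▸ mem_filter.2 ⟨hl, hr⟩)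
  have h3 : ∀ l ∈ T, ∃ μ : K, Ep ι l = Ep ι l0 + μ • (Ep ι l1 - Ep ι l0) := by
    intro l hl'
    rw [hT] at hl'
    obtain ⟨c, e⟩ := hl _ (mem_filter.1 hl').2
    refine line h (s := (c - c0) / (c1 - c0)) ?_
    rw [e, e0, e1, add_sub_add_left_eq_sub, ← sub_smul, smul_smul, div_mul_cancel₀ _ hc,
      add_assoc, ← add_smul, add_sub_cancel]
  have h4 : ∀ l ∈ T, l.1 ∈ A ∧ l.2.1 ∈ B ∧ l.2.2 ∈ C := by
    intro l hl'
    rw [hT] at hl'
    have := (mem_filter.1 hl').1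
    rwa [mem_product, mem_product] at this
  refine h2.trans ?_
  by_cases a1 : l0.1 = l1.1
  swap
  · exact (inj_coord h3 (fun l => l.1) (LinearMap.fst K K _) (fun _ => rfl) a1
      fun l hl => (h4 l hl).1).trans hA
  by_cases a2 : l0.2.1 = l1.2.1
  swap
  · exact (inj_coord h3 (fun l => l.2.1) (LinearMap.fst K K _ ∘ₗ LinearMap.snd K K _)
      (fun _ => rfl) a2 fun l hl => (h4 l hl).2.1).trans hB
  refine (inj_coord h3 (fun l => l.2.2) (LinearMap.snd K K _ ∘ₗ LinearMap.snd K K _)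
      (fun _ => rfl) (fun a3 => hne ?_) fun l hl => (h4 l hl).2.2).trans hC
  rw [Prod.ext a1 (Prod.ext a2 a3)]

theorem inc_le [DecidableEq K] (h : Ind ι τ) (L M : Finset (k × k × k))
    (hM : ∀ m ∈ M, m.1 ≠ 0) : inc L M ≤ inc (L.image (Fp ι τ)) (M.image (Gp ι τ)) := by
  refine card_le_card_of_injOn (fun x => (Fp ι τ x.1, Gp ι τ x.2)) (fun x hx => ?_)
    fun x hx x' _ e => ?_
  · obtain ⟨h1, h2⟩ := (@mem_filter _ _ (_) _ _).1 (mem_coe.1 hx)
    obtain ⟨h3, h4⟩ := mem_product.1 h1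
    exact mem_coe.2 ((@mem_filter _ _ (_) _ _).2
      ⟨mem_product.2 ⟨mem_image_of_mem _ h3, mem_image_of_mem _ h4⟩, incFG h h2⟩)
  · obtain ⟨h1, -⟩ := (@mem_filter _ _ (_) _ _).1 (mem_coe.1 hx)
    exact Prod.ext (disF h (congrArg (fun a => a.1.2.2) e))
      (disG h (hM _ (mem_product.1 h1).2) (congrArg (fun a => a.2.1) e))

end IcGrid

open IcGrid in
theorem grid_thm (hI : IncStmt) : GridStmt := by
  classical
  intro p _ A B C M q hA hB hC hM hM0 hq
  have h := ind_ratFunc (ZMod p)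
  have : Infinite (RatFunc (ZMod p)) :=
    Infinite.of_injective _ (RatFunc.algebraMap_injective (ZMod p))
  have : CharP (RatFunc (ZMod p)) p :=
    charP_of_injective_algebraMap (algebraMap (ZMod p) (RatFunc (ZMod p))).injective p
  have e4 : 4 ^ (3 * q) = 64 ^ q := pow_mul 4 3 q
  have e2 : 2 ^ (3 * q) = 8 ^ q := pow_mul 2 3 q
  have e8 : 8 ^ (3 * q) = 512 ^ q := pow_mul 8 3 q
  have h1 : 1 ≤ 4 ^ q := Nat.one_le_pow _ _ (by norm_num)
  have hM' := (card_image_le (s := M)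
    (f := Gp (algebraMap (ZMod p) (RatFunc (ZMod p))) RatFunc.X)).trans hM
  refine (inc_le h _ M hM0).trans ((hI (RatFunc (ZMod p)) (3 * q) (4 ^ q) _ _ ?_ ?_
    (col h h1 hA hB hC) h1 ?_ (hM'.trans e4.ge) ?_).trans ?_)
  · intro l hl l' hl' e
    obtain ⟨l, -, rfl⟩ := mem_image.1 hl
    obtain ⟨l', -, rfl⟩ := mem_image.1 hl'
    rw [disF h e]
  · intro m hm m' hm' e
    obtain ⟨m, hm0, rfl⟩ := mem_image.1 hm
    obtain ⟨m', -, rfl⟩ := mem_image.1 hm'
    rw [disG h (hM0 m hm0) e]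
  · refine card_image_le.trans ?_
    rw [card_product, card_product, show 3 * q = q + (q + q) by ring, pow_add, pow_add]
    exact Nat.mul_le_mul hA (Nat.mul_le_mul hB hC)
  · intro j h2 h3 h4
    have := Nat.le_of_dvd h2 ((CharP.cast_eq_zero_iff _ p j).1 h4)
    omega
  · have h2 : 3 * q * 4 ^ q * 64 ^ q ≤ 3 * 2 ^ q * 4 ^ q * 64 ^ q :=
      Nat.mul_le_mul_right _ (Nat.mul_le_mul_right _
        (Nat.mul_le_mul_left _ Nat.lt_two_pow_self.le))
    have h3 : 3 * 2 ^ q * 4 ^ q * 64 ^ q = 3 * 512 ^ q := by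
      rw [mul_assoc, mul_assoc, ← mul_pow, ← mul_pow]
      rfl
    have h4 := Nat.mul_le_mul_left (3 * q * 4 ^ q) hM'
    rw [e8]
    omega

end Pool.Agent.MP_bd74a7_nt.Ic

end

section

open Finset

namespace Pool.Agent.MP_bd74a7_nt.Ic

namespace IcN

variable {p : ℕ} [Fact p.Prime]

theorem card_img (g c : ZMod p) (M : ℕ) :
    ((Icc (-(M : ℤ)) (3 * M)).image fun j => c * g ^ j).card ≤ 4 * M + 1 := by
  refine card_image_le.trans ?_
  rw [Int.card_Icc]
  omega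

theorem mem_img (g c : ZMod p) (M : ℕ) (j : ℤ) (h1 : -(M : ℤ) ≤ j) (h2 : j ≤ 3 * M) :
    c * g ^ j ∈ (Icc (-(M : ℤ)) (3 * M)).image fun j => c * g ^ j :=
  mem_image.2 ⟨j, mem_Icc.2 ⟨h1, h2⟩, rfl⟩

theorem small (Λ : Finset (ZMod p)) (α β γ : ZMod p) (hβ : β ≠ 0) :
    ((Λ ×ˢ Λ).filter fun x => α * x.1 + β * x.2 = γ).card ≤ Λ.card := by
  refine card_le_card_of_injOn (fun x => x.1) ?_ ?_
  · intro x hx
    simp only [coe_filter, mem_product, Set.mem_ofPred_eq] at hx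
    exact hx.1.1
  · intro x hx y hy hxy
    simp only [coe_filter, mem_product, Set.mem_ofPred_eq] at hx hy
    have h1 : x.1 = y.1 := hxy
    have h2 : β * x.2 = β * y.2 := by
      have := hx.2.trans hy.2.symm
      rw [h1] at this
      exact add_left_cancel this
    exact Prod.ext h1 (mul_left_cancel₀ hβ h2)

theorem pow_inj (g : ZMod p) (M : ℕ) (hM : M < orderOf g) (i j : ℕ) (hi : i < M) (hj : j < M)
    (h : g ^ i = g ^ j) : i = j :=
  pow_injOn_Iio_orderOf (x := g) (Set.mem_Iio.2 (hi.trans hM)) (Set.mem_Iio.2 (hj.trans hM)) h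

theorem count_le (g : ZMod p) (M : ℕ) (hM : M < orderOf g) (α β γ : ZMod p)
    (hα : α ≠ 0) (hβ : β ≠ 0) (hγ : γ ≠ 0) :
    ((((Icc (-(M : ℤ)) M).image fun j => g ^ j) ×ˢ
        ((Icc (-(M : ℤ)) M).image fun j => g ^ j)).filter
        fun x => α * x.1 + β * x.2 = γ).card ^ 2 * M ^ 3 ≤
      inc (((Icc (-(M : ℤ)) (3 * M)).image fun j => α * g ^ j) ×ˢ
          ((Icc (-(M : ℤ)) (3 * M)).image fun j => β * g ^ j) ×ˢ
          ((Icc (-(M : ℤ)) (3 * M)).image fun j => 1 * g ^ j))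
        (((Icc (-(M : ℤ)) (3 * M)).image fun j => 1 * g ^ j) ×ˢ
          ((Icc (-(M : ℤ)) (3 * M)).image fun j => α * g ^ j) ×ˢ
          ((Icc (-(M : ℤ)) (3 * M)).image fun j => β * g ^ j)) := by
  classical
  have hg : g ≠ 0 := by
    rintro rfl
    rw [orderOf_zero] at hM
    omega
  set S := ((((Icc (-(M : ℤ)) M).image fun j => g ^ j) ×ˢ
        ((Icc (-(M : ℤ)) M).image fun j => g ^ j)).filter
        fun x => α * x.1 + β * x.2 = γ) with hS
  have hmem : ∀ x ∈ S, (∃ a : ℤ, -(M : ℤ) ≤ a ∧ a ≤ M ∧ x.1 = g ^ a) ∧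
      (∃ a : ℤ, -(M : ℤ) ≤ a ∧ a ≤ M ∧ x.2 = g ^ a) ∧ α * x.1 + β * x.2 = γ := by
    intro x hx
    rw [hS, mem_filter, mem_product, mem_image, mem_image] at hx
    obtain ⟨⟨⟨a, ha, ha'⟩, ⟨b, hb, hb'⟩⟩, h⟩ := hx
    rw [mem_Icc] at ha hb
    exact ⟨⟨a, ha.1, ha.2, ha'.symm⟩, ⟨b, hb.1, hb.2, hb'.symm⟩, h⟩
  have hcard : S.card ^ 2 * M ^ 3 =
      ((S ×ˢ S) ×ˢ (range M ×ˢ range M ×ˢ range M)).card := by
    simp only [card_product, card_range]
    ring
  rw [hcard]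
  unfold inc
  refine card_le_card_of_injOn
    (fun y => ((α * y.1.1.1 * g ^ y.2.1, β * y.1.1.2 * g ^ y.2.1 * g ^ y.2.2.1,
        (g ^ y.2.2.2)⁻¹),
      ((g ^ y.2.2.1)⁻¹, α * y.1.2.1 * g ^ y.2.1 * g ^ y.2.2.2, β * y.1.2.2 * g ^ y.2.1))) ?_ ?_
  · rintro ⟨⟨x, x'⟩, i, j, k⟩ hy
    simp only [coe_product, Set.mem_prod, mem_coe, coe_range, Set.mem_Iio] at hy
    obtain ⟨⟨hx, hx'⟩, hi, hj, hk⟩ := hy
    obtain ⟨⟨a, ha1, ha2, ha⟩, ⟨b, hb1, hb2, hb⟩, h⟩ := hmem x hx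
    obtain ⟨⟨a', ha1', ha2', ha'⟩, ⟨b', hb1', hb2', hb'⟩, h'⟩ := hmem x' hx'
    have hgj : g ^ j ≠ 0 := pow_ne_zero _ hg
    have hgk : g ^ k ≠ 0 := pow_ne_zero _ hg
    refine mem_coe.2 ((@mem_filter _ _ (_) _ _).2 ⟨?_, ?_⟩)
    · simp only [mem_product]
      refine ⟨⟨?_, ?_, ?_⟩, ?_, ?_, ?_⟩
      · have : α * x.1 * g ^ i = α * g ^ (a + i) := by
          rw [ha, zpow_add₀ hg, zpow_natCast, mul_assoc]
        rw [this]
        exact mem_img g α M _ (by omega) (by omega)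
      · have : β * x.2 * g ^ i * g ^ j = β * g ^ (b + i + j) := by
          rw [hb, zpow_add₀ hg, zpow_add₀ hg, zpow_natCast, zpow_natCast]
          ring
        rw [this]
        exact mem_img g β M _ (by omega) (by omega)
      · have : (g ^ k)⁻¹ = 1 * g ^ (-(k : ℤ)) := by
          rw [zpow_neg, zpow_natCast, one_mul]
        rw [this]
        exact mem_img g 1 M _ (by omega) (by omega)
      · have : (g ^ j)⁻¹ = 1 * g ^ (-(j : ℤ)) := by
          rw [zpow_neg, zpow_natCast, one_mul]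
        rw [this]
        exact mem_img g 1 M _ (by omega) (by omega)
      · have : α * x'.1 * g ^ i * g ^ k = α * g ^ (a' + i + k) := by
          rw [ha', zpow_add₀ hg, zpow_add₀ hg, zpow_natCast, zpow_natCast]
          ring
        rw [this]
        exact mem_img g α M _ (by omega) (by omega)
      · have : β * x'.2 * g ^ i = β * g ^ (b' + i) := by
          rw [hb', zpow_add₀ hg, zpow_natCast, mul_assoc]
        rw [this]
        exact mem_img g β M _ (by omega) (by omega)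
    · show α * x.1 * g ^ i + (g ^ j)⁻¹ * (β * x.2 * g ^ i * g ^ j) =
        β * x'.2 * g ^ i + α * x'.1 * g ^ i * g ^ k * (g ^ k)⁻¹
      have e1 : (g ^ j)⁻¹ * (β * x.2 * g ^ i * g ^ j) = β * x.2 * g ^ i := by
        field_simp
      have e2 : α * x'.1 * g ^ i * g ^ k * (g ^ k)⁻¹ = α * x'.1 * g ^ i := by
        field_simp
      rw [e1, e2]
      linear_combination (g ^ i) * (h - h')
  · rintro ⟨⟨x, x'⟩, i, j, k⟩ hy ⟨⟨z, z'⟩, i', j', k'⟩ hz he
    simp only [coe_product, Set.mem_prod, mem_coe, coe_range, Set.mem_Iio] at hy hz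
    obtain ⟨⟨hx, hx'⟩, hi, hj, hk⟩ := hy
    obtain ⟨⟨hz1, hz'⟩, hi', hj', hk'⟩ := hz
    simp only [Prod.mk.injEq, inv_inj] at he
    obtain ⟨⟨e1, e2, e3⟩, e4, e5, e6⟩ := he
    obtain rfl : k = k' := pow_inj g M hM _ _ hk hk' e3
    obtain rfl : j = j' := pow_inj g M hM _ _ hj hj' e4
    have hgj : g ^ j ≠ 0 := pow_ne_zero _ hg
    have hgk : g ^ k ≠ 0 := pow_ne_zero _ hg
    have e2' := mul_right_cancel₀ hgj e2
    have e5' := mul_right_cancel₀ hgk e5
    have h := (hmem x hx).2.2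
    have h2 := (hmem z hz1).2.2
    have ew : γ * g ^ i = γ * g ^ i' := by
      linear_combination e1 + e2' - (g ^ i) * h + (g ^ i') * h2
    obtain rfl : i = i' := pow_inj g M hM _ _ hi hi' (mul_left_cancel₀ hγ ew)
    have hgi : g ^ i ≠ 0 := pow_ne_zero _ hg
    have f1 := mul_left_cancel₀ hα (mul_right_cancel₀ hgi e1)
    have f2 := mul_left_cancel₀ hβ (mul_right_cancel₀ hgi e2')
    have f3 := mul_left_cancel₀ hα (mul_right_cancel₀ hgi e5')
    have f4 := mul_left_cancel₀ hβ (mul_right_cancel₀ hgi e6)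
    rw [Prod.ext f1 f2, Prod.ext f3 f4]

theorem one (hG : GridStmt) (g : ZMod p) (M : ℕ) (h1 : 1 ≤ M) (hM : M < orderOf g)
    (hp : M ^ 2 < p) (α β γ : ZMod p) (hα : α ≠ 0) (hβ : β ≠ 0) (hγ : γ ≠ 0) :
    ((((Icc (-(M : ℤ)) M).image fun j => g ^ j) ×ˢ
        ((Icc (-(M : ℤ)) M).image fun j => g ^ j)).filter
        fun x => α * x.1 + β * x.2 = γ).card ^ 4 ≤ 2 ^ 85 * M ^ 3 := by
  classical
  have hg : g ≠ 0 := by
    rintro rfl
    rw [orderOf_zero] at hM
    omega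
  have hc := count_le g M hM α β γ hα hβ hγ
  have hs := small ((Icc (-(M : ℤ)) M).image fun j => g ^ j) α β γ hβ
  generalize ((((Icc (-(M : ℤ)) M).image fun j => g ^ j) ×ˢ
        ((Icc (-(M : ℤ)) M).image fun j => g ^ j)).filter
        fun x => α * x.1 + β * x.2 = γ).card = n at hc hs
  by_cases hsm : M < 8000
  · have h2 : ((Icc (-(M : ℤ)) M).image fun j => g ^ j).card ≤ 3 * M := by
      refine card_image_le.trans ?_
      rw [Int.card_Icc]
      omega
    have h3 : n ≤ 3 * M := hs.trans h2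
    calc n ^ 4 ≤ (3 * M) ^ 4 := Nat.pow_le_pow_left h3 4
      _ = (81 * M) * M ^ 3 := by ring
      _ ≤ 2 ^ 85 * M ^ 3 := Nat.mul_le_mul_right _ (by omega)
  · push Not at hsm
    set q := Nat.clog 4 (5 * M) with hq
    have hq1 : 5 * M ≤ 4 ^ q := Nat.le_pow_clog (by norm_num) _
    have hq2 : 4 ^ q < 20 * M := by
      have h5 := Nat.pow_pred_clog_lt_self (b := 4) (by norm_num) (x := 5 * M) (by omega)
      have hq0 : 0 < q := Nat.clog_pos (by norm_num) (by omega)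
      rw [← hq] at h5
      have : 4 ^ q = 4 * 4 ^ q.pred := by
        conv_lhs => rw [← Nat.succ_pred_eq_of_pos hq0]
        rw [pow_succ]
        ring
      omega
    have h8 : 8 ^ q < p := by
      have e : (8 ^ q) ^ 2 = (4 ^ q) ^ 3 := by
        rw [← pow_mul, ← pow_mul, mul_comm q 2, mul_comm q 3, pow_mul, pow_mul]
        norm_num
      have l1 : (4 ^ q) ^ 3 ≤ (20 * M) ^ 3 := Nat.pow_le_pow_left hq2.le 3
      have l2 : (20 * M) ^ 3 ≤ (M ^ 2) ^ 2 := by
        calc (20 * M) ^ 3 = 8000 * M ^ 3 := by ring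
          _ ≤ M * M ^ 3 := Nat.mul_le_mul_right _ hsm
          _ = (M ^ 2) ^ 2 := by ring
      have l3 : (8 ^ q) ^ 2 ≤ (M ^ 2) ^ 2 := by
        rw [e]
        exact l1.trans l2
      exact lt_of_le_of_lt (Nat.pow_le_pow_iff_left (by norm_num) |>.1 l3) hp
    have ca := (card_img g α M).trans (show 4 * M + 1 ≤ 4 ^ q by omega)
    have cb := (card_img g β M).trans (show 4 * M + 1 ≤ 4 ^ q by omega)
    have cc := (card_img g 1 M).trans (show 4 * M + 1 ≤ 4 ^ q by omega)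
    have hinc := hG p _ _ _
      (((Icc (-(M : ℤ)) (3 * M)).image fun j => 1 * g ^ j) ×ˢ
          ((Icc (-(M : ℤ)) (3 * M)).image fun j => α * g ^ j) ×ˢ
          ((Icc (-(M : ℤ)) (3 * M)).image fun j => β * g ^ j)) q ca cb cc
      (by
        rw [card_product, card_product]
        have e : 64 ^ q = 4 ^ q * (4 ^ q * 4 ^ q) := by
          rw [← mul_pow, ← mul_pow]
          norm_num
        rw [e]
        exact Nat.mul_le_mul cc (Nat.mul_le_mul ca cb))
      (by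
        intro m hm
        rw [mem_product, mem_image] at hm
        obtain ⟨⟨j, -, hj⟩, -⟩ := hm
        rw [← hj, one_mul]
        exact zpow_ne_zero _ hg)
      h8
    have hb : n ^ 2 * M ^ 3 ≤ 2 ^ 23 * 512 ^ q := hc.trans hinc
    have e : (512 ^ q) ^ 2 = (4 ^ q) ^ 9 := by
      rw [← pow_mul, ← pow_mul, mul_comm q 2, mul_comm q 9, pow_mul, pow_mul]
      norm_num
    have hM6 : 0 < M ^ 6 := by positivity
    refine Nat.le_of_mul_le_mul_right ?_ hM6
    calc n ^ 4 * M ^ 6 = (n ^ 2 * M ^ 3) ^ 2 := by ring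
      _ ≤ (2 ^ 23 * 512 ^ q) ^ 2 := Nat.pow_le_pow_left hb 2
      _ = 2 ^ 46 * (4 ^ q) ^ 9 := by rw [mul_pow, e]; norm_num
      _ ≤ 2 ^ 46 * (20 * M) ^ 9 := Nat.mul_le_mul_left _ (Nat.pow_le_pow_left hq2.le 9)
      _ = (2 ^ 46 * 20 ^ 9) * M ^ 9 := by ring
      _ ≤ 2 ^ 85 * M ^ 9 := Nat.mul_le_mul_right _ (by norm_num)
      _ = 2 ^ 85 * M ^ 3 * M ^ 6 := by ring

end IcN

theorem n_thm (hG : GridStmt) : NStmt := by
  intro p _ g M h1 hM hp
  classical
  refine ⟨Nat.findGreatest (fun n => n ^ 4 ≤ 2 ^ 85 * M ^ 3) (2 ^ 85 * M ^ 3), ?_, ?_⟩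
  · exact Nat.findGreatest_spec (P := fun n => n ^ 4 ≤ 2 ^ 85 * M ^ 3) (m := 0)
      (Nat.zero_le _) (by simp)
  · intro α β γ hα hβ hγ
    have h := IcN.one hG g M h1 hM hp α β γ hα hβ hγ
    refine Nat.le_findGreatest ?_ h
    exact (Nat.le_self_pow (by norm_num) _).trans h

end Pool.Agent.MP_bd74a7_nt.Ic

end

section

open Finset

namespace Pool.Agent.MP_bd74a7_nt.Ic

theorem icTrip_nz {p m a : ℕ} (h1 : 1 ≤ a) (h2 : a ≤ m) (hm : m < p) : (a : ZMod p) ≠ 0 := by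
  intro h
  have h3 := (ZMod.natCast_eq_zero_iff a p).1 h
  have h4 := Nat.le_of_dvd (by omega) h3
  omega

theorem icTrip_fib (p : ℕ) [Fact p.Prime] (m N R α β : ℕ) (V : Finset ℤ) (Λ : Finset (ZMod p))
    (Y : Finset (ℤ × ℤ × ℤ × ℕ × ℕ)) (hV : Short p V m) (hm : m < p)
    (hΛ : ∀ v ∈ V, ∀ w ∈ V, (v : ZMod p) / w ∈ Λ) (hN : HN p Λ N)
    (hY : ∀ y ∈ Y, y.1 ∈ V ∧ y.2.1 ∈ V ∧ y.2.2.1 ∈ V ∧ y.2.1 ≠ y.2.2.1 ∧
      rr p V ((y.2.1 : ZMod p) / y.1) ≤ R ∧ 1 ≤ α ∧ 1 ≤ β ∧ α ≤ m ∧ β ≤ m ∧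
      y.2.2.2 = (α, β) ∧ (α : ℤ) * (y.2.2.1 - y.1) = β * (y.2.1 - y.1)) :
    Y.card ≤ N * R := by
  classical
  rcases Y.eq_empty_or_nonempty with rfl | ⟨y0, hy0⟩
  · simp
  obtain ⟨-, -, -, hne, -, ha1, hb1, ham, hbm, -, he0⟩ := hY y0 hy0
  have hα : (α : ZMod p) ≠ 0 := icTrip_nz ha1 ham hm
  have hβ : (β : ZMod p) ≠ 0 := icTrip_nz hb1 hbm hm
  have hαZ : (α : ℤ) ≠ 0 := by exact_mod_cast (by omega : α ≠ 0)
  have hγ : (α : ZMod p) - β ≠ 0 := by
    intro h
    have h1 : (α : ℤ) - β = 0 := by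
      apply eq_zero_of_cast (p := p)
      · push_cast
        exact h
      · rw [abs_lt]
        constructor <;> omega
    have h2 : (β : ℤ) = α := by omega
    rw [h2] at he0
    have h3 := mul_left_cancel₀ hαZ he0
    exact hne (by omega)
  have hS := hN (α : ZMod p) (-(β : ZMod p)) ((α : ZMod p) - β) hα (neg_ne_zero.2 hβ) hγ
  have h1 : Y.card ≤ R * ((Λ ×ˢ Λ).filter fun x : ZMod p × ZMod p =>
      (α : ZMod p) * x.1 + -(β : ZMod p) * x.2 = (α : ZMod p) - β).card := by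
    refine card_le_mul_card_image_of_maps_to
      (f := fun y : ℤ × ℤ × ℤ × ℕ × ℕ => (((y.2.2.1 : ZMod p) / y.1, (y.2.1 : ZMod p) / y.1) :
        ZMod p × ZMod p)) ?_ R ?_
    · intro y hy
      obtain ⟨m0, m1, m2, -, -, -, -, -, -, -, he⟩ := hY y hy
      rw [mem_filter, mem_product]
      refine ⟨⟨hΛ _ m2 _ m0, hΛ _ m1 _ m0⟩, ?_⟩
      have hz := hV.nz _ m0
      have he' : (α : ZMod p) * (y.2.2.1 - y.1) = β * (y.2.1 - y.1) := by
        have := congrArg (Int.cast : ℤ → ZMod p) he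
        push_cast at this
        exact this
      field_simp
      linear_combination he'
    · intro b _
      rcases (Y.filter fun y : ℤ × ℤ × ℤ × ℕ × ℕ =>
        (((y.2.2.1 : ZMod p) / y.1, (y.2.1 : ZMod p) / y.1) : ZMod p × ZMod p) = b).eq_empty_or_nonempty
        with h0 | ⟨y1, hy1⟩
      · rw [h0]
        simp
      rw [mem_filter] at hy1
      obtain ⟨hy1, e1⟩ := hy1
      have hR := (hY y1 hy1).2.2.2.2.1
      have e2 : (y1.2.1 : ZMod p) / y1.1 = b.2 := congrArg Prod.snd e1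
      rw [e2] at hR
      refine le_trans ?_ hR
      unfold rr
      refine card_le_card_of_injOn (fun y => (y.1, y.2.1)) ?_ ?_
      · intro y hy
        rw [mem_coe, mem_filter] at hy
        obtain ⟨hy, e⟩ := hy
        obtain ⟨m0, m1, -⟩ := hY y hy
        have e3 : (y.2.1 : ZMod p) / y.1 = b.2 := congrArg Prod.snd e
        rw [mem_coe, mem_filter, mem_product]
        refine ⟨⟨m0, m1⟩, ?_⟩
        rw [← e3]
        exact (div_mul_cancel₀ _ (hV.nz _ m0)).symm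
      · intro y hy z hz hyz
        rw [mem_coe, mem_filter] at hy hz
        obtain ⟨-, -, -, -, -, -, -, -, -, ey, fy⟩ := hY y hy.1
        obtain ⟨-, -, -, -, -, -, -, -, -, ez, fz⟩ := hY z hz.1
        simp only [Prod.mk.injEq] at hyz
        obtain ⟨c0, c1⟩ := hyz
        rw [← c0, ← c1, ← fy] at fz
        have c2 := mul_left_cancel₀ hαZ fz
        refine Prod.ext c0 (Prod.ext c1 (Prod.ext (by omega) ?_))
        rw [ey, ez]
  calc Y.card ≤ R * N := h1.trans (Nat.mul_le_mul_left R hS)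
    _ = N * R := mul_comm _ _

theorem trip_thm : TripStmt := by
  intro p _ m N R σ V Λ Y hV hm hΛ hN hσ hY
  classical
  have h1 : Y.card ≤ (N * R) * (Ico σ (2 * σ) ×ˢ Ico σ (2 * σ)).card := by
    refine card_le_mul_card_image_of_maps_to
      (f := fun y : ℤ × ℤ × ℤ × ℕ × ℕ => y.2.2.2) ?_ (N * R) ?_
    · intro y hy
      obtain ⟨-, -, -, -, -, a1, a2, b1, b2, -⟩ := hY y hy
      rw [mem_product, mem_Ico, mem_Ico]
      exact ⟨⟨a1, a2⟩, b1, b2⟩
    · intro b _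
      refine icTrip_fib p m N R b.1 b.2 V Λ _ hV hm hΛ hN ?_
      intro y hy
      rw [mem_filter] at hy
      obtain ⟨hy, e⟩ := hy
      obtain ⟨m0, m1, m2, hne, hR, a1, -, b1, -, am, bm, he⟩ := hY y hy
      rw [← e]
      exact ⟨m0, m1, m2, hne, hR, hσ.trans a1, hσ.trans b1, am, bm, rfl, he⟩
  rw [card_product, Nat.card_Ico] at h1
  have h2 : 2 * σ - σ = σ := by omega
  rw [h2] at h1
  refine h1.trans (le_of_eq ?_)
  ring

theorem icTrip_ne {p m : ℕ} [Fact p.Prime] {V : Finset ℤ} (hV : Short p V m)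
    (hp : 2 * m ^ 2 < p) {a : ℤ × ℤ × ℤ × ℤ} (ha : Gd p V a) : qA a ≠ 0 ∧ qB a ≠ 0 := by
  obtain ⟨m0, m1, m2, m3, hr, hc⟩ := ha
  have key : qA a * qB a ≠ 0 := by
    intro h
    apply hc
    apply eq_zero_of_cast (p := p)
    · apply mul_left_cancel₀ (hV.nz _ m0)
      have h' := congrArg (Int.cast : ℤ → ZMod p) h
      unfold qA qB at h'
      unfold qc
      push_cast at h' ⊢
      linear_combination hr + h'
    · have d1 := hV.diam _ m3 _ m1
      have d2 := hV.diam _ m2 _ m0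
      have hp' : 2 * (m : ℤ) ^ 2 < p := by exact_mod_cast hp
      have hm : (m : ℤ) ≤ (m : ℤ) ^ 2 := by exact_mod_cast Nat.le_self_pow two_ne_zero m
      rw [abs_le] at d1 d2
      unfold qc
      rw [abs_lt]
      constructor <;> omega
  exact ⟨left_ne_zero_of_mul key, right_ne_zero_of_mul key⟩

theorem icTrip_gcd (a : ℤ × ℤ × ℤ × ℤ) :
    Int.gcd (qB a) (a.2.2.2 - a.2.1) = qg a * qt a := by
  have h1 : qg a ∣ Int.gcd (qB a) (qc a) := Nat.gcd_dvd_right _ _
  unfold qt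
  rw [Nat.mul_div_cancel' h1, ← Int.gcd_add_self_right (qB a) (qc a)]
  congr 1
  unfold qB qc
  ring

theorem small_thm : SmallStmt := by
  intro p _ m ρ V T w w' hV hp hT
  classical
  rcases T.eq_empty_or_nonempty with rfl | ⟨a0, ha0⟩
  · simp
  obtain ⟨g0, e0, e1, -⟩ := hT a0 ha0
  have hA0 := (icTrip_ne hV hp g0).1
  have hAeq : ∀ a ∈ T, qA a = qA a0 := by
    intro a ha
    obtain ⟨-, f0, f1, -⟩ := hT a ha
    unfold qA
    rw [f0, f1, e0, e1]
  have hAm : (qA a0).natAbs ≤ 3 * m ^ 4 := by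
    have d := hV.diam _ g0.2.1 _ g0.1
    have h1 : (qA a0).natAbs ≤ m := by
      unfold qA
      rw [Int.abs_eq_natAbs] at d
      exact_mod_cast d
    have h2 : m ≤ m ^ 4 := Nat.le_self_pow (by norm_num) m
    omega
  have h2 : T.card ≤ ((qA a0).natAbs.divisors ×ˢ (range ρ ×ˢ (univ : Finset Bool))).card := by
    refine card_le_card_of_injOn (fun a => (qg a, qt a, decide (0 < qB a))) ?_ ?_
    · intro a ha
      simp only [coe_product, coe_univ, Set.mem_prod, Set.mem_univ, and_true, mem_coe, mem_range,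
        Nat.mem_divisors]
      refine ⟨⟨?_, Int.natAbs_ne_zero.2 hA0⟩, (hT a ha).2.2.2⟩
      rw [← hAeq a ha]
      exact (Nat.gcd_dvd_left _ _).trans (Nat.gcd_dvd_left _ _)
    · intro a ha b hb hab
      simp only [Prod.mk.injEq, decide_eq_decide] at hab
      obtain ⟨eg, et, es⟩ := hab
      obtain ⟨ga, a0', a1', -⟩ := hT a ha
      obtain ⟨gb, b0', b1', -⟩ := hT b hb
      have c0 : a.1 = b.1 := a0'.trans b0'.symm
      have c1 : a.2.1 = b.2.1 := a1'.trans b1'.symm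
      have hBa := (icTrip_ne hV hp ga).2
      have hg : Int.gcd (qB a) (a.2.2.2 - a.2.1) = Int.gcd (qB b) (b.2.2.2 - b.2.1) := by
        rw [icTrip_gcd, icTrip_gcd, eg, et]
      obtain ⟨m0, m1, m2, m3, ra, -⟩ := ga
      obtain ⟨n0, n1, n2, n3, rb, -⟩ := gb
      have hdet : qB a * (b.2.2.2 - b.2.1) - (a.2.2.2 - a.2.1) * qB b = 0 := by
        apply eq_zero_of_cast (p := p)
        · apply mul_left_cancel₀ (hV.nz _ m0)
          unfold qB
          rw [← c0, ← c1] at rb ⊢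
          push_cast
          linear_combination ((a.2.2.1 : ZMod p) - a.1) * rb - ((b.2.2.1 : ZMod p) - a.1) * ra
        · have d1 := hV.diam _ m2 _ m0
          have d2 := hV.diam _ n3 _ n1
          have d3 := hV.diam _ m3 _ m1
          have d4 := hV.diam _ n2 _ n0
          have hp' : 2 * (m : ℤ) ^ 2 < p := by exact_mod_cast hp
          refine (abs_sub _ _).trans_lt ?_
          rw [abs_mul, abs_mul]
          unfold qB
          have i1 := mul_le_mul d1 d2 (abs_nonneg _) (by positivity)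
          have i2 := mul_le_mul d3 d4 (abs_nonneg _) (by positivity)
          nlinarith
      rcases par_gcd (sub_eq_zero.1 hdet) hg with ⟨f1, f2⟩ | ⟨f1, f2⟩
      · unfold qB at f1
        exact Prod.ext c0 (Prod.ext c1 (Prod.ext (by omega) (by omega)))
      · exfalso
        omega
  rw [card_product, card_product, card_range, card_univ, Fintype.card_bool] at h2
  have h3 := card_divisors_le hAm
  calc T.card ≤ _ := h2
    _ ≤ Dm (3 * m ^ 4) * (ρ * 2) := Nat.mul_le_mul_right _ h3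
    _ = _ := by ring

end Pool.Agent.MP_bd74a7_nt.Ic

end

section

/-!
The number of values of `A / s` among quadruples with a fixed first entry.
-/

open Finset

namespace Pool.Agent.MP_bd74a7_nt.Ic

theorem icNb_decomp (a : ℤ × ℤ × ℤ × ℤ) (hc : qc a ≠ 0) :
    ∃ (S : ℕ) (c n : ℤ), qs a * qt a ≤ S ∧ qc a = S * c ∧ qA a * qB a = S * n ∧
      qA a / qs a ∣ n := by
  have hk0 : 0 < Int.gcd (qA a) (qc a) := Int.gcd_pos_of_ne_zero_right _ hc
  have hg0 : 0 < qg a := Nat.gcd_pos_of_pos_left _ hk0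
  have hs : Int.gcd (qA a) (qc a) = qg a * qs a :=
    (Nat.mul_div_cancel' (Nat.gcd_dvd_left _ _)).symm
  have ht : Int.gcd (qB a) (qc a) = qg a * qt a :=
    (Nat.mul_div_cancel' (Nat.gcd_dvd_right _ _)).symm
  have hs0 : qs a ≠ 0 := by
    intro h0
    rw [h0, mul_zero] at hs
    omega
  have hl : Nat.lcm (Int.gcd (qA a) (qc a)) (Int.gcd (qB a) (qc a)) = qg a * qs a * qt a := by
    have h1 := Nat.gcd_mul_lcm (Int.gcd (qA a) (qc a)) (Int.gcd (qB a) (qc a))
    have h2 : qg a * Nat.lcm (Int.gcd (qA a) (qc a)) (Int.gcd (qB a) (qc a)) =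
        qg a * (qg a * qs a * qt a) := by
      calc _ = Int.gcd (qA a) (qc a) * Int.gcd (qB a) (qc a) := h1
        _ = (qg a * qs a) * (qg a * qt a) := by rw [← hs, ← ht]
        _ = _ := by ring
    exact Nat.eq_of_mul_eq_mul_left hg0 h2
  obtain ⟨c, hcc⟩ : ((qg a * qs a * qt a : ℕ) : ℤ) ∣ qc a := by
    rw [← hl, Int.natCast_dvd]
    exact Nat.lcm_dvd (Int.natCast_dvd.1 (Int.gcd_dvd_right _ _))
      (Int.natCast_dvd.1 (Int.gcd_dvd_right _ _))
  obtain ⟨A1, hA⟩ : ((qg a * qs a : ℕ) : ℤ) ∣ qA a := by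
    rw [← hs]
    exact Int.gcd_dvd_left _ _
  obtain ⟨B1, hB⟩ : ((qg a * qt a : ℕ) : ℤ) ∣ qB a := by
    rw [← ht]
    exact Int.gcd_dvd_left _ _
  refine ⟨qg a * qs a * qt a, c, qg a * A1 * B1, ?_, hcc, ?_, ?_⟩
  · rw [mul_assoc]
    exact Nat.le_mul_of_pos_left _ hg0
  · rw [hA, hB]
    push_cast
    ring
  · have h1 : qA a / qs a = qg a * A1 := by
      have hs1 : ((qs a : ℕ) : ℤ) ≠ 0 := by exact_mod_cast hs0
      refine Int.ediv_eq_of_eq_mul_right hs1 ?_
      rw [hA]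
      push_cast
      ring
    rw [h1]
    exact dvd_mul_right _ _

theorem nb_thm : NbStmt := by
  intro p _ m σ ρ V T w hV hp hσ hρ hT
  classical
  have hQ : Quad p V T (fun a => a.1) (fun a => a.2.1) (fun a => a.2.2.1)
      (fun a => a.2.2.2) :=
    ⟨fun a ha => (hT a ha).1.1, fun a ha => (hT a ha).1.2.1, fun a ha => (hT a ha).1.2.2.1,
      fun a ha => (hT a ha).1.2.2.2.1, fun a ha => (hT a ha).1.2.2.2.2.1,
      fun a _ b _ h0 h1 h2 h3 => Prod.ext h0 (Prod.ext h1 (Prod.ext h2 h3))⟩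
  have hw : ∀ a ∈ T, a.1 = w := fun a ha => (hT a ha).2.1
  have hdec : ∀ a : ℤ × ℤ × ℤ × ℤ, ∃ (S : ℕ) (c n : ℤ), a ∈ T →
      qs a * qt a ≤ S ∧ qc a = S * c ∧ qA a * qB a = S * n ∧ qA a / qs a ∣ n := by
    intro a
    by_cases ha : a ∈ T
    · obtain ⟨S, c, n, H⟩ := icNb_decomp a (hT a ha).1.2.2.2.2.2
      exact ⟨S, c, n, fun _ => H⟩
    · exact ⟨0, 0, 0, fun h => absurd h ha⟩
  choose s g n H using hdec
  have hτ : 1 ≤ σ * ρ := Nat.mul_pos hσ hρ
  have hτs : ∀ a ∈ T, σ * ρ ≤ s a := fun a ha =>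
    (Nat.mul_le_mul (hT a ha).2.2.1 (hT a ha).2.2.2).trans (H a ha).1
  have hγ : ∀ a ∈ T, qc a = s a * g a := fun a ha => (H a ha).2.1
  have hAB : ∀ a ∈ T, qA a * qB a = s a * n a := fun a ha => (H a ha).2.2.1
  have hp' : 2 * (m : ℤ) ^ 2 < p := by exact_mod_cast hp
  have hm2 : 2 * (m : ℤ) ≤ 2 * m ^ 2 := by
    have : m ≤ m ^ 2 := Nat.le_self_pow (by norm_num) m
    have : (m : ℤ) ≤ m ^ 2 := by exact_mod_cast this
    linarith
  have bγ : ∀ a ∈ T, |qc a| ≤ (2 * m : ℕ) := by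
    intro a ha
    have d1 := hV.diam _ (hQ.m1 a ha) _ (hQ.m0 a ha)
    have d2 := hV.diam _ (hQ.m3 a ha) _ (hQ.m2 a ha)
    simp only [qc]
    rw [abs_le] at *
    push_cast
    constructor <;> linarith [d1.1, d1.2, d2.1, d2.2]
  have bAB : ∀ a ∈ T, |qA a * qB a| ≤ (m ^ 2 : ℕ) := by
    intro a ha
    rw [abs_mul]
    have := mul_le_mul (hV.diam _ (hQ.m1 a ha) _ (hQ.m0 a ha))
      (hV.diam _ (hQ.m2 a ha) _ (hQ.m0 a ha)) (abs_nonneg _) (by positivity)
    simp only [qA, qB]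
    push_cast
    nlinarith
  have bg : ∀ a ∈ T, |g a| ≤ (2 * m / (σ * ρ) : ℕ) := fun a ha =>
    abs_le_div hτ (hτs a ha) (hγ a ha) (bγ a ha)
  have bn : ∀ a ∈ T, |n a| ≤ (m ^ 2 / (σ * ρ) : ℕ) := fun a ha =>
    abs_le_div hτ (hτs a ha) (hAB a ha) (bAB a ha)
  have bg' : ∀ a ∈ T, |g a| ≤ 2 * m := fun a ha =>
    (bg a ha).trans (by exact_mod_cast Nat.div_le_self _ _)
  have bn' : ∀ a ∈ T, |n a| ≤ m ^ 2 := fun a ha =>
    (bn a ha).trans (by exact_mod_cast Nat.div_le_self _ _)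
  have crel : ∀ a ∈ T, ((qA a * qB a : ℤ) : ZMod p) = w * ((qc a : ℤ) : ZMod p) := by
    intro a ha
    have r : (a.1 : ZMod p) * a.2.2.2 = a.2.1 * a.2.2.1 := (hT a ha).1.2.2.2.2.1
    simp only [qA, qB, qc]
    rw [hw a ha] at r ⊢
    push_cast
    linear_combination -r
  have γ0 : ∀ a ∈ T, ((qc a : ℤ) : ZMod p) ≠ 0 := by
    intro a ha h0
    refine (hT a ha).1.2.2.2.2.2 (eq_zero_of_cast h0 ((bγ a ha).trans_lt ?_))
    push_cast
    linarith
  have g0 : ∀ a ∈ T, (g a : ZMod p) ≠ 0 := by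
    intro a ha h0
    refine γ0 a ha ?_
    rw [hγ a ha]
    push_cast
    rw [h0, mul_zero]
  have cng : ∀ a ∈ T, (n a : ZMod p) = w * g a := by
    intro a ha
    have s0 : (s a : ZMod p) ≠ 0 := by
      intro h0
      refine γ0 a ha ?_
      rw [hγ a ha]
      push_cast
      rw [h0, zero_mul]
    have r := crel a ha
    rw [hγ a ha, hAB a ha] at r
    push_cast at r
    apply mul_left_cancel₀ s0
    linear_combination r
  have n0 : ∀ a ∈ T, n a ≠ 0 := by
    intro a ha h0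
    have r := cng a ha
    rw [h0, Int.cast_zero] at r
    have hw0 : (w : ZMod p) ≠ 0 := by
      rw [← hw a ha]
      exact hV.nz _ (hQ.m0 a ha)
    exact mul_ne_zero hw0 (g0 a ha) r.symm
  by_cases hcol : ∀ a ∈ T, ∀ b ∈ T, g a * n b = g b * n a
  · left
    rcases T.eq_empty_or_nonempty with rfl | ⟨b, hb⟩
    · simp
    exact hQ.col hV hw (g0 b hb) (cng b hb) (bg' b hb) (bn' b hb) fun a ha => by
      have e1 := hγ a ha
      have e2 := hAB a ha
      simp only [qA, qB, qc] at e1 e2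
      rw [e1, e2]
      linear_combination (s a : ℤ) * hcol a ha b hb
  right
  push Not at hcol
  obtain ⟨a, ha, b, hb, hab⟩ := hcol
  set X := T.image fun a => (g a, n a) with hX
  set b1 := 2 * m / (σ * ρ) with hb1
  set b2 := m ^ 2 / (σ * ρ) with hb2
  have h1 : X.card * p ≤ (2 * (b1 + 2 * b1) + 1) * (2 * (b2 + 2 * b2) + 1) := by
    refine count2 (w : ZMod p) 0 X b1 b2 b1 b2 ?_ (P := (g a, n a)) (Q := (g b, n b))
      ⟨cng a ha, bg a ha, bn a ha⟩ ⟨cng b hb, bg b hb, bn b hb⟩ hab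
    intro P hP
    obtain ⟨c, hc, rfl⟩ := mem_image.1 hP
    exact ⟨sub_eq_zero.2 (cng c hc), bg c hc, bn c hc⟩
  have hb1' : 1 ≤ b1 := by
    have h2 : g a ≠ 0 := fun h0 => g0 a ha (by rw [h0, Int.cast_zero])
    have h3 := (Int.one_le_abs h2).trans (bg a ha)
    exact_mod_cast h3
  have hb2' : 1 ≤ b2 := by
    have h3 := (Int.one_le_abs (n0 a ha)).trans (bn a ha)
    exact_mod_cast h3
  set Y := T.image fun a => qA a / qs a with hY
  have h2 : Y.card ≤ X.card * (2 * Dm (3 * m ^ 4)) := by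
    have h3 : Y ⊆ X.biUnion fun P => Y.filter fun y => y ∣ P.2 := by
      intro y hy
      obtain ⟨c, hc, rfl⟩ := mem_image.1 hy
      exact mem_biUnion.2 ⟨(g c, n c), mem_image_of_mem _ hc,
        mem_filter.2 ⟨hy, (H c hc).2.2.2⟩⟩
    refine (card_le_card h3).trans (card_biUnion_le_card_mul _ _ _ fun P hP => ?_)
    obtain ⟨c, hc, rfl⟩ := mem_image.1 hP
    refine card_le_of_dvd _ (fun y => y) (n c) _ (fun _ _ _ _ h => h) fun y hy => ?_
    refine ⟨(mem_filter.1 hy).2, n0 c hc, (bn' c hc).trans ?_⟩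
    have h4 : m ^ 2 ≤ (m ^ 2) ^ 2 := Nat.le_self_pow (by norm_num) _
    have h5 : m ^ 2 ≤ 3 * m ^ 4 := by nlinarith
    exact_mod_cast h5
  have h3 : b1 * (σ * ρ) ≤ 2 * m := Nat.div_mul_le_self _ _
  have h4 : b2 * (σ * ρ) ≤ m ^ 2 := Nat.div_mul_le_self _ _
  have h7 : X.card * p ≤ (7 * b1) * (7 * b2) :=
    h1.trans (Nat.mul_le_mul (by omega) (by omega))
  set D := Dm (3 * m ^ 4)
  calc Y.card * (σ ^ 2 * ρ ^ 2 * p) ≤ X.card * (2 * D) * (σ ^ 2 * ρ ^ 2 * p) :=
        Nat.mul_le_mul_right _ h2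
    _ = 2 * D * (σ * ρ) ^ 2 * (X.card * p) := by ring
    _ ≤ 2 * D * (σ * ρ) ^ 2 * ((7 * b1) * (7 * b2)) := Nat.mul_le_mul_left _ h7
    _ = 98 * D * ((b1 * (σ * ρ)) * (b2 * (σ * ρ))) := by ring
    _ ≤ 98 * D * ((2 * m) * m ^ 2) := Nat.mul_le_mul_left _ (Nat.mul_le_mul h3 h4)
    _ = _ := by ring

end Pool.Agent.MP_bd74a7_nt.Ic

end

section

open Finset

namespace Pool.Agent.MP_bd74a7_nt.Ic

theorem icClassA_basic {p m : ℕ} [Fact p.Prime] {V : Finset ℤ} (hV : Short p V m)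
    (hp : 2 * m ^ 2 < p) {a : ℤ × ℤ × ℤ × ℤ} (h : Gd p V a) :
    qA a ≠ 0 ∧ (qs a : ℤ) ∣ qA a ∧ qs a ≤ m := by
  obtain ⟨h0, h1, h2, h3, hr, hc⟩ := h
  have hp' : 2 * (m : ℤ) ^ 2 < p := by exact_mod_cast hp
  have hm2 : (m : ℤ) ≤ m ^ 2 := by exact_mod_cast Nat.le_self_pow (by norm_num) m
  have d1 := hV.diam _ h1 _ h0
  have d2 := hV.diam _ h3 _ h2
  have hA : qA a ≠ 0 := by
    intro hA
    apply hc
    apply eq_zero_of_cast (p := p)
    · apply mul_left_cancel₀ (hV.nz _ h0)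
      have e : a.2.1 = a.1 := by
        unfold qA at hA
        omega
      unfold qc
      rw [e] at hr ⊢
      push_cast
      linear_combination hr
    · unfold qc
      rw [abs_le] at d1 d2
      rw [abs_lt]
      constructor <;> linarith [d1.1, d1.2, d2.1, d2.2]
  have hd : qs a ∣ Int.gcd (qA a) (qc a) := Nat.div_dvd_of_dvd (Nat.gcd_dvd_left _ _)
  have hd' : (qs a : ℤ) ∣ qA a := (Int.natCast_dvd_natCast.2 hd).trans (Int.gcd_dvd_left _ _)
  refine ⟨hA, hd', ?_⟩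
  have h5 := Int.le_of_dvd (abs_pos.2 hA) ((dvd_abs _ _).2 hd')
  have h6 : (qs a : ℤ) ≤ m := h5.trans d1
  exact_mod_cast h6

theorem icClassA_arith {x J W : ℕ} (h : x ^ 2 ≤ J * (x + W)) :
    x ≤ 2 * J ∨ x ^ 2 ≤ 2 * J * W := by
  rcases le_or_gt x (2 * J) with h1 | h1
  · exact Or.inl h1
  · right
    nlinarith [Nat.mul_le_mul_right x h1.le]

theorem classA_thm (hT : TripStmt) : ClassAStmt := by
  classical
  intro p _ m N R σ n V Λ T hV hp hΛ hN hσ hTa hn
  have hmp : m < p := by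
    have : m ≤ m ^ 2 := Nat.le_self_pow (by norm_num) m
    omega
  set φ : ℤ × ℤ × ℤ × ℤ → ℤ × ℤ × ℕ := fun a => (a.1, a.2.1, qs a) with hφ
  set X := T.image φ with hX
  have h1 : T.card ≤ R * X.card := by
    refine card_le_mul_card_image T _ fun x hx => ?_
    obtain ⟨b, hb, rfl⟩ := mem_image.1 hx
    refine le_trans ?_ (hTa b hb).2.1
    unfold rr
    refine card_le_card_of_injOn (fun a => (a.2.2.1, a.2.2.2)) ?_ ?_
    · intro a ha
      rw [mem_coe, mem_filter] at ha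
      obtain ⟨ha, e⟩ := ha
      simp only [hφ, Prod.mk.injEq] at e
      obtain ⟨e0, e1, -⟩ := e
      obtain ⟨⟨h0, h1, h2, h3, hr, -⟩, -⟩ := hTa a ha
      rw [mem_coe, mem_filter, mem_product]
      refine ⟨⟨h2, h3⟩, ?_⟩
      rw [← e0, ← e1]
      have h4 := hV.nz _ h0
      apply mul_left_cancel₀ h4
      rw [← mul_assoc, mul_div_cancel₀ _ h4]
      exact hr
    · rintro ⟨a0, a1, a2, a3⟩ ha ⟨c0, c1, c2, c3⟩ hc hac
      rw [mem_coe, mem_filter] at ha hc
      have e := ha.2.trans hc.2.symm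
      simp only [hφ, Prod.mk.injEq] at e hac ⊢
      exact ⟨e.1, e.2.1, hac.1, hac.2⟩
  set ψ : ℤ × ℤ × ℕ → ℤ × ℤ := fun x => (x.1, (x.2.1 - x.1) / x.2.2) with hψ
  set Cl := X.image ψ with hCl
  have h2 : Cl.card ≤ n * V.card := by
    refine card_le_mul_card_image_of_maps_to (f := Prod.fst) ?_ _ fun w _ => ?_
    · intro y hy
      obtain ⟨x, hx, rfl⟩ := mem_image.1 hy
      obtain ⟨b, hb, rfl⟩ := mem_image.1 hx
      exact (hTa b hb).1.1
    · refine le_trans ?_ (hn w)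
      refine card_le_card_of_injOn Prod.snd ?_ ?_
      · intro y hy
        rw [mem_coe, mem_filter] at hy
        obtain ⟨hy, e⟩ := hy
        obtain ⟨x, hx, rfl⟩ := mem_image.1 hy
        obtain ⟨b, hb, rfl⟩ := mem_image.1 hx
        rw [mem_coe, mem_image]
        exact ⟨b, mem_filter.2 ⟨hb, e⟩, rfl⟩
      · intro y hy z hz e
        rw [mem_coe, mem_filter] at hy hz
        exact Prod.ext (hy.2.trans hz.2.symm) e
  have h3 := sq_le_mul_coll X Cl ψ fun x hx => mem_image_of_mem _ hx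
  set C := (X ×ˢ X).filter fun x => ψ x.1 = ψ x.2 with hC
  -- structure of a collision
  have hcol : ∀ x ∈ C, ∃ a ∈ T, ∃ b ∈ T, x = (φ a, φ b) ∧ b.1 = a.1 ∧
      ∃ k : ℤ, k ≠ 0 ∧ a.2.1 - a.1 = qs a * k ∧ b.2.1 - a.1 = qs b * k := by
    rintro ⟨x, y⟩ hxy
    rw [mem_filter, mem_product] at hxy
    obtain ⟨⟨hx, hy⟩, e⟩ := hxy
    obtain ⟨a, ha, rfl⟩ := mem_image.1 hx
    obtain ⟨b, hb, rfl⟩ := mem_image.1 hy
    simp only [hψ, hφ, Prod.mk.injEq] at e
    obtain ⟨e0, e1⟩ := e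
    obtain ⟨a0, a1, -⟩ := icClassA_basic hV hp (hTa a ha).1
    obtain ⟨-, b1, -⟩ := icClassA_basic hV hp (hTa b hb).1
    have a2 := Int.mul_ediv_cancel' a1
    have b2 := Int.mul_ediv_cancel' b1
    unfold qA at a0 a2 b2
    refine ⟨a, ha, b, hb, rfl, e0.symm, (a.2.1 - a.1) / qs a, ?_, a2.symm, ?_⟩
    · intro h0
      rw [h0, mul_zero] at a2
      exact a0 a2.symm
    · rw [e1, e0]
      exact b2.symm
  have h4 : (C.filter fun x => x.1.2.1 = x.2.2.1).card ≤ X.card := by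
    refine card_le_card_of_injOn Prod.fst ?_ ?_
    · intro x hx
      rw [mem_coe, mem_filter, mem_filter, mem_product] at hx
      exact hx.1.1.1
    · have key : ∀ x ∈ C.filter fun x => x.1.2.1 = x.2.2.1, x.2 = x.1 := by
        intro x hx
        rw [mem_filter] at hx
        obtain ⟨a, -, b, -, rfl, e0, k, hk, e1, e2⟩ := hcol x hx.1
        have e3 := hx.2
        simp only [hφ] at e3 ⊢
        have e4 : (qs b : ℤ) = qs a := by
          apply mul_right_cancel₀ hk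
          rw [← e1, ← e2, e3]
        have e5 : qs b = qs a := by exact_mod_cast e4
        rw [e0, e3, e5]
      intro x hx y hy e
      exact Prod.ext e (by rw [key x hx, key y hy, e])
  have h5 : (C.filter fun x => ¬ x.1.2.1 = x.2.2.1).card ≤ σ ^ 2 * N * R := by
    set θ : (ℤ × ℤ × ℕ) × (ℤ × ℤ × ℕ) → ℤ × ℤ × ℤ × ℕ × ℕ :=
      fun x => (x.1.1, x.1.2.1, x.2.2.1, x.1.2.2, x.2.2.2) with hθ
    have hinj : Set.InjOn θ (C.filter fun x => ¬ x.1.2.1 = x.2.2.1 : Finset _) := by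
      intro x hx y hy e
      rw [mem_coe, mem_filter] at hx hy
      obtain ⟨a, -, b, -, rfl, e0, -⟩ := hcol x hx.1
      obtain ⟨c, -, d, -, rfl, f0, -⟩ := hcol y hy.1
      simp only [hθ, hφ, Prod.mk.injEq] at e ⊢
      obtain ⟨g0, g1, g2, g3, g4⟩ := e
      exact ⟨⟨g0, g1, g3⟩, by rw [e0, f0, g0], g2, g4⟩
    rw [← card_image_of_injOn hinj]
    refine hT p m N R σ V Λ _ hV hmp hΛ hN hσ fun y hy => ?_
    obtain ⟨x, hx, rfl⟩ := mem_image.1 hy
    rw [mem_filter] at hx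
    obtain ⟨a, ha, b, hb, rfl, e0, k, hk, e1, e2⟩ := hcol x hx.1
    have e3 := hx.2
    simp only [hθ, hφ] at e3 ⊢
    obtain ⟨⟨a0, a1, -⟩, ar, as1, as2⟩ := hTa a ha
    obtain ⟨⟨-, b1, -⟩, -, bs1, bs2⟩ := hTa b hb
    refine ⟨a0, a1, b1, e3, ar, as1, as2, bs1, bs2, (icClassA_basic hV hp (hTa a ha).1).2.2,
      (icClassA_basic hV hp (hTa b hb).1).2.2, ?_⟩
    rw [e1, e2]
    ring
  have h6 : C.card ≤ X.card + σ ^ 2 * N * R := by
    rw [← card_filter_add_card_filter_not (s := C) fun x => x.1.2.1 = x.2.2.1]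
    exact Nat.add_le_add h4 h5
  have h7 : X.card ^ 2 ≤ (n * V.card) * (X.card + σ ^ 2 * N * R) :=
    h3.trans (Nat.mul_le_mul h2 h6)
  rcases icClassA_arith h7 with h8 | h8
  · left
    calc T.card ≤ R * X.card := h1
      _ ≤ R * (2 * (n * V.card)) := Nat.mul_le_mul_left _ h8
      _ = _ := by ring
  · right
    calc T.card ^ 2 ≤ (R * X.card) ^ 2 := Nat.pow_le_pow_left h1 2
      _ = R ^ 2 * X.card ^ 2 := by ring
      _ ≤ R ^ 2 * (2 * (n * V.card) * (σ ^ 2 * N * R)) := Nat.mul_le_mul_left _ h8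
      _ = _ := by ring

end Pool.Agent.MP_bd74a7_nt.Ic

end

section

/-!
One dyadic level of quadruples.
-/

open Finset

namespace Pool.Agent.MP_bd74a7_nt.Ic

theorem level_thm (hA : ClassAStmt) (hB : ClassBStmt) (hN : NbStmt) : LevelStmt := by
  classical
  intro p _ m N R σ ρ V Λ T hV hp hΛ hHN hσ hρ hT
  set D := Dm (3 * m ^ 4) with hD
  set J := V.card with hJ
  set bad : ℤ → Prop := fun w => (T.filter fun a => a.1 = w).card ≤ 2 * D * J with hbad
  set T1 := T.filter fun a => bad a.1 with hT1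
  set T2 := T.filter fun a => ¬ bad a.1 with hT2
  have h12 : T1.card + T2.card = T.card := card_filter_add_card_filter_not _
  have h1 : T1.card ≤ 2 * D * J * J := by
    refine card_le_mul_card_image_of_maps_to (f := fun a => a.1) (t := V) ?_ _ ?_
    · intro a ha
      exact (hT a (mem_filter.1 ha).1).1.1
    · intro w _
      by_cases hw : bad w
      · refine le_trans (card_le_card ?_) hw
        intro a ha
        simp only [hT1, mem_filter] at ha ⊢
        exact ⟨ha.1.1, ha.2⟩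
      · rw [card_eq_zero.2]
        · exact Nat.zero_le _
        · refine filter_eq_empty_iff.2 fun a ha he => hw ?_
          rw [← he]
          exact (mem_filter.1 ha).2
  set c : ℤ → ℕ := fun w => ((T2.filter fun a => a.1 = w).image fun a => qA a / qs a).card
    with hc
  set n := V.sup c with hn
  have hcw : ∀ w, c w * (σ ^ 2 * ρ ^ 2 * p) ≤ 196 * D * m ^ 3 := by
    intro w
    by_cases hw : bad w
    · have : (T2.filter fun a => a.1 = w) = ∅ := by
        refine filter_eq_empty_iff.2 fun a ha he => (mem_filter.1 ha).2 ?_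
        rw [he]
        exact hw
      simp [hc, this]
    · have he : (T2.filter fun a => a.1 = w) = T.filter fun a => a.1 = w := by
        ext a
        simp only [hT2, mem_filter]
        constructor
        · exact fun h => ⟨h.1.1, h.2⟩
        · exact fun h => ⟨⟨h.1, h.2 ▸ hw⟩, h.2⟩
      rcases hN p m σ ρ V (T.filter fun a => a.1 = w) w hV hp hσ hρ (fun a ha => by
        obtain ⟨h1, h2⟩ := mem_filter.1 ha
        obtain ⟨g1, -, g3, -, g5⟩ := hT a h1
        exact ⟨g1, h2, g3, g5⟩) with h | h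
      · exact absurd h hw
      · simpa only [hc, he] using h
  have hnb : n * (σ ^ 2 * ρ ^ 2 * p) ≤ 196 * D * m ^ 3 := by
    rcases V.eq_empty_or_nonempty with he | hne
    · simp [hn, he]
    · obtain ⟨w, -, hw⟩ := exists_mem_eq_sup V hne c
      rw [hn, hw]
      exact hcw w
  have hcn : ∀ w, c w ≤ n := by
    intro w
    by_cases hw : w ∈ V
    · exact le_sup hw
    · have : (T2.filter fun a => a.1 = w) = ∅ := by
        refine filter_eq_empty_iff.2 fun a ha he => hw ?_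
        rw [← he]
        exact (hT a (mem_filter.1 ha).1).1.1
      simp [hc, this]
  have hT2' : ∀ a ∈ T2, Gd p V a ∧ rr p V ((a.2.1 : ZMod p) / a.1) ≤ R ∧ σ ≤ qs a ∧
      qs a < 2 * σ := fun a ha => by
    obtain ⟨g1, g2, g3, g4, -⟩ := hT a (mem_filter.1 ha).1
    exact ⟨g1, g2, g3, g4⟩
  by_cases h8 : T.card ≤ 8 * D * J ^ 2
  · exact Or.inl h8
  right
  have h2 : T.card ≤ 2 * T2.card := by nlinarith
  have ha := hA p m N R σ n V Λ T2 hV hp hΛ hHN hσ hT2' hcn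
  have hb := hB p m N R σ V Λ T2 hV hp hΛ hHN hσ hT2'
  rw [← hD, ← hJ] at hb
  rw [← hJ] at ha
  generalize T2.card = Q at *
  generalize T.card = Q0 at *
  rcases hb with hb | hb
  · exfalso
    nlinarith
  rcases ha with ha | ha
  · right
    have h3 : Q ^ 3 ≤ (2 * J * n * R) * (4 * D * J ^ 2 * σ ^ 2 * N * R ^ 2) := by
      rw [pow_succ', ]
      exact Nat.mul_le_mul ha hb
    calc Q0 ^ 3 * (ρ ^ 2 * p) ≤ (2 * Q) ^ 3 * (ρ ^ 2 * p) := by gcongr
      _ = 8 * Q ^ 3 * (ρ ^ 2 * p) := by ring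
      _ ≤ 8 * ((2 * J * n * R) * (4 * D * J ^ 2 * σ ^ 2 * N * R ^ 2)) * (ρ ^ 2 * p) := by gcongr
      _ = 64 * D * J ^ 3 * N * R ^ 3 * (n * (σ ^ 2 * ρ ^ 2 * p)) := by ring
      _ ≤ 64 * D * J ^ 3 * N * R ^ 3 * (196 * D * m ^ 3) := by gcongr
      _ = 12544 * (D ^ 2 * J ^ 3 * N * R ^ 3 * m ^ 3) := by ring
      _ ≤ 20000 * (D ^ 2 * J ^ 3 * N * R ^ 3 * m ^ 3) := by gcongr; norm_num
      _ = _ := by ring
  · left
    calc Q0 ^ 2 * (ρ ^ 2 * p) ≤ (2 * Q) ^ 2 * (ρ ^ 2 * p) := by gcongr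
      _ = 4 * Q ^ 2 * (ρ ^ 2 * p) := by ring
      _ ≤ 4 * (2 * J * n * σ ^ 2 * N * R ^ 3) * (ρ ^ 2 * p) := by gcongr
      _ = 8 * J * N * R ^ 3 * (n * (σ ^ 2 * ρ ^ 2 * p)) := by ring
      _ ≤ 8 * J * N * R ^ 3 * (196 * D * m ^ 3) := by gcongr
      _ = 1568 * (D * J * N * R ^ 3 * m ^ 3) := by ring
      _ ≤ 2000 * (D * J * N * R ^ 3 * m ^ 3) := by gcongr; norm_num
      _ = _ := by ring

end Pool.Agent.MP_bd74a7_nt.Ic

end

section

/-!
Centres `z = p k / d` and the integer grids `a b = d u - p k` attached to them.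
-/

open Finset

namespace Pool.Agent.MP_bd74a7_nt.Ce

/-- A family of factorisations `a b = d u - p k` with `u` in `V`, for centres `z = (d, k)`. -/
structure Edges (p m : ℕ) (V : Finset ℤ) {ι : Type*} (E : Finset ι) (z : ι → ℤ × ℤ)
    (a b u : ι → ℤ) : Prop where
  d1 : ∀ e ∈ E, 1 ≤ (z e).1
  d2 : ∀ e ∈ E, (z e).1 < p
  cop : ∀ e ∈ E, IsCoprime (z e).1 (z e).2
  ha : ∀ e ∈ E, |a e| ≤ m
  hb : ∀ e ∈ E, |b e| ≤ m
  hu : ∀ e ∈ E, u e ∈ V
  rel : ∀ e ∈ E, a e * b e = (z e).1 * u e - p * (z e).2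
  inj : ∀ e ∈ E, ∀ f ∈ E, z e = z f → a e = a f → b e = b f → e = f

variable {p m : ℕ} {V : Finset ℤ} {ι : Type*} {E : Finset ι} {z : ι → ℤ × ℤ} {a b u : ι → ℤ}

theorem Edges.swap (h : Edges p m V E z a b u) : Edges p m V E z b a u :=
  ⟨h.d1, h.d2, h.cop, h.hb, h.ha, h.hu, fun e he => by rw [mul_comm, h.rel e he],
    fun e he f hf h1 h2 h3 => h.inj e he f hf h1 h3 h2⟩

theorem Edges.mono (h : Edges p m V E z a b u) {F : Finset ι} (hF : F ⊆ E) :
    Edges p m V F z a b u :=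
  ⟨fun e he => h.d1 e (hF he), fun e he => h.d2 e (hF he), fun e he => h.cop e (hF he),
    fun e he => h.ha e (hF he), fun e he => h.hb e (hF he), fun e he => h.hu e (hF he),
    fun e he => h.rel e (hF he), fun e he f hf => h.inj e (hF he) f (hF hf)⟩

theorem Edges.relp (h : Edges p m V E z a b u) {e : ι} (he : e ∈ E) :
    (a e : ZMod p) * b e = (z e).1 * u e := by
  have := congrArg (Int.cast : ℤ → ZMod p) (h.rel e he)
  push_cast at this
  rw [this, ZMod.natCast_self, zero_mul, sub_zero]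

theorem Edges.dnz (h : Edges p m V E z a b u) {e : ι} (he : e ∈ E) :
    (((z e).1 : ℤ) : ZMod p) ≠ 0 := by
  intro h0
  have h1 := h.d1 e he
  have h2 := h.d2 e he
  have := eq_zero_of_cast h0 (by rw [abs_lt]; omega)
  omega

theorem Edges.bnz [Fact p.Prime] (h : Edges p m V E z a b u) (hV : Short p V m) {e : ι}
    (he : e ∈ E) : (b e : ZMod p) ≠ 0 := by
  intro h0
  have h1 := h.relp he
  rw [h0, mul_zero] at h1
  exact mul_ne_zero (h.dnz he) (hV.nz _ (h.hu e he)) h1.symm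

theorem Edges.b0 [Fact p.Prime] (h : Edges p m V E z a b u) (hV : Short p V m) {e : ι}
    (he : e ∈ E) : b e ≠ 0 := by
  intro h0
  exact h.bnz hV he (by rw [h0, Int.cast_zero])

theorem Edges.copab [Fact p.Prime] (h : Edges p m V E z a b u) {e : ι} (he : e ∈ E) :
    IsCoprime (z e).1 (a e * b e) := by
  have h1 : IsCoprime (z e).1 (p : ℤ) := by
    have hp : Prime (p : ℤ) := Nat.prime_iff_prime_int.1 Fact.out
    refine (hp.irreducible.coprime_iff_not_dvd.2 fun hd => ?_).symm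
    exact h.dnz he ((ZMod.intCast_zmod_eq_zero_iff_dvd _ p).2 hd)
  have h2 := (h1.mul_right (h.cop e he)).neg_right
  rw [h.rel e he, sub_eq_neg_add]
  exact h2.add_mul_left_right _

/-- Two elements of a row differ by a multiple of the step. -/
theorem Edges.row [Fact p.Prime] (h : Edges p m V E z a b u) (hV : Short p V m) {e f : ι}
    (he : e ∈ E) (hf : f ∈ E) (hz : z f = z e) (hb : b f = b e) :
    ∃ i : ℤ, u f - u e = i * b e ∧ a f - a e = (z e).1 * i := by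
  have h1 := h.rel e he
  have h2 := h.rel f hf
  rw [hz, hb] at h2
  have h3 : (z e).1 * (u f - u e) = b e * (a f - a e) := by linear_combination h1 - h2
  have h4 : IsCoprime (b e) (z e).1 := (h.copab he).of_mul_right_right.symm
  obtain ⟨i, hi⟩ : b e ∣ u f - u e := h4.dvd_of_dvd_mul_left ⟨_, h3⟩
  refine ⟨i, by rw [hi, mul_comm], mul_left_cancel₀ (h.b0 hV he) ?_⟩
  rw [← h3, hi]
  ring

theorem Edges.row_eq [Fact p.Prime] (h : Edges p m V E z a b u) (hV : Short p V m) {e f : ι}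
    (he : e ∈ E) (hf : f ∈ E) (hz : z f = z e) (hb : b f = b e) (hu : u f = u e) : f = e := by
  obtain ⟨i, h1, h2⟩ := h.row hV he hf hz hb
  rw [hu, sub_self] at h1
  have h3 : i = 0 := (mul_eq_zero.1 h1.symm).resolve_right (h.b0 hV he)
  rw [h3, mul_zero, sub_eq_zero] at h2
  exact h.inj f hf e he hz h2 hb

theorem small_det {x y s t : ℤ} (hp : 2 * m ^ 2 < p) (hx : |x| ≤ m) (hy : |y| ≤ m) (hs : |s| ≤ m)
    (ht : |t| ≤ m) (h : (x : ZMod p) * y = s * t) : x * y = s * t := by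
  have h1 : ((x * y - s * t : ℤ) : ZMod p) = 0 := by
    push_cast
    rw [h, sub_self]
  have h2 : |x * y| ≤ (m : ℤ) * m := by
    rw [abs_mul]
    exact mul_le_mul hx hy (abs_nonneg _) (by positivity)
  have h3 : |s * t| ≤ (m : ℤ) * m := by
    rw [abs_mul]
    exact mul_le_mul hs ht (abs_nonneg _) (by positivity)
  have h4 : 2 * (m : ℤ) ^ 2 < p := by exact_mod_cast hp
  have h5 := eq_zero_of_cast h1 (((abs_sub _ _).trans (add_le_add h2 h3)).trans_lt (by linarith))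
  omega

theorem centre_eq {d k d' k' : ℤ} (h1 : 1 ≤ d) (h2 : 1 ≤ d') (c1 : IsCoprime d k)
    (c2 : IsCoprime d' k') (h : d * k' = d' * k) : d = d' ∧ k = k' := by
  have h3 : d ∣ d' := c1.dvd_of_dvd_mul_right ⟨_, h.symm⟩
  have h4 : d' ∣ d := c2.dvd_of_dvd_mul_right ⟨_, h⟩
  have h5 : d = d' := Int.dvd_antisymm (by omega) (by omega) h3 h4
  subst h5
  exact ⟨rfl, (mul_left_cancel₀ (by omega) h).symm⟩

/-- Two row pairs with the same ratio have the same centre and parallel coordinates. -/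
theorem Edges.uniq [Fact p.Prime] (h : Edges p m V E z a b u) (hV : Short p V m)
    (hp : 2 * m ^ 2 < p) {e f e' f' : ι} (he : e ∈ E) (hf : f ∈ E) (he' : e' ∈ E) (hf' : f' ∈ E)
    (hz : z f = z e) (hb : b f = b e) (hz' : z f' = z e') (hb' : b f' = b e') (hne : u f ≠ u e)
    (hr : (u f : ZMod p) * u e' = u f' * u e) : z e' = z e ∧ a f * a e' = a e * a f' := by
  have r1 := h.relp he
  have r2 := h.relp hf
  have r3 := h.relp he'
  have r4 := h.relp hf'
  rw [hz, hb] at r2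
  rw [hz', hb'] at r4
  have n1 := hV.nz _ (h.hu e he)
  have n4 := hV.nz _ (h.hu f' hf')
  have s1 : (a f : ZMod p) * u e = a e * u f := by
    apply mul_left_cancel₀ (h.bnz hV he)
    linear_combination (u e : ZMod p) * r2 - (u f : ZMod p) * r1
  have s2 : (a f' : ZMod p) * u e' = a e' * u f' := by
    apply mul_left_cancel₀ (h.bnz hV he')
    linear_combination (u e' : ZMod p) * r4 - (u f' : ZMod p) * r3
  have s3 : (a f : ZMod p) * a e' = a e * a f' := by
    apply mul_left_cancel₀ (mul_ne_zero n1 n4)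
    linear_combination (a e' * u f' : ZMod p) * s1 - (a e * u f : ZMod p) * s2 +
      (a e * a f' : ZMod p) * hr
  have t3 := small_det hp (h.ha f hf) (h.ha e' he') (h.ha e he) (h.ha f' hf') s3
  have s4 : (a f : ZMod p) * ((u e' - u e : ℤ) : ZMod p) = a e * ((u f' - u f : ℤ) : ZMod p) := by
    apply mul_left_cancel₀ n1
    push_cast
    linear_combination (u e' - u e : ZMod p) * s1 + (a e : ZMod p) * hr
  have t4 := small_det hp (h.ha f hf) (hV.diam _ (h.hu e' he') _ (h.hu e he)) (h.ha e he)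
    (hV.diam _ (h.hu f' hf') _ (h.hu f hf)) s4
  refine ⟨?_, t3⟩
  have q1 := h.rel e he
  have q2 := h.rel f hf
  have q3 := h.rel e' he'
  have q4 := h.rel f' hf'
  rw [hz, hb] at q2
  rw [hz', hb'] at q4
  have k1 : (z e).1 * (a f * u e - a e * u f) = p * (z e).2 * (a f - a e) := by
    linear_combination a e * q2 - a f * q1
  have k2 : (z e').1 * (a f * u e - a e * u f) = p * (z e').2 * (a f - a e) := by
    apply mul_left_cancel₀ (h.swap.b0 hV he')
    linear_combination a e * (a e' * q4 - a f' * q3) - (a e' * (z e').1) * t4 +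
      ((z e').1 * u e' - p * (z e').2) * t3
  have n5 : a f - a e ≠ 0 := by
    intro h0
    exact hne (congrArg u (h.inj f hf e he hz (sub_eq_zero.1 h0) hb))
  have n6 : (p : ℤ) ≠ 0 := by exact_mod_cast (Fact.out : p.Prime).ne_zero
  have k3 : (z e').1 * (z e).2 = (z e).1 * (z e').2 := by
    apply mul_left_cancel₀ (mul_ne_zero n6 n5)
    linear_combination (z e).1 * k2 - (z e').1 * k1
  obtain ⟨k4, k5⟩ := centre_eq (h.d1 e' he') (h.d1 e he) (h.cop e' he') (h.cop e he) k3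
  exact Prod.ext k4 k5

theorem le_three {x : ℤ} (h : |x| ≤ (m : ℤ) * m) : |x| ≤ ((3 * m ^ 4 : ℕ) : ℤ) := by
  have h4 : m ^ 2 ≤ (m ^ 2) ^ 2 := Nat.le_self_pow (by norm_num) _
  have h5 : m * m ≤ 3 * m ^ 4 := by nlinarith
  exact h.trans (by exact_mod_cast h5)

theorem le_three' {x : ℤ} (h : |x| ≤ (m : ℤ)) : |x| ≤ ((3 * m ^ 4 : ℕ) : ℤ) := by
  refine le_three (h.trans ?_)
  have : m ≤ m * m := Nat.le_mul_self m
  exact_mod_cast this

open Classical in
/-- Ordered pairs in rows. -/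
theorem Edges.pairs [Fact p.Prime] (h : Edges p m V E z a b u) (hV : Short p V m)
    (hp : 2 * m ^ 2 < p) :
    ((E ×ˢ E).filter fun x => z x.2 = z x.1 ∧ b x.2 = b x.1).card ≤
      2 * Dm (3 * m ^ 4) * V.card ^ 2 + E.card := by
  set S := (E ×ˢ E).filter fun x => z x.2 = z x.1 ∧ b x.2 = b x.1 with hS
  have h0 := card_filter_add_card_filter_not (s := S) fun x => u x.2 = u x.1
  have h1 : (S.filter fun x => u x.2 = u x.1).card ≤ E.card := by
    refine card_le_card_of_injOn (fun x => x.1) ?_ ?_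
    · intro x hx
      simp only [hS, coe_filter, mem_filter, mem_product, Set.mem_ofPred_eq] at hx
      exact hx.1.1.1
    · rintro ⟨e, f⟩ hx ⟨e', f'⟩ hy he
      simp only [hS, coe_filter, mem_filter, mem_product, Set.mem_ofPred_eq] at hx hy he
      subst he
      rw [h.row_eq hV hx.1.1.1 hx.1.1.2 hx.1.2.1 hx.1.2.2 hx.2,
        h.row_eq hV hy.1.1.1 hy.1.1.2 hy.1.2.1 hy.1.2.2 hy.2]
  have h2 : (S.filter fun x => ¬ u x.2 = u x.1).card ≤ 2 * Dm (3 * m ^ 4) * (V ×ˢ V).card := by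
    refine card_le_mul_card_image_of_maps_to (f := fun x => (u x.1, u x.2)) ?_ _ ?_
    · intro x hx
      simp only [hS, mem_filter, mem_product] at hx ⊢
      exact ⟨h.hu _ hx.1.1.1, h.hu _ hx.1.1.2⟩
    · rintro ⟨v, w⟩ hvw
      refine card_le_of_dvd _ (fun x => b x.1) (w - v) _ ?_ ?_
      · rintro ⟨e, f⟩ hx ⟨e', f'⟩ hy hb
        simp only [hS, mem_filter, mem_product, Prod.mk.injEq] at hx hy hb
        obtain ⟨⟨⟨⟨x1, x2⟩, x3, x4⟩, x5⟩, x6, x7⟩ := hx
        obtain ⟨⟨⟨⟨y1, y2⟩, y3, y4⟩, y5⟩, y6, y7⟩ := hy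
        have h3 := (h.uniq hV hp x1 x2 y1 y2 x3 x4 y3 y4 x5 (by rw [x6, x7, y6, y7])).1
        have h4 : e' = e := h.row_eq hV x1 y1 h3 hb.symm (by rw [x6, y6])
        subst h4
        rw [h.row_eq hV x2 y2 (by rw [x3, y3]) (by rw [x4, y4]) (by rw [x7, y7])]
      · rintro ⟨e, f⟩ hx
        simp only [hS, mem_filter, mem_product, Prod.mk.injEq] at hx
        obtain ⟨⟨⟨⟨x1, x2⟩, x3, x4⟩, x5⟩, x6, x7⟩ := hx
        obtain ⟨i, hi, -⟩ := h.row hV x1 x2 x3 x4
        rw [← x6, ← x7]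
        exact ⟨⟨i, by rw [hi, mul_comm]⟩, sub_ne_zero.2 x5,
          le_three' (hV.diam _ (h.hu f x2) _ (h.hu e x1))⟩
  rw [card_product, ← sq] at h2
  omega

open Classical in
theorem Edges.card_le [Fact p.Prime] (h : Edges p m V E z a b u) (hV : Short p V m) :
    E.card ≤ 2 * Dm (3 * m ^ 4) * ((E.image z).card * V.card) := by
  rw [← card_product]
  refine card_le_mul_card_image_of_maps_to (f := fun e => (z e, u e)) ?_ _ ?_
  · intro e he
    exact mem_product.2 ⟨mem_image_of_mem _ he, h.hu e he⟩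
  · rintro ⟨c, v⟩ hc
    rcases (E.filter fun e => (z e, u e) = (c, v)).eq_empty_or_nonempty with h0 | ⟨e0, he0⟩
    · rw [h0]
      simp
    simp only [mem_filter, Prod.mk.injEq] at he0
    refine card_le_of_dvd _ b (a e0 * b e0) _ ?_ ?_
    · intro e he f hf hb
      simp only [mem_filter, Prod.mk.injEq] at he hf
      exact h.row_eq hV hf.1 he.1 (by rw [he.2.1, hf.2.1]) hb (by rw [he.2.2, hf.2.2])
    · intro e he
      simp only [mem_filter, Prod.mk.injEq] at he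
      refine ⟨⟨a e, ?_⟩, mul_ne_zero (h.swap.b0 hV he0.1) (h.b0 hV he0.1), le_three ?_⟩
      · rw [h.rel e0 he0.1, mul_comm (b e), h.rel e he.1, he.2.1, he.2.2, he0.2.1, he0.2.2]
      · rw [abs_mul]
        exact mul_le_mul (h.ha e0 he0.1) (h.hb e0 he0.1) (abs_nonneg _) (by positivity)

/-- The steps inside rows are bounded by `σ`. -/
def Span (E : Finset ι) (z : ι → ℤ × ℤ) (b u : ι → ℤ) (σ : ℕ) : Prop :=
  ∀ e ∈ E, ∀ f ∈ E, z f = z e → b f = b e → ∀ i : ℤ, u f - u e = i * b e → |i| ≤ σ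

theorem Span.mono {σ : ℕ} (h : Span E z b u σ) {F : Finset ι} (hF : F ⊆ E) : Span F z b u σ :=
  fun e he f hf => h e (hF he) f (hF hf)

open Classical in
theorem Edges.deg_le [Fact p.Prime] (h : Edges p m V E z a b u) (hV : Short p V m) {σ : ℕ}
    (hσ : Span E z b u σ) (c : ℤ × ℤ) (s : ℤ) :
    (E.filter fun f => z f = c ∧ b f = s).card ≤ 2 * σ + 1 := by
  rcases (E.filter fun f => z f = c ∧ b f = s).eq_empty_or_nonempty with h0 | ⟨e, he0⟩
  · rw [h0]
    simp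
  obtain ⟨he, rfl, rfl⟩ := mem_filter.1 he0
  have h1 : (Icc (-(σ : ℤ)) σ).card = 2 * σ + 1 := by
    rw [Int.card_Icc]
    omega
  rw [← h1]
  refine card_le_card_of_injOn (fun f => (u f - u e) / b e) ?_ ?_
  · intro f hf
    simp only [coe_filter, Set.mem_ofPred_eq] at hf
    obtain ⟨i, hi, -⟩ := h.row hV he hf.1 hf.2.1 hf.2.2
    have := abs_le.1 (hσ e he f hf.1 hf.2.1 hf.2.2 i hi)
    simp only [hi, Int.mul_ediv_cancel _ (h.b0 hV he), coe_Icc, Set.mem_Icc]
    exact this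
  · intro f hf g hg hfg
    simp only [coe_filter, Set.mem_ofPred_eq] at hf hg hfg
    obtain ⟨i, hi, -⟩ := h.row hV he hf.1 hf.2.1 hf.2.2
    obtain ⟨j, hj, -⟩ := h.row hV he hg.1 hg.2.1 hg.2.2
    rw [hi, hj, Int.mul_ediv_cancel _ (h.b0 hV he), Int.mul_ediv_cancel _ (h.b0 hV he)] at hfg
    exact h.row_eq hV hg.1 hf.1 (by rw [hf.2.1, hg.2.1]) (by rw [hf.2.2, hg.2.2])
      (by rw [hfg] at hi; omega)

/-- The number of centres. -/
theorem centres [Fact p.Prime] (hV : Short p V m) (C : Finset (ℤ × ℤ)) (Δ Ω : ℕ)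
    (hC : ∀ c ∈ C, 1 ≤ c.1 ∧ c.1 ≤ Δ ∧ IsCoprime c.1 c.2 ∧ ∃ v ∈ V, |c.1 * v - p * c.2| ≤ Ω)
    (hΩ : 1 ≤ Ω) : C.card ≤ 1 ∨ C.card * p ≤ 49 * (Δ * (Ω + Δ * m)) := by
  classical
  by_cases h1 : C.card ≤ 1
  · exact Or.inl h1
  right
  obtain ⟨c, hc, c', hc', hcc⟩ := one_lt_card.1 (not_le.1 h1)
  obtain ⟨c1, c2, c3, w, hw, -⟩ := hC c hc
  have n6 : (p : ℤ) ≠ 0 := by exact_mod_cast (Fact.out : p.Prime).ne_zero
  have key : ∀ x ∈ C, ((x.1 * w - p * x.2 : ℤ) : ZMod p) = (w : ZMod p) * x.1 ∧ |x.1| ≤ Δ ∧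
      |x.1 * w - p * x.2| ≤ ((Ω + Δ * m : ℕ) : ℤ) := by
    intro x hx
    obtain ⟨x1, x2, -, v, hv, x4⟩ := hC x hx
    refine ⟨by push_cast; rw [ZMod.natCast_self]; ring, by rw [abs_le]; omega, ?_⟩
    have e1 : x.1 * w - p * x.2 = (x.1 * v - p * x.2) + x.1 * (w - v) := by ring
    have e2 : |x.1 * (w - v)| ≤ (Δ : ℤ) * m := by
      rw [abs_mul]
      exact mul_le_mul (by rw [abs_le]; omega) (hV.diam _ hw _ hv) (abs_nonneg _) (by positivity)
    rw [e1]
    push_cast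
    exact (abs_add_le _ _).trans (add_le_add x4 e2)
  have h2 : (C.image fun x => (x.1, x.1 * w - p * x.2)).card = C.card := by
    refine card_image_of_injOn ?_
    rintro ⟨x1, x2⟩ - ⟨y1, y2⟩ - hxy
    simp only [Prod.mk.injEq] at hxy ⊢
    obtain ⟨rfl, h3⟩ := hxy
    exact ⟨rfl, mul_left_cancel₀ n6 (by linear_combination -h3)⟩
  have h3 := count2 (w : ZMod p) 0 (C.image fun x => (x.1, x.1 * w - p * x.2)) Δ (Ω + Δ * m) Δ
    (Ω + Δ * m) (P := (c.1, c.1 * w - p * c.2)) (Q := (c'.1, c'.1 * w - p * c'.2)) (by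
      intro P hP
      obtain ⟨x, hx, rfl⟩ := mem_image.1 hP
      exact ⟨sub_eq_zero.2 (key x hx).1, (key x hx).2⟩) (key c hc) (key c' hc') (by
      intro h4
      obtain ⟨c1', -, c3', -⟩ := hC c' hc'
      have h5 : c.1 * c'.2 = c'.1 * c.2 := mul_left_cancel₀ n6 (by
        simp only at h4
        linear_combination -h4)
      obtain ⟨k4, k5⟩ := centre_eq c1 c1' c3 c3' h5
      exact hcc (Prod.ext k4 k5))
  rw [h2] at h3
  have h4 : 1 ≤ Δ := by omega
  calc C.card * p ≤ _ := h3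
    _ ≤ (7 * Δ) * (7 * (Ω + Δ * m)) := Nat.mul_le_mul (by omega) (by omega)
    _ = _ := by ring

end Pool.Agent.MP_bd74a7_nt.Ce

end
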