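import Mathlib
import Pool.Agent.Mg.Fbd74a7ap.Gf653fe

set_option linter.all false

section

open Finset

namespace Pool.Agent.MP_bd74a7_nt.Ic

namespace IcFlat

variable {K : Type} [Field K]

/-- Restriction to the family of tangent lines along a line of the surface. -/
noncomputable def phi (x0 y0 z0 : K) (a b : Polynomial K) :
    MvPolynomial (Fin 3) K →ₐ[K] Polynomial (Polynomial K) :=
  MvPolynomial.aeval
    ![Polynomial.C (Polynomial.C x0 + Polynomial.C y0 * Polynomial.X) -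
        Polynomial.C a * Polynomial.X,
      Polynomial.C (Polynomial.C z0) + Polynomial.C b * Polynomial.X,
      Polynomial.C Polynomial.X]

theorem phi_C (x0 y0 z0 : K) (a b : Polynomial K) (c : K) :
    phi x0 y0 z0 a b (MvPolynomial.C c) = Polynomial.C (Polynomial.C c) := by
  simp [phi, Polynomial.algebraMap_apply]

theorem phi_X0 (x0 y0 z0 : K) (a b : Polynomial K) :
    phi x0 y0 z0 a b (MvPolynomial.X 0) =
      Polynomial.C (Polynomial.C x0 + Polynomial.C y0 * Polynomial.X) -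
        Polynomial.C a * Polynomial.X := by
  simp only [phi, MvPolynomial.aeval_X, Matrix.cons_val_zero]

theorem phi_X1 (x0 y0 z0 : K) (a b : Polynomial K) :
    phi x0 y0 z0 a b (MvPolynomial.X 1) =
      Polynomial.C (Polynomial.C z0) + Polynomial.C b * Polynomial.X := by
  simp only [phi, MvPolynomial.aeval_X, Matrix.cons_val_one, Matrix.cons_val_zero]

theorem phi_X2 (x0 y0 z0 : K) (a b : Polynomial K) :
    phi x0 y0 z0 a b (MvPolynomial.X 2) = Polynomial.C Polynomial.X := by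
  simp [phi]

theorem evL_C (l : K × K × K) (c : K) : evL l (MvPolynomial.C c) = Polynomial.C c := by
  simp [evL]

theorem evL_X0 (l : K × K × K) :
    evL l (MvPolynomial.X 0) = Polynomial.C l.1 + Polynomial.C l.2.1 * Polynomial.X := by
  simp only [evL, MvPolynomial.aeval_X, Matrix.cons_val_zero]

theorem evL_X1 (l : K × K × K) : evL l (MvPolynomial.X 1) = Polynomial.C l.2.2 := by
  simp only [evL, MvPolynomial.aeval_X, Matrix.cons_val_one, Matrix.cons_val_zero]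

theorem evL_X2 (l : K × K × K) : evL l (MvPolynomial.X 2) = Polynomial.X := by
  simp [evL]

theorem eval_phi (x0 y0 z0 : K) (a b : Polynomial K) (F : MvPolynomial (Fin 3) K) :
    Polynomial.eval 0 (phi x0 y0 z0 a b F) = evL (x0, y0, z0) F := by
  induction F using MvPolynomial.induction_on with
  | C c => rw [phi_C, evL_C, Polynomial.eval_C]
  | add p q hp hq => rw [map_add, map_add, Polynomial.eval_add, hp, hq]
  | mul_X p i hp =>
    rw [map_mul, map_mul, Polynomial.eval_mul, hp]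
    fin_cases i
    · simp only [Fin.zero_eta, phi_X0, evL_X0]; simp
    · simp only [Fin.mk_one, phi_X1, evL_X1]; simp
    · simp only [Fin.reduceFinMk, phi_X2, evL_X2]; simp

theorem der_phi (x0 y0 z0 : K) (a b : Polynomial K) (F : MvPolynomial (Fin 3) K) :
    Polynomial.derivative (phi x0 y0 z0 a b F) =
      - Polynomial.C a * phi x0 y0 z0 a b (MvPolynomial.pderiv 0 F) +
        Polynomial.C b * phi x0 y0 z0 a b (MvPolynomial.pderiv 1 F) := by
  induction F using MvPolynomial.induction_on with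
  | C c => rw [phi_C]; simp
  | add p q hp hq => simp only [map_add, hp, hq]; ring
  | mul_X p i hp =>
    rw [map_mul, Polynomial.derivative_mul, hp, Derivation.leibniz, Derivation.leibniz]
    simp only [smul_eq_mul, map_add, map_mul]
    fin_cases i
    · simp only [Fin.zero_eta, phi_X0, MvPolynomial.pderiv_X_self, map_one]
      rw [MvPolynomial.pderiv_X_of_ne (by decide)]
      simp
      ring
    · simp only [Fin.mk_one, phi_X1, MvPolynomial.pderiv_X_self, map_one]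
      rw [MvPolynomial.pderiv_X_of_ne (by decide)]
      simp
      ring
    · simp only [Fin.reduceFinMk, phi_X2]
      rw [MvPolynomial.pderiv_X_of_ne (by decide), MvPolynomial.pderiv_X_of_ne (by decide)]
      simp
      ring

theorem pd_comm (F : MvPolynomial (Fin 3) K) :
    MvPolynomial.pderiv 1 (MvPolynomial.pderiv 0 F) =
      MvPolynomial.pderiv 0 (MvPolynomial.pderiv 1 F) := by
  induction F using MvPolynomial.induction_on with
  | C c => simp
  | add p q hp hq => simp only [map_add, hp, hq]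
  | mul_X p i hp =>
    simp only [Derivation.leibniz, smul_eq_mul, map_add, hp]
    fin_cases i
    · simp only [Fin.zero_eta, MvPolynomial.pderiv_X_self]
      rw [MvPolynomial.pderiv_X_of_ne (by decide)]
      simp
      ring
    · simp only [Fin.mk_one, MvPolynomial.pderiv_X_self]
      rw [MvPolynomial.pderiv_X_of_ne (by decide)]
      simp
      ring
    · simp only [Fin.reduceFinMk]
      rw [MvPolynomial.pderiv_X_of_ne (by decide), MvPolynomial.pderiv_X_of_ne (by decide)]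
      simp

theorem deg_phi (x0 y0 z0 : K) (a b : Polynomial K) (F : MvPolynomial (Fin 3) K) :
    (phi x0 y0 z0 a b F).natDegree ≤ F.totalDegree := by
  have h := MvPolynomial.aeval_natDegree_le (m := F.totalDegree) (n := 1)
    (MvPolynomial.map (algebraMap K (Polynomial K)) F)
    (by
      refine Finset.sup_mono ?_
      exact MvPolynomial.support_map_subset _ _)
    ![Polynomial.C (Polynomial.C x0 + Polynomial.C y0 * Polynomial.X) -
        Polynomial.C a * Polynomial.X,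
      Polynomial.C (Polynomial.C z0) + Polynomial.C b * Polynomial.X,
      Polynomial.C Polynomial.X]
    (by
      intro i
      fin_cases i
      · simp only [Fin.zero_eta, Matrix.cons_val_zero]
        compute_degree
      · simp only [Fin.mk_one, Matrix.cons_val_one, Matrix.cons_val_zero]
        compute_degree
      · simp)
  rw [MvPolynomial.aeval_map_algebraMap, mul_one] at h
  exact h

theorem order_zero {A : Type} [CommRing A] [IsDomain A] (r B G S : Polynomial A)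
    (h0 : r.eval 0 = 0) (h1 : (Polynomial.derivative r).eval 0 = 0) (hB : B.eval 0 ≠ 0)
    (hc : ∀ j : ℕ, 1 ≤ j → j ≤ r.natDegree → (j : A) ≠ 0)
    (h : B ^ 2 * Polynomial.derivative (Polynomial.derivative r) =
      r * G - Polynomial.derivative r * S) : r = 0 := by
  by_contra hr
  obtain ⟨r1, hr1, hnd⟩ := Polynomial.exists_eq_pow_rootMultiplicity_mul_and_not_dvd r hr 0
  generalize Polynomial.rootMultiplicity 0 r = n at hr1
  rw [Polynomial.C_0, sub_zero] at hr1 hnd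
  have h10 : r1.eval 0 ≠ 0 := by
    intro h
    apply hnd
    rw [Polynomial.X_dvd_iff, Polynomial.coeff_zero_eq_eval_zero]
    exact h
  have hdeg : n ≤ r.natDegree := by
    have := Polynomial.natDegree_le_of_dvd (⟨r1, hr1⟩ : Polynomial.X ^ n ∣ r) hr
    simpa using this
  rcases n with _ | _ | n
  · rw [hr1] at h0
    simp [h10] at h0
  · rw [hr1] at h1
    simp [h10] at h1
  · have d1 : Polynomial.derivative r = Polynomial.X ^ (n + 1) *
        (((n + 2 : ℕ) : Polynomial A) * r1 + Polynomial.X * Polynomial.derivative r1) := by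
      rw [hr1, Polynomial.derivative_mul, Polynomial.derivative_X_pow]
      simp only [Nat.add_sub_cancel, map_natCast]
      push_cast
      ring
    set r2 := ((n + 2 : ℕ) : Polynomial A) * r1 + Polynomial.X * Polynomial.derivative r1
      with hr2
    have d2 : Polynomial.derivative (Polynomial.derivative r) = Polynomial.X ^ n *
        (((n + 1 : ℕ) : Polynomial A) * r2 + Polynomial.X * Polynomial.derivative r2) := by
      rw [d1, Polynomial.derivative_mul, Polynomial.derivative_X_pow]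
      simp only [Nat.add_sub_cancel, map_natCast]
      push_cast
      ring
    have e : (Polynomial.X : Polynomial A) ^ n *
        (B ^ 2 * (((n + 1 : ℕ) : Polynomial A) * r2 + Polynomial.X * Polynomial.derivative r2) -
          Polynomial.X * (Polynomial.X * r1 * G - r2 * S)) = 0 := by
      rw [d2, d1] at h
      rw [hr1] at h
      linear_combination h
    have e2 := (mul_eq_zero.1 e).resolve_left (pow_ne_zero _ Polynomial.X_ne_zero)
    have e3 := congrArg (Polynomial.eval 0) e2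
    rw [hr2] at e3
    simp only [Polynomial.eval_sub, Polynomial.eval_mul, Polynomial.eval_add,
      Polynomial.eval_pow, Polynomial.eval_X, Polynomial.eval_natCast, zero_mul, add_zero,
      sub_zero, Polynomial.eval_zero] at e3
    have c1 := hc (n + 1) (by omega) (by omega)
    have c2 := hc (n + 2) (by omega) (by omega)
    exact (mul_ne_zero (pow_ne_zero 2 hB) (mul_ne_zero c1 (mul_ne_zero c2 h10))) e3

theorem phi_zero (P : MvPolynomial (Fin 3) K) (hc : Ch K P.totalDegree) (hH : P ∣ Hs P)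
    (x0 y0 z0 : K) (h0 : evL (x0, y0, z0) P = 0)
    (hb : evL (x0, y0, z0) (MvPolynomial.pderiv 0 P) ≠ 0) :
    phi x0 y0 z0 (evL (x0, y0, z0) (MvPolynomial.pderiv 1 P))
      (evL (x0, y0, z0) (MvPolynomial.pderiv 0 P)) P = 0 := by
  set a := evL (x0, y0, z0) (MvPolynomial.pderiv 1 P) with ha
  set b := evL (x0, y0, z0) (MvPolynomial.pderiv 0 P) with hbd
  obtain ⟨H, hH⟩ := hH
  have d1 := der_phi x0 y0 z0 a b P
  have d2 : Polynomial.derivative (Polynomial.derivative (phi x0 y0 z0 a b P)) =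
      Polynomial.C a ^ 2 * phi x0 y0 z0 a b (MvPolynomial.pderiv 0 (MvPolynomial.pderiv 0 P)) -
        2 * Polynomial.C a * Polynomial.C b *
          phi x0 y0 z0 a b (MvPolynomial.pderiv 0 (MvPolynomial.pderiv 1 P)) +
        Polynomial.C b ^ 2 *
          phi x0 y0 z0 a b (MvPolynomial.pderiv 1 (MvPolynomial.pderiv 1 P)) := by
    rw [d1]
    simp only [Polynomial.derivative_add, Polynomial.derivative_mul, Polynomial.derivative_neg,
      Polynomial.derivative_C, der_phi, pd_comm]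
    ring
  have e := congrArg (phi x0 y0 z0 a b) hH
  simp only [Hs, map_add, map_sub, map_mul, map_pow, map_ofNat] at e
  refine order_zero _ (phi x0 y0 z0 a b (MvPolynomial.pderiv 0 P))
    (Polynomial.C b ^ 2 * phi x0 y0 z0 a b H)
    (-2 * Polynomial.C b * phi x0 y0 z0 a b (MvPolynomial.pderiv 0 (MvPolynomial.pderiv 1 P)) *
        phi x0 y0 z0 a b (MvPolynomial.pderiv 0 P) +
      phi x0 y0 z0 a b (MvPolynomial.pderiv 0 (MvPolynomial.pderiv 0 P)) *
        (Polynomial.derivative (phi x0 y0 z0 a b P) +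
          2 * Polynomial.C a * phi x0 y0 z0 a b (MvPolynomial.pderiv 0 P))) ?_ ?_ ?_ ?_ ?_
  · rw [eval_phi, h0]
  · rw [d1]
    simp only [Polynomial.eval_add, Polynomial.eval_mul, Polynomial.eval_neg, Polynomial.eval_C,
      eval_phi]
    rw [← ha, ← hbd]
    ring
  · rw [eval_phi]
    exact hb
  · intro j h1 h2 h3
    have h4 := hc j h1 (h2.trans (deg_phi _ _ _ _ _ _))
    apply h4
    have h5 : (Polynomial.C (j : K)) = 0 := by rw [map_natCast]; exact h3
    exact Polynomial.C_eq_zero.1 h5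
  · rw [d2, d1]
    linear_combination (Polynomial.C b ^ 2) * e

/-- The equation of the tangent family. -/
noncomputable def lam (x0 y0 z0 : K) (a b : Polynomial K) : MvPolynomial (Fin 3) K :=
  Polynomial.aeval (MvPolynomial.X 2) b *
      (MvPolynomial.X 0 - MvPolynomial.C x0 - MvPolynomial.C y0 * MvPolynomial.X 2) +
    Polynomial.aeval (MvPolynomial.X 2) a * (MvPolynomial.X 1 - MvPolynomial.C z0)

theorem phi_aeval (x0 y0 z0 : K) (a b c : Polynomial K) :
    phi x0 y0 z0 a b (Polynomial.aeval (MvPolynomial.X 2) c) = Polynomial.C c := by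
  rw [← Polynomial.aeval_algHom_apply, phi_X2]
  have h := Polynomial.aeval_algHom_apply
    (Polynomial.CAlgHom : Polynomial K →ₐ[K] Polynomial (Polynomial K)) Polynomial.X c
  simpa using h

theorem evL_aeval (l : K × K × K) (c : Polynomial K) :
    evL l (Polynomial.aeval (MvPolynomial.X 2) c) = c := by
  rw [← Polynomial.aeval_algHom_apply, evL_X2, Polynomial.aeval_X_left_apply]

theorem phi_lam (x0 y0 z0 : K) (a b : Polynomial K) :
    phi x0 y0 z0 a b (lam x0 y0 z0 a b) = 0 := by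
  simp only [lam, map_add, map_mul, map_sub, phi_aeval, phi_C, phi_X0, phi_X1, phi_X2]
  ring

theorem evL_lam (x0 y0 z0 : K) (a b : Polynomial K) (l : K × K × K) :
    evL l (lam x0 y0 z0 a b) =
      b * (Polynomial.C (l.1 - x0) + Polynomial.C (l.2.1 - y0) * Polynomial.X) +
        a * Polynomial.C (l.2.2 - z0) := by
  simp only [lam, map_add, map_mul, map_sub, evL_aeval, evL_C, evL_X0, evL_X1, evL_X2]
  ring

theorem ev_rename (x0 y0 z0 : K) (a b : Polynomial K) (t s : K) (R : MvPolynomial (Fin 2) K) :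
    Polynomial.eval t (Polynomial.eval (Polynomial.C s)
      (phi x0 y0 z0 a b (MvPolynomial.rename Fin.succ R))) =
      MvPolynomial.eval ![z0 + b.eval t * s, t] R := by
  induction R using MvPolynomial.induction_on with
  | C c => rw [MvPolynomial.rename_C, phi_C]; simp
  | add p q hp hq => simp only [map_add, Polynomial.eval_add, hp, hq]
  | mul_X p i hp =>
    simp only [map_mul, Polynomial.eval_mul, hp, MvPolynomial.rename_X, MvPolynomial.eval_X]
    fin_cases i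
    · have : (Fin.succ (0 : Fin 2)) = (1 : Fin 3) := rfl
      simp only [Fin.zero_eta]
      rw [this, phi_X1]
      simp
    · have : (Fin.succ (1 : Fin 2)) = (2 : Fin 3) := rfl
      simp only [Fin.mk_one]
      rw [this, phi_X2]
      simp

theorem rename_zero [Infinite K] (x0 y0 z0 : K) (a b : Polynomial K) (hb : b ≠ 0)
    (R : MvPolynomial (Fin 2) K) (h : phi x0 y0 z0 a b (MvPolynomial.rename Fin.succ R) = 0) :
    R = 0 := by
  have h1 : R * Polynomial.aeval (MvPolynomial.X 1) b = 0 := by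
    apply MvPolynomial.funext
    intro v
    have e1 : MvPolynomial.eval v (Polynomial.aeval (MvPolynomial.X 1 : MvPolynomial (Fin 2) K) b)
        = b.eval (v 1) := by
      have := Polynomial.aeval_algHom_apply
        (MvPolynomial.aeval v : MvPolynomial (Fin 2) K →ₐ[K] K) (MvPolynomial.X 1) b
      rw [MvPolynomial.aeval_X, Polynomial.coe_aeval_eq_eval] at this
      rw [this]
      rfl
    rw [map_mul, map_zero, e1]
    by_cases hv : b.eval (v 1) = 0
    · rw [hv, mul_zero]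
    · have e2 := ev_rename x0 y0 z0 a b (v 1) ((v 0 - z0) / b.eval (v 1)) R
      rw [h] at e2
      have e3 : ![z0 + b.eval (v 1) * ((v 0 - z0) / b.eval (v 1)), v 1] = v := by
        funext i
        fin_cases i
        · simp only [Fin.zero_eta, Matrix.cons_val_zero]
          field_simp
          ring
        · simp
      rw [e3] at e2
      rw [← e2]
      simp
  refine (mul_eq_zero.1 h1).resolve_right ?_
  intro h2
  apply hb
  have := Polynomial.aeval_algHom_apply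
    (MvPolynomial.aeval ![0, Polynomial.X] : MvPolynomial (Fin 2) K →ₐ[K] Polynomial K)
    (MvPolynomial.X 1) b
  rw [h2, map_zero, MvPolynomial.aeval_X] at this
  simpa using this

end IcFlat

open IcFlat in
theorem flat_thm (hE : ElimStmt) : FlatStmt := by
  intro K _ _ P hP hc hH l0 l1 l2 h0 hb h1 h2 hz
  obtain ⟨x0, y0, z0⟩ := l0
  have hphi := phi_zero P hc hH x0 y0 z0 h0 hb
  set a := evL (x0, y0, z0) (MvPolynomial.pderiv 1 P) with ha
  set b := evL (x0, y0, z0) (MvPolynomial.pderiv 0 P) with hbd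
  have hd : P ∣ lam x0 y0 z0 a b := by
    by_contra hn
    obtain ⟨R, hR, -, A, B, hAB⟩ := hE K P _ hP hn
    apply hR
    apply rename_zero x0 y0 z0 a b hb
    rw [← hAB, map_add, map_mul, map_mul, hphi, phi_lam]
    simp
  obtain ⟨Q, hQ⟩ := hd
  have e1 : evL l1 (lam x0 y0 z0 a b) = 0 := by rw [hQ, map_mul, h1, zero_mul]
  have e2 : evL l2 (lam x0 y0 z0 a b) = 0 := by rw [hQ, map_mul, h2, zero_mul]
  rw [evL_lam] at e1 e2
  obtain ⟨x1, y1, z1⟩ := l1
  obtain ⟨x2, y2, z2⟩ := l2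
  simp only at e1 e2 hz
  have e3 : b * (Polynomial.C ((z1 - z0) * (x2 - x0) - (z2 - z0) * (x1 - x0)) +
      Polynomial.C ((z1 - z0) * (y2 - y0) - (z2 - z0) * (y1 - y0)) * Polynomial.X) = 0 := by
    simp only [map_sub, map_mul] at e1 e2 ⊢
    linear_combination (Polynomial.C z1 - Polynomial.C z0) * e2 -
      (Polynomial.C z2 - Polynomial.C z0) * e1
  have e4 := (mul_eq_zero.1 e3).resolve_left hb
  have c0 := congrArg (fun q => Polynomial.coeff q 0) e4
  have c1 := congrArg (fun q => Polynomial.coeff q 1) e4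
  simp only [Polynomial.coeff_add, Polynomial.coeff_C_zero, Polynomial.coeff_C_mul,
    Polynomial.coeff_X_zero, Polynomial.coeff_X_one, mul_zero, add_zero, mul_one,
    Polynomial.coeff_zero, Polynomial.coeff_C_succ, zero_add] at c0 c1
  have hz' : z1 - z0 ≠ 0 := sub_ne_zero.2 hz
  refine ⟨(z2 - z0) / (z1 - z0), ?_⟩
  simp only [Prod.mk_sub_mk, Prod.smul_mk, smul_eq_mul, Prod.mk_add_mk, Prod.mk.injEq]
  refine ⟨?_, ?_, ?_⟩
  · field_simp
    linear_combination c0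
  · field_simp
    linear_combination c1
  · field_simp
    ring

end Pool.Agent.MP_bd74a7_nt.Ic

end

section

/-!
Pigeonholing down to one dyadic level.
-/

open Finset

namespace Pool.Agent.MP_bd74a7_nt.Ic

theorem icCore_dyad {ι : Type*} (S : Finset ι) (f : ι → ℕ) (n E : ℕ)
    (hE : Nat.log 2 n + 1 ≤ E) (hf : ∀ a ∈ S, 1 ≤ f a ∧ f a ≤ n) :
    ∃ σ : ℕ, 1 ≤ σ ∧ S.card ≤ E * (S.filter fun a => σ ≤ f a ∧ f a < 2 * σ).card := by
  classical
  obtain ⟨i, -, hi⟩ := exists_max_image (range (Nat.log 2 n + 1))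
    (fun i => (S.filter fun a => Nat.log 2 (f a) = i).card) ⟨0, by simp⟩
  refine ⟨2 ^ i, Nat.one_le_two_pow, ?_⟩
  have h1 : S.card ≤ (S.filter fun a => Nat.log 2 (f a) = i).card *
      (range (Nat.log 2 n + 1)).card :=
    card_le_mul_card_image_of_maps_to (f := fun a => Nat.log 2 (f a))
      (fun a ha => mem_range.2 (Nat.lt_succ_of_le (Nat.log_mono_right (hf a ha).2))) _ hi
  have h2 : (S.filter fun a => Nat.log 2 (f a) = i).card ≤
      (S.filter fun a => 2 ^ i ≤ f a ∧ f a < 2 * 2 ^ i).card := by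
    refine card_le_card fun a ha => ?_
    obtain ⟨h3, h4⟩ := mem_filter.1 ha
    have h5 := (hf a h3).1
    refine mem_filter.2 ⟨h3, ?_, ?_⟩
    · rw [← h4]
      exact Nat.pow_log_le_self 2 (by omega)
    · rw [← h4, ← pow_succ']
      exact Nat.lt_pow_succ_log_self (by norm_num) _
  rw [card_range] at h1
  calc S.card ≤ _ := h1
    _ ≤ _ := by rw [mul_comm]; exact Nat.mul_le_mul hE h2

variable {p m : ℕ} {V : Finset ℤ}

theorem icCore_card (hV : Short p V m) : V.card ≤ 2 * m + 1 := by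
  rcases V.eq_empty_or_nonempty with rfl | ⟨v, hv⟩
  · simp
  have h : V ⊆ Icc (v - m) (v + m) := fun w hw => by
    have := abs_le.1 (hV.diam w hw v hv)
    exact mem_Icc.2 (by omega)
  have h2 := card_le_card h
  rw [Int.card_Icc] at h2
  omega

theorem icCore_rr_le (hV : Short p V m) (hp : m < p) (lam : ZMod p) : rr p V lam ≤ V.card := by
  classical
  refine card_le_card_of_injOn (fun x => x.1) ?_ ?_
  · intro x hx
    exact (mem_product.1 (mem_filter.1 hx).1).1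
  · rintro ⟨a, b⟩ h1 ⟨c, d⟩ h2 he
    simp only [coe_filter, mem_product, Set.mem_ofPred_eq] at h1 h2 he
    subst he
    have h3 : ((b - d : ℤ) : ZMod p) = 0 := by
      push_cast
      rw [h1.2, h2.2, sub_self]
    have h4 := hV.diam b h1.1.2 d h2.1.2
    have h5 := eq_zero_of_cast h3 (by omega)
    rw [show b = d by omega]

theorem icCore_pop [Fact p.Prime] (hV : Short p V m) {Λ : Finset (ZMod p)} {Z : ℕ}
    (hΛ : ∀ v ∈ V, ∀ w ∈ V, (v : ZMod p) / w ∈ Λ) (hZ : Λ.card ≤ Z) :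
    V.card ^ 2 ≤ 2 * ((V ×ˢ V).filter fun x =>
      V.card ^ 2 ≤ 2 * Z * rr p V ((x.2 : ZMod p) / x.1)).card := by
  classical
  have h0 := card_filter_add_card_filter_not (s := V ×ˢ V) fun x =>
    V.card ^ 2 ≤ 2 * Z * rr p V ((x.2 : ZMod p) / x.1)
  have h1 : ((V ×ˢ V).filter fun x =>
      ¬ V.card ^ 2 ≤ 2 * Z * rr p V ((x.2 : ZMod p) / x.1)).card ≤
      (V.card ^ 2 / (2 * Z)) * Λ.card := by
    refine card_le_mul_card_image_of_maps_to (f := fun x => (x.2 : ZMod p) / x.1) ?_ _ ?_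
    · intro x hx
      have := mem_product.1 (mem_filter.1 hx).1
      exact hΛ _ this.2 _ this.1
    · intro lam hl
      have hZ0 : 0 < 2 * Z := by
        have := card_pos.2 ⟨lam, hl⟩
        omega
      rcases (((V ×ˢ V).filter fun x =>
        ¬ V.card ^ 2 ≤ 2 * Z * rr p V ((x.2 : ZMod p) / x.1)).filter
          fun x => (x.2 : ZMod p) / x.1 = lam).eq_empty_or_nonempty with he | ⟨y, hy⟩
      · rw [he]
        simp
      · simp only [mem_filter] at hy
        have h2 := hy.1.2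
        rw [hy.2] at h2
        rw [Nat.le_div_iff_mul_le hZ0]
        refine le_trans (Nat.mul_le_mul_right _ (?_ : _ ≤ rr p V lam)) (by
          rw [mul_comm]; omega)
        refine card_le_card fun x hx => ?_
        simp only [mem_filter] at hx ⊢
        refine ⟨hx.1.1, ?_⟩
        rw [← hx.2, div_mul_cancel₀ _ (hV.nz _ (mem_product.1 hx.1.1).1)]
  have h2 : V.card ^ 2 / (2 * Z) * (2 * Z) ≤ V.card ^ 2 := Nat.div_mul_le_self _ _
  have h3 : V.card ^ 2 / (2 * Z) * Λ.card ≤ V.card ^ 2 / (2 * Z) * Z := Nat.mul_le_mul_left _ hZ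
  rw [card_product, ← sq] at h0
  nlinarith

theorem icCore_zero [Fact p.Prime] (hV : Short p V m) (hp : m < p)
    (T : Finset (ℤ × ℤ × ℤ × ℤ))
    (hT : ∀ a ∈ T, a.1 ∈ V ∧ a.2.1 ∈ V ∧ a.2.2.1 ∈ V ∧
      (a.1 : ZMod p) * a.2.2.2 = a.2.1 * a.2.2.1 ∧ qc a = 0) : T.card ≤ 2 * V.card ^ 2 := by
  classical
  have h : T ⊆ ((V ×ˢ V).image fun x => (x.1, x.1, x.2, x.2)) ∪
      ((V ×ˢ V).image fun x => (x.1, x.2, x.1, x.2)) := by
    rintro ⟨a, b, c, d⟩ ha
    obtain ⟨h0, h1, h2, h3, h4⟩ := hT _ ha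
    simp only [qc] at h0 h1 h2 h3 h4
    have h5 : d = b + c - a := by omega
    subst h5
    have h6 : ((b - a : ℤ) : ZMod p) * ((c - a : ℤ) : ZMod p) = 0 := by
      push_cast at h3 ⊢
      linear_combination -h3
    have d1 := hV.diam b h1 a h0
    have d2 := hV.diam c h2 a h0
    rcases mul_eq_zero.1 h6 with h7 | h7
    · have h8 := eq_zero_of_cast h7 (by omega)
      refine mem_union_left _ (mem_image.2 ⟨(a, c), mem_product.2 ⟨h0, h2⟩, ?_⟩)
      simp only [Prod.mk.injEq, true_and]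
      omega
    · have h8 := eq_zero_of_cast h7 (by omega)
      refine mem_union_right _ (mem_image.2 ⟨(a, b), mem_product.2 ⟨h0, h1⟩, ?_⟩)
      simp only [Prod.mk.injEq, true_and]
      omega
  have h2 := (card_le_card h).trans (card_union_le _ _)
  have h3 := card_image_le (s := V ×ˢ V) (f := fun x : ℤ × ℤ => (x.1, x.1, x.2, x.2))
  have h4 := card_image_le (s := V ×ˢ V) (f := fun x : ℤ × ℤ => (x.1, x.2, x.1, x.2))
  rw [card_product, ← sq] at h3 h4
  omega

theorem icCore_qs (hV : Short p V m) {a : ℤ × ℤ × ℤ × ℤ} (h : Gd p V a) :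
    1 ≤ qs a ∧ qs a ≤ 2 * m := by
  obtain ⟨h0, h1, h2, h3, -, h5⟩ := h
  have g1 : 0 < Int.gcd (qA a) (qc a) := Int.gcd_pos_of_ne_zero_right _ h5
  have g2 : Int.gcd (qA a) (qc a) ≤ (qc a).natAbs := Int.gcd_le_natAbs_right _ h5
  have d1 := abs_le.1 (hV.diam _ h3 _ h1)
  have d2 := abs_le.1 (hV.diam _ h2 _ h0)
  have g3 : (qc a).natAbs ≤ 2 * m := by
    simp only [qc]
    omega
  refine ⟨Nat.div_pos (Nat.gcd_le_left _ g1) (Nat.gcd_pos_of_pos_left _ g1), ?_⟩
  exact (Nat.div_le_self _ _).trans (g2.trans g3)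

theorem icCore_quads [Fact p.Prime] (hV : Short p V m) (P : Finset (ℤ × ℤ)) {R : ℕ}
    (hP : ∀ x ∈ P, x.1 ∈ V ∧ x.2 ∈ V ∧ R ≤ rr p V ((x.2 : ZMod p) / x.1)) :
    ∃ T : Finset (ℤ × ℤ × ℤ × ℤ), R * P.card ≤ T.card ∧ ∀ a ∈ T, (a.1, a.2.1) ∈ P ∧
      a.2.2.1 ∈ V ∧ a.2.2.2 ∈ V ∧ (a.1 : ZMod p) * a.2.2.2 = a.2.1 * a.2.2.1 := by
  classical
  refine ⟨(V ×ˢ V ×ˢ V ×ˢ V).filter fun a => (a.1, a.2.1) ∈ P ∧
    (a.1 : ZMod p) * a.2.2.2 = a.2.1 * a.2.2.1, ?_, ?_⟩
  · refine mul_card_image_le_card_of_maps_to (f := fun a => (a.1, a.2.1)) ?_ _ ?_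
    · intro a ha
      exact (mem_filter.1 ha).2.1
    · intro x hx
      obtain ⟨h1, h2, h3⟩ := hP x hx
      refine h3.trans (card_le_card_of_injOn (fun y => (x.1, x.2, y.1, y.2)) ?_ ?_)
      · intro y hy
        simp only [coe_filter, mem_product, Set.mem_ofPred_eq, mem_filter] at hy ⊢
        refine ⟨⟨⟨h1, h2, hy.1.1, hy.1.2⟩, hx, ?_⟩, trivial⟩
        rw [hy.2]
        have := hV.nz _ h1
        field_simp
      · intro y _ z _ he
        simp only [Prod.mk.injEq, true_and] at he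
        exact Prod.ext he.1 he.2
  · intro a ha
    simp only [mem_filter, mem_product] at ha
    exact ⟨ha.2.1, ha.1.2.2.1, ha.1.2.2.2, ha.2.2⟩

theorem icCore_arith {J P D R Z N Q Q1 ρ p m : ℕ} (hJ : 0 < J) (hD : 1 ≤ D)
    (h1 : J ^ 2 ≤ 2 * (D * P)) (h2 : J ^ 2 ≤ 4 * Z * R) (h3 : 64 * D ^ 3 < R)
    (h4 : R * P ≤ 2 * Q1) (h5 : Q1 ≤ D * Q) (h6 : R ≤ 16 * D * ρ)
    (h : Q ≤ 8 * D * J ^ 2 ∨ Q ^ 2 * (ρ ^ 2 * p) ≤ 2000 * D * J * N * (2 * R) ^ 3 * m ^ 3 ∨
      Q ^ 3 * (ρ ^ 2 * p) ≤ 20000 * D ^ 2 * J ^ 3 * N * (2 * R) ^ 3 * m ^ 3) :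
    J ^ 5 * p ≤ 10 ^ 11 * D ^ 10 * Z * N * m ^ 3 := by
  have hR : 0 < R := by omega
  have k1 : R * J ^ 2 ≤ 4 * D ^ 2 * Q :=
    calc R * J ^ 2 ≤ R * (2 * (D * P)) := by gcongr
      _ = 2 * D * (R * P) := by ring
      _ ≤ 2 * D * (2 * (D * Q)) := Nat.mul_le_mul_left _ (by omega)
      _ = _ := by ring
  have fin : ∀ X : ℕ, J ^ 3 * R * p ≤ X → J ^ 5 * p ≤ 4 * Z * X := fun X hX =>
    calc J ^ 5 * p = J ^ 2 * (J ^ 3 * p) := by ring
      _ ≤ 4 * Z * R * (J ^ 3 * p) := by gcongr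
      _ = 4 * Z * (J ^ 3 * R * p) := by ring
      _ ≤ _ := by gcongr
  rcases h with h | h | h
  · exfalso
    have k2 : R * J ^ 2 ≤ 32 * D ^ 3 * J ^ 2 :=
      calc R * J ^ 2 ≤ 4 * D ^ 2 * Q := k1
        _ ≤ 4 * D ^ 2 * (8 * D * J ^ 2) := by gcongr
        _ = _ := by ring
    have := Nat.le_of_mul_le_mul_right k2 (by positivity)
    omega
  · have k2 : (R ^ 3 * J) * (J ^ 3 * R * p) ≤
        (R ^ 3 * J) * (65536000 * D ^ 7 * N * m ^ 3) :=
      calc (R ^ 3 * J) * (J ^ 3 * R * p) = (R * J ^ 2) ^ 2 * R ^ 2 * p := by ring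
        _ ≤ (4 * D ^ 2 * Q) ^ 2 * (16 * D * ρ) ^ 2 * p := by gcongr
        _ = 4096 * D ^ 6 * (Q ^ 2 * (ρ ^ 2 * p)) := by ring
        _ ≤ 4096 * D ^ 6 * (2000 * D * J * N * (2 * R) ^ 3 * m ^ 3) := by gcongr
        _ = _ := by ring
    have k3 := fin _ (Nat.le_of_mul_le_mul_left k2 (by positivity))
    have k4 : D ^ 7 ≤ D ^ 10 := Nat.pow_le_pow_right hD (by norm_num)
    calc J ^ 5 * p ≤ _ := k3
      _ = 262144000 * D ^ 7 * Z * N * m ^ 3 := by ring
      _ ≤ _ := by gcongr; norm_num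
  · have k2 : (R ^ 3 * J ^ 3) * (J ^ 3 * R ^ 2 * p) ≤
        (R ^ 3 * J ^ 3) * (2621440000 * D ^ 10 * N * m ^ 3) :=
      calc (R ^ 3 * J ^ 3) * (J ^ 3 * R ^ 2 * p) = (R * J ^ 2) ^ 3 * R ^ 2 * p := by ring
        _ ≤ (4 * D ^ 2 * Q) ^ 3 * (16 * D * ρ) ^ 2 * p := by gcongr
        _ = 16384 * D ^ 8 * (Q ^ 3 * (ρ ^ 2 * p)) := by ring
        _ ≤ 16384 * D ^ 8 * (20000 * D ^ 2 * J ^ 3 * N * (2 * R) ^ 3 * m ^ 3) := by gcongr
        _ = _ := by ring
    have k5 : J ^ 3 * R * p ≤ J ^ 3 * R ^ 2 * p := by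
      gcongr
      exact Nat.le_self_pow (by norm_num) R
    have k3 := fin _ (k5.trans (Nat.le_of_mul_le_mul_left k2 (by positivity)))
    calc J ^ 5 * p ≤ _ := k3
      _ = 10485760000 * D ^ 10 * Z * N * m ^ 3 := by ring
      _ ≤ _ := by gcongr; norm_num

theorem core_thm (hS : SmallStmt) (hL : LevelStmt) : CoreStmt := by
  classical
  refine ⟨10 ^ 11, ?_⟩
  intro p _ m N Z V Λ hV hp hΛ hHN hZ
  rcases V.eq_empty_or_nonempty with rfl | ⟨v, hv⟩
  · left
    simp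
  have hZ1 : 1 ≤ Z := (card_pos.2 ⟨_, hΛ v hv v hv⟩).trans_le hZ
  have hJ : 0 < V.card := card_pos.2 ⟨v, hv⟩
  have hJm := icCore_card hV
  rcases Nat.eq_zero_or_pos m with rfl | hm
  · left
    have h1 : V.card = 1 := by omega
    rw [h1, one_pow]
    exact Nat.succ_le_of_lt (by positivity)
  have hm4 : m ≤ m ^ 4 := Nat.le_self_pow (by norm_num) m
  have hm2 : m ≤ m ^ 2 := Nat.le_self_pow (by norm_num) m
  have hmp : m < p := by omega
  set D := Dm (3 * m ^ 4) with hD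
  have hD1 : 1 ≤ D := one_le_Dm (by omega)
  have hlog : Nat.log 2 (3 * m ^ 4) + 1 ≤ D := log_le_Dm (by omega) le_rfl
  have h1 := icCore_pop hV hΛ hZ
  set P1 := (V ×ˢ V).filter fun x =>
    V.card ^ 2 ≤ 2 * Z * rr p V ((x.2 : ZMod p) / x.1) with hP1
  obtain ⟨R, hR, h2⟩ := icCore_dyad P1 (fun x => rr p V ((x.2 : ZMod p) / x.1)) _ D hlog
    (fun x hx => by
      have h3 := (mem_filter.1 hx).2
      have h4 := icCore_rr_le hV hmp ((x.2 : ZMod p) / x.1)
      refine ⟨Nat.pos_of_ne_zero fun h0 => ?_, by omega⟩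
      rw [h0] at h3
      have : 0 < V.card ^ 2 := by positivity
      omega)
  set P0 := P1.filter fun x => R ≤ rr p V ((x.2 : ZMod p) / x.1) ∧
    rr p V ((x.2 : ZMod p) / x.1) < 2 * R with hP0
  have h3 : V.card ^ 2 ≤ 2 * (D * P0.card) := by omega
  have h4 : V.card ^ 2 ≤ 4 * Z * R := by
    have hne : P0.Nonempty := by
      rw [← card_pos]
      refine Nat.pos_of_ne_zero fun h0 => ?_
      rw [h0] at h3
      have : 0 < V.card ^ 2 := by positivity
      omega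
    obtain ⟨x, hx⟩ := hne
    obtain ⟨hx1, -, hx2⟩ := mem_filter.1 hx
    calc V.card ^ 2 ≤ _ := (mem_filter.1 hx1).2
      _ ≤ 2 * Z * (2 * R) := by gcongr
      _ = _ := by ring
  by_cases h5 : R ≤ 64 * D ^ 3
  · left
    calc V.card ^ 2 ≤ 4 * Z * (64 * D ^ 3) := h4.trans (by gcongr)
      _ = 256 * D ^ 3 * Z := by ring
      _ ≤ _ := by gcongr <;> norm_num
  right
  have h5 : 64 * D ^ 3 < R := by omega
  have hD3 : D ≤ D ^ 3 := Nat.le_self_pow (by norm_num) D
  have hP0m : ∀ x ∈ P0, x.1 ∈ V ∧ x.2 ∈ V ∧ R ≤ rr p V ((x.2 : ZMod p) / x.1) ∧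
      rr p V ((x.2 : ZMod p) / x.1) < 2 * R := fun x hx => by
    obtain ⟨hx1, hx2⟩ := mem_filter.1 hx
    have := mem_product.1 (mem_filter.1 hx1).1
    exact ⟨this.1, this.2, hx2⟩
  obtain ⟨T0, h6, hT0⟩ := icCore_quads hV P0 (R := R) fun x hx =>
    ⟨(hP0m x hx).1, (hP0m x hx).2.1, (hP0m x hx).2.2.1⟩
  set ρ := R / (8 * D) with hρ
  have hρ1 : 1 ≤ ρ := Nat.div_pos (by omega) (by omega)
  have hρ2 : 8 * D * ρ ≤ R := Nat.mul_div_le _ _
  have hρ3 : R ≤ 16 * D * ρ := by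
    have := Nat.lt_mul_div_succ R (show 0 < 8 * D by omega)
    rw [← hρ] at this
    nlinarith
  have hGd : ∀ a ∈ T0, qc a ≠ 0 → Gd p V a := fun a ha hc => by
    obtain ⟨g1, g2, g3, g4⟩ := hT0 a ha
    exact ⟨(hP0m _ g1).1, (hP0m _ g1).2.1, g2, g3, g4, hc⟩
  set Tc := T0.filter fun a => qc a = 0
  set Ts := T0.filter fun a => qc a ≠ 0 ∧ qt a < ρ
  set T1 := T0.filter fun a => qc a ≠ 0 ∧ ρ ≤ qt a
  have h7 : Tc.card ≤ 2 * V.card ^ 2 := icCore_zero hV hmp Tc fun a ha => by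
    obtain ⟨ha, hc⟩ := mem_filter.1 ha
    obtain ⟨g1, g2, -, g4⟩ := hT0 a ha
    exact ⟨(hP0m _ g1).1, (hP0m _ g1).2.1, g2, g4, hc⟩
  have h8 : Ts.card ≤ 2 * D * ρ * P0.card := by
    refine card_le_mul_card_image_of_maps_to (f := fun a => (a.1, a.2.1))
      (fun a ha => (hT0 a (mem_filter.1 ha).1).1) _ fun x _ => ?_
    refine hS p m ρ V _ x.1 x.2 hV hp fun a ha => ?_
    obtain ⟨ha, he⟩ := mem_filter.1 ha
    obtain ⟨ha, hc, ht⟩ := mem_filter.1 ha
    exact ⟨hGd a ha hc, congrArg Prod.fst he, congrArg Prod.snd he, ht⟩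
  have h9 : T0.card ≤ Tc.card + Ts.card + T1.card := by
    refine le_trans (card_le_card (t := Tc ∪ Ts ∪ T1) fun a ha => ?_)
      ((card_union_le _ _).trans (Nat.add_le_add_right (card_union_le _ _) _))
    simp only [Tc, Ts, T1, mem_union, mem_filter, ha, true_and]
    by_cases hc : qc a = 0
    · exact Or.inl (Or.inl hc)
    · rcases Nat.lt_or_ge (qt a) ρ with h | h
      · exact Or.inl (Or.inr ⟨hc, h⟩)
      · exact Or.inr ⟨hc, h⟩
  have h10 : R * P0.card ≤ 2 * T1.card := by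
    have e1 : 16 * D * P0.card ≤ R * P0.card := Nat.mul_le_mul_right _ (by omega)
    have e2 : 8 * D * ρ * P0.card ≤ R * P0.card := Nat.mul_le_mul_right _ hρ2
    nlinarith
  obtain ⟨σ, hσ, h11⟩ := icCore_dyad T1 qs _ D hlog fun a ha => by
    obtain ⟨ha, hc, -⟩ := mem_filter.1 ha
    have := icCore_qs hV (hGd a ha hc)
    omega
  have h12 := hL p m N (2 * R) σ ρ V Λ (T1.filter fun a => σ ≤ qs a ∧ qs a < 2 * σ) hV hp hΛ
    hHN hσ hρ1 fun a ha => by
      obtain ⟨ha, hs⟩ := mem_filter.1 ha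
      obtain ⟨ha, hc, ht⟩ := mem_filter.1 ha
      exact ⟨hGd a ha hc, (hP0m _ (hT0 a ha).1).2.2.2.le, hs.1, hs.2, ht⟩
  refine (icCore_arith hJ hD1 h3 h4 h5 h10 h11 hρ3 h12).trans ?_
  gcongr
  exact Nat.le_succ _

end Pool.Agent.MP_bd74a7_nt.Ic

end

section

/-!
The bound `M ^ (1/2) + M ^ (19/20) p ^ (-1/5)` from the core estimate.
-/

open Finset

namespace Pool.Agent.MP_bd74a7_nt.Ic

theorem icFinal_setup (p : ℕ) [Fact p.Prime] (g : ℕ) (a K L : ℤ) (M : ℕ) (ha : ¬ (p : ℤ) ∣ a)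
    (hM : M < orderOf (g : ZMod p)) :
    ∃ V : Finset ℤ, V.card = ((Icc (K + 1) (K + M) ×ˢ Icc (L + 1) (L + M)).filter
        fun xy : ℤ × ℤ => (xy.2 : ZMod p) = a * (g : ZMod p) ^ xy.1).card ∧
      (∀ v ∈ V, L + 1 ≤ v ∧ v ≤ L + M) ∧ (∀ v ∈ V, (v : ZMod p) ≠ 0) ∧
      ∀ v ∈ V, ∀ w ∈ V, (v : ZMod p) / w ∈
        (Icc (-(M : ℤ)) M).image fun j => (g : ZMod p) ^ j := by
  classical
  have hg : (g : ZMod p) ≠ 0 := by
    intro h0
    rw [h0, orderOf_zero] at hM
    omega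
  have ha' : (a : ZMod p) ≠ 0 := fun h => ha ((ZMod.intCast_zmod_eq_zero_iff_dvd a p).1 h)
  set F := (Icc (K + 1) (K + M) ×ˢ Icc (L + 1) (L + M)).filter
    fun xy : ℤ × ℤ => (xy.2 : ZMod p) = a * (g : ZMod p) ^ xy.1 with hF
  have hmem : ∀ v ∈ F.image Prod.snd, (L + 1 ≤ v ∧ v ≤ L + M) ∧
      ∃ x, (K + 1 ≤ x ∧ x ≤ K + M) ∧ (v : ZMod p) = a * (g : ZMod p) ^ x := by
    intro v hv
    obtain ⟨xy, hxy, rfl⟩ := mem_image.1 hv
    simp only [hF, mem_filter, mem_product, mem_Icc] at hxy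
    exact ⟨hxy.1.2, xy.1, hxy.1.1, hxy.2⟩
  refine ⟨F.image Prod.snd, card_image_of_injOn ?_, fun v hv => (hmem v hv).1, ?_, ?_⟩
  · rintro ⟨x, y⟩ h1 ⟨x', y'⟩ h2 he
    simp only [hF, coe_filter, mem_product, mem_Icc, Set.mem_ofPred_eq] at h1 h2 he
    subst he
    have h3 : (g : ZMod p) ^ x = (g : ZMod p) ^ x' :=
      mul_left_cancel₀ ha' (h1.2.symm.trans h2.2)
    have h4 : Units.mk0 (g : ZMod p) hg ^ x = Units.mk0 (g : ZMod p) hg ^ x' := by
      ext
      simpa using h3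
    rw [zpow_eq_zpow_iff_modEq, ← orderOf_units, Units.val_mk0] at h4
    have h5 := Int.eq_zero_of_abs_lt_dvd h4.dvd (by
      rw [abs_lt]
      omega)
    rw [show x = x' by omega]
  · intro v hv
    obtain ⟨-, x, -, hx⟩ := hmem v hv
    rw [hx]
    exact mul_ne_zero ha' (zpow_ne_zero _ hg)
  · intro v hv w hw
    obtain ⟨-, x, h1, hx⟩ := hmem v hv
    obtain ⟨-, y, h2, hy⟩ := hmem w hw
    refine mem_image.2 ⟨x - y, mem_Icc.2 (by omega), ?_⟩
    rw [hx, hy, zpow_sub₀ hg, mul_div_mul_left _ _ ha']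

theorem icFinal_real {J M p N m d C : ℕ} {D : ℝ} (hM : 1 ≤ M) (hp : 0 < p) (hm : m ≤ M)
    (hD : (d : ℝ) + 1 ≤ D) (hN : N ^ 4 ≤ 2 ^ 85 * M ^ 3)
    (h : J ^ 2 ≤ C * (d + 1) ^ 3 * (3 * M) ∨ J ^ 5 * p ≤ C * (d + 1) ^ 10 * (3 * M) * N * m ^ 3) :
    (J : ℝ) ≤ 32 * (3 * C + 1) * D ^ 2 *
      ((M : ℝ) ^ (1 / 2 : ℝ) + (M : ℝ) ^ (19 / 20 : ℝ) * (p : ℝ) ^ (-1 / 5 : ℝ)) := by
  have hd0 : (0 : ℝ) ≤ d := Nat.cast_nonneg _
  have hD1 : 1 ≤ D := by linarith
  have hp0 : (0 : ℝ) < p := by exact_mod_cast hp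
  have hM0 : (0 : ℝ) ≤ M := Nat.cast_nonneg _
  have hC0 : (0 : ℝ) ≤ C := Nat.cast_nonneg _
  have hA : (0 : ℝ) ≤ (M : ℝ) ^ (1 / 2 : ℝ) := by positivity
  have hB : (0 : ℝ) ≤ (M : ℝ) ^ (19 / 20 : ℝ) * (p : ℝ) ^ (-1 / 5 : ℝ) := by positivity
  set E : ℝ := 3 * C + 1 with hE
  have hE1 : 1 ≤ E := by linarith
  have hE3 : 3 * (C : ℝ) ≤ E := by linarith
  have hc : 0 ≤ 32 * E * D ^ 2 := by positivity
  rcases h with h | h
  · have h1 : (J : ℝ) ^ 2 ≤ C * (d + 1) ^ 3 * (3 * M) := by exact_mod_cast h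
    have h2 : (J : ℝ) ≤ 32 * E * D ^ 2 * (M : ℝ) ^ (1 / 2 : ℝ) := by
      refine le_of_pow_le two_ne_zero (by positivity) (h1.trans ?_)
      rw [mul_pow, rpow_pow_eq hM0]
      norm_num
      have h3 : ((d : ℝ) + 1) ^ 3 ≤ D ^ 4 :=
        (pow_le_pow_left₀ (by positivity) hD 3).trans (pow_le_pow_right₀ hD1 (by norm_num))
      have h4 : E ≤ 1024 * E ^ 2 := by nlinarith
      calc (C : ℝ) * (d + 1) ^ 3 * (3 * M) = (3 * C) * (d + 1) ^ 3 * M := by ring
        _ ≤ (1024 * E ^ 2) * D ^ 4 * M :=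
          mul_le_mul_of_nonneg_right
            (mul_le_mul (hE3.trans h4) h3 (by positivity) (by positivity)) hM0
        _ = _ := by ring
    nlinarith [mul_nonneg hc hB]
  · have h1 : (J : ℝ) ^ 5 * p ≤ C * (d + 1) ^ 10 * (3 * M) * N * m ^ 3 := by exact_mod_cast h
    have hN' : (N : ℝ) ^ 4 ≤ 2 ^ 85 * M ^ 3 := by exact_mod_cast hN
    have hm' : (m : ℝ) ≤ M := by exact_mod_cast hm
    have h2 : (J : ℝ) ≤ 32 * E * D ^ 2 *
        ((M : ℝ) ^ (19 / 20 : ℝ) * (p : ℝ) ^ (-1 / 5 : ℝ)) := by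
      refine le_of_pow_le (n := 20) (by norm_num) (by positivity) ?_
      have e1 : ((M : ℝ) ^ (19 / 20 : ℝ)) ^ 20 = (M : ℝ) ^ 19 := by
        rw [rpow_pow_eq hM0, ← Real.rpow_natCast]
        norm_num
      have e2 : ((p : ℝ) ^ (-1 / 5 : ℝ)) ^ 20 = ((p : ℝ) ^ 4)⁻¹ := by
        rw [rpow_pow_eq hp0.le, ← Real.rpow_natCast, ← Real.rpow_neg hp0.le]
        norm_num
      rw [mul_pow, mul_pow ((M : ℝ) ^ (19 / 20 : ℝ)), e1, e2, ← mul_assoc,
        le_mul_inv_iff₀ (by positivity)]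
      have h3 : (J : ℝ) ^ 5 * p ≤ E * D ^ 10 * M ^ 4 * N :=
        calc (J : ℝ) ^ 5 * p ≤ _ := h1
          _ = (3 * C) * (d + 1) ^ 10 * (M * m ^ 3) * N := by ring
          _ ≤ E * D ^ 10 * (M * M ^ 3) * N := by gcongr
          _ = _ := by ring
      have h4 : E ^ 4 ≤ E ^ 20 := pow_le_pow_right₀ hE1 (by norm_num)
      calc (J : ℝ) ^ 20 * p ^ 4 = ((J : ℝ) ^ 5 * p) ^ 4 := by ring
        _ ≤ (E * D ^ 10 * M ^ 4 * N) ^ 4 := by gcongr
        _ = E ^ 4 * D ^ 40 * M ^ 16 * N ^ 4 := by ring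
        _ ≤ E ^ 20 * D ^ 40 * M ^ 16 * (2 ^ 85 * M ^ 3) := by gcongr
        _ = 2 ^ 85 * (E ^ 20 * D ^ 40 * M ^ 19) := by ring
        _ ≤ 32 ^ 20 * (E ^ 20 * D ^ 40 * M ^ 19) := by gcongr; norm_num
        _ = _ := by ring
    nlinarith [mul_nonneg hc hA]

theorem final_thm (hCore : CoreStmt) (hN : NStmt) (ε : ℝ) (hε : 0 < ε) :
    ∃ C : ℝ, 0 < C ∧ ∀ (p : ℕ) [Fact p.Prime] (g : ℕ) (a K L : ℤ) (M : ℕ),
      ¬ (p : ℤ) ∣ a → 1 ≤ M → M < orderOf (g : ZMod p) → (M : ℝ) < √p →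
      ((((Icc (K + 1) (K + M) ×ˢ Icc (L + 1) (L + M)).filter
        fun xy : ℤ × ℤ => (xy.2 : ZMod p) = a * (g : ZMod p) ^ xy.1).card : ℕ) : ℝ) ≤
        C * (M : ℝ) ^ ε *
          ((M : ℝ) ^ (1 / 2 : ℝ) + (M : ℝ) ^ (19 / 20 : ℝ) * (p : ℝ) ^ (-1 / 5 : ℝ)) := by
  classical
  obtain ⟨C0, hC0⟩ := hCore
  obtain ⟨C, hC, hD⟩ := Dm_pow_bound (half_pos hε) 3 4 (by norm_num)
  refine ⟨64 * (3 * C0 + 1) * C ^ 2, by positivity, fun p _ g a K L M ha hM ht hp => ?_⟩
  obtain ⟨V, hc, hI, hnz, hΛ⟩ := icFinal_setup p g a K L M ha ht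
  rw [← hc]
  have hp1 : M ^ 2 < p := by
    have := (Real.lt_sqrt (Nat.cast_nonneg M)).1 hp
    exact_mod_cast this
  have hp2 : 2 * (M / 2) ^ 2 < p := by
    have := Nat.pow_le_pow_left (Nat.div_mul_le_self M 2) 2
    rw [mul_pow] at this
    omega
  obtain ⟨N, hN1, hN2⟩ := hN p (g : ZMod p) M hM ht hp1
  have hZ : ((Icc (-(M : ℤ)) M).image fun j => (g : ZMod p) ^ j).card ≤ 3 * M :=
    card_image_le.trans (by rw [Int.card_Icc]; omega)
  have hd : (Dm (3 * (M / 2) ^ 4) : ℝ) + 1 ≤ C * (M : ℝ) ^ (ε / 2) := by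
    have h1 : Dm (3 * (M / 2) ^ 4) ≤ Dm (3 * M ^ 4) := Dm_mono (by
      gcongr
      exact Nat.div_le_self _ _)
    have h2 : (Dm (3 * (M / 2) ^ 4) : ℝ) ≤ Dm (3 * M ^ 4) := by exact_mod_cast h1
    linarith [hD M hM]
  have hsq : (C * (M : ℝ) ^ (ε / 2)) ^ 2 = C ^ 2 * (M : ℝ) ^ ε := by
    rw [mul_pow, rpow_pow_eq (Nat.cast_nonneg M)]
    norm_num
  have key : ∀ W : Finset ℤ, W ⊆ V → (∀ v ∈ W, ∀ w ∈ W, |v - w| ≤ (M / 2 : ℕ)) →
      (W.card : ℝ) ≤ 32 * (3 * C0 + 1) * (C ^ 2 * (M : ℝ) ^ ε) *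
        ((M : ℝ) ^ (1 / 2 : ℝ) + (M : ℝ) ^ (19 / 20 : ℝ) * (p : ℝ) ^ (-1 / 5 : ℝ)) := by
    intro W hW hdm
    rw [← hsq]
    exact icFinal_real hM (by omega) (Nat.div_le_self M 2) hd hN1
      (hC0 p (M / 2) N (3 * M) W _ ⟨hdm, fun v hv => hnz v (hW hv)⟩ hp2
        (fun v hv w hw => hΛ v (hW hv) w (hW hw)) hN2 hZ)
  have h1 := key (V.filter fun v => v ≤ L + 1 + (M / 2 : ℕ)) (filter_subset _ _) fun v hv w hw => by
    rw [mem_filter] at hv hw
    have := hI v hv.1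
    have := hI w hw.1
    rw [abs_le]
    omega
  have h2 := key (V.filter fun v => ¬ v ≤ L + 1 + (M / 2 : ℕ)) (filter_subset _ _)
    fun v hv w hw => by
      rw [mem_filter] at hv hw
      have := hI v hv.1
      have := hI w hw.1
      rw [abs_le]
      omega
  have h3 := card_filter_add_card_filter_not (s := V) fun v => v ≤ L + 1 + (M / 2 : ℕ)
  rw [← h3, Nat.cast_add]
  linarith

end Pool.Agent.MP_bd74a7_nt.Ic

end

section

/-!
Rows with many points contain many triples whose pattern has small height.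
-/

open Finset

namespace Pool.Agent.MP_bd74a7_nt.Ce

variable {p m : ℕ} {V : Finset ℤ} {ι : Type*} {E : Finset ι} {z : ι → ℤ × ℤ} {a b u : ι → ℤ}

theorem same_class {q l x y : ℕ} (hq : 1 ≤ q) (hl : 1 ≤ l) (h1 : x % q = y % q)
    (h2 : x / (q * l) = y / (q * l)) : ∃ k : ℤ, |k| < l ∧ (y : ℤ) - x = k * q := by
  obtain ⟨k, hk⟩ : (q : ℤ) ∣ (y : ℤ) - x := (Nat.modEq_iff_dvd.1 h1)
  refine ⟨k, ?_, by rw [hk, mul_comm]⟩
  have hp : 0 < q * l := by positivity
  have e1 := Nat.div_add_mod x (q * l)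
  have e2 := Nat.div_add_mod y (q * l)
  have e3 := Nat.mod_lt x hp
  have e4 := Nat.mod_lt y hp
  rw [h2] at e1
  have e5 : |(y : ℤ) - x| < ((q * l : ℕ) : ℤ) := by
    rw [abs_lt]
    omega
  rw [hk, abs_mul, Nat.abs_cast] at e5
  push_cast at e5
  exact lt_of_mul_lt_mul_left e5 (by positivity)

open Classical in
theorem classes (S : Finset ι) (n : ι → ℕ) {σ q l : ℕ} (hq : 1 ≤ q) (hl : 1 ≤ l)
    (hn : ∀ e ∈ S, n e ≤ 2 * σ) (hinj : ∀ e ∈ S, ∀ f ∈ S, n e = n f → e = f) :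
    (S.filter fun e => ¬ ∃ f ∈ S, ∃ g ∈ S, ∃ k1 k2 : ℤ, |k1| < l ∧ |k2| < l ∧ k1 ≠ 0 ∧ k2 ≠ 0 ∧
      k1 ≠ k2 ∧ (n f : ℤ) - n e = k1 * q ∧ (n g : ℤ) - n e = k2 * q).card ≤
      2 * (2 * σ / l + q) := by
  have h1 : (range q ×ˢ range (2 * σ / (q * l) + 1)).card ≤ 2 * σ / l + q := by
    rw [card_product, card_range, card_range, mul_add, mul_one]
    refine Nat.add_le_add_right ((Nat.le_div_iff_mul_le hl).2 ?_) _
    calc q * (2 * σ / (q * l)) * l = 2 * σ / (q * l) * (q * l) := by ring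
      _ ≤ _ := Nat.div_mul_le_self _ _
  refine le_trans ?_ (Nat.mul_le_mul_left 2 h1)
  refine card_le_mul_card_image_of_maps_to (f := fun e => (n e % q, n e / (q * l))) ?_ _ ?_
  · intro e he
    refine mem_product.2 ⟨mem_range.2 (Nat.mod_lt _ hq), mem_range.2 (Nat.lt_succ_of_le ?_)⟩
    exact Nat.div_le_div_right (hn e (mem_filter.1 he).1)
  · intro c _
    by_contra h2
    obtain ⟨e, f, g, he, hf, hg, n1, n2, n3⟩ := two_lt_card_iff.1 (not_le.1 h2)
    simp only [mem_filter] at he hf hg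
    have a1 := he.2.trans hf.2.symm
    have a2 := he.2.trans hg.2.symm
    simp only [Prod.mk.injEq] at a1 a2
    obtain ⟨k1, b1, c1⟩ := same_class hq hl a1.1 a1.2
    obtain ⟨k2, b2, c2⟩ := same_class hq hl a2.1 a2.2
    refine he.1.2 ⟨f, hf.1.1, g, hg.1.1, k1, k2, b1, b2, ?_, ?_, ?_, c1, c2⟩
    · rintro rfl
      exact n1 (hinj e he.1.1 f hf.1.1 (by omega))
    · rintro rfl
      exact n2 (hinj e he.1.1 g hg.1.1 (by omega))
    · rintro rfl
      exact n3 (hinj f hf.1.1 g hg.1.1 (by omega))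

/-- The edge `e` starts a triple of its row with step `q` and pattern of height below `l`. -/
def Trip (E : Finset ι) (z : ι → ℤ × ℤ) (b u : ι → ℤ) (l : ℕ) (e : ι) (q : ℕ) : Prop :=
  ∃ f ∈ E, ∃ g ∈ E, ∃ k1 k2 : ℤ, (z f = z e ∧ b f = b e) ∧ (z g = z e ∧ b g = b e) ∧
    |k1| < l ∧ |k2| < l ∧ k1 ≠ 0 ∧ k2 ≠ 0 ∧ k1 ≠ k2 ∧ u f - u e = k1 * q * b e ∧
    u g - u e = k2 * q * b e

open Classical in
theorem Edges.row_bad [Fact p.Prime] (h : Edges p m V E z a b u) (hV : Short p V m) {σ q l : ℕ}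
    (hσ : Span E z b u σ) (hq : 1 ≤ q) (hl : 1 ≤ l) {e0 : ι} (he0 : e0 ∈ E) :
    ((E.filter fun e => ¬ Trip E z b u l e q).filter
      fun e => (z e, b e) = (z e0, b e0)).card ≤ 2 * (2 * σ / l + q) := by
  set S := E.filter fun f => z f = z e0 ∧ b f = b e0 with hS
  have key : ∀ f ∈ S, u f - u e0 = ((((u f - u e0) / b e0 + σ).toNat : ℤ) - σ) * b e0 ∧
      ((u f - u e0) / b e0 + σ).toNat ≤ 2 * σ := by
    intro f hf
    obtain ⟨f1, f2, f3⟩ := mem_filter.1 hf
    obtain ⟨i, hi, -⟩ := h.row hV he0 f1 f2 f3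
    have h1 := abs_le.1 (hσ e0 he0 f f1 f2 f3 i hi)
    rw [hi, Int.mul_ediv_cancel _ (h.b0 hV he0), Int.toNat_of_nonneg (by omega)]
    exact ⟨by ring, by omega⟩
  refine le_trans (card_le_card ?_) (classes S (fun f => ((u f - u e0) / b e0 + σ).toNat) hq hl
    (fun f hf => (key f hf).2) ?_)
  · intro e he
    simp only [mem_filter, Prod.mk.injEq] at he
    have heS : e ∈ S := mem_filter.2 ⟨he.1.1, he.2⟩
    refine mem_filter.2 ⟨heS, ?_⟩
    rintro ⟨f, hf, g, hg, k1, k2, c1, c2, c3, c4, c5, c6, c7⟩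
    obtain ⟨f1, f2, f3⟩ := mem_filter.1 hf
    obtain ⟨g1, g2, g3⟩ := mem_filter.1 hg
    refine he.1.2 ⟨f, f1, g, g1, k1, k2, ⟨by rw [f2, he.2.1], by rw [f3, he.2.2]⟩,
      ⟨by rw [g2, he.2.1], by rw [g3, he.2.2]⟩, c1, c2, c3, c4, c5, ?_, ?_⟩
    · rw [← c6, he.2.2]
      linear_combination (key f hf).1 - (key e heS).1
    · rw [← c7, he.2.2]
      linear_combination (key g hg).1 - (key e heS).1
  · intro e he f hf hef
    obtain ⟨e1, e2, e3⟩ := mem_filter.1 he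
    obtain ⟨f1, f2, f3⟩ := mem_filter.1 hf
    have k1 := (key e he).1
    have k2 := (key f hf).1
    rw [hef, ← k2] at k1
    exact h.row_eq hV f1 e1 (by rw [e2, f2]) (by rw [e3, f3]) (by omega)

open Classical in
theorem Edges.half [Fact p.Prime] (h : Edges p m V E z a b u) (hV : Short p V m) {σ q l x : ℕ}
    (hσ : Span E z b u σ) (hq : 1 ≤ q) (hl : 1 ≤ l) (hx : 4 * (2 * σ / l + q) ≤ x)
    (hdeg : ∀ e ∈ E, x ≤ (E.filter fun f => z f = z e ∧ b f = b e).card) :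
    2 * (E.filter fun e => ¬ Trip E z b u l e q).card ≤ E.card := by
  have h1 : E.card = ∑ c ∈ E.image fun e => (z e, b e),
      (E.filter fun e => (z e, b e) = c).card :=
    card_eq_sum_card_fiberwise fun e he => mem_image_of_mem _ he
  have h2 : (E.filter fun e => ¬ Trip E z b u l e q).card = ∑ c ∈ E.image fun e => (z e, b e),
      ((E.filter fun e => ¬ Trip E z b u l e q).filter fun e => (z e, b e) = c).card :=
    card_eq_sum_card_fiberwise fun e he => mem_image_of_mem _ (mem_filter.1 he).1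
  rw [h1, h2, mul_sum]
  refine sum_le_sum fun c hc => ?_
  obtain ⟨e, he, rfl⟩ := mem_image.1 hc
  have h3 := h.row_bad hV hσ hq hl he
  have h4 := hdeg e he
  have h5 : (E.filter fun f => z f = z e ∧ b f = b e) =
      E.filter fun f => (z f, b f) = (z e, b e) := by
    simp only [Prod.mk.injEq]
  rw [h5] at h4
  omega

theorem gcd_bad {s : ℤ} {n D : ℕ} (hs : s ≠ 0) (hn : |s| ≤ n) (hD : Dm n ≤ D) (X : ℕ) :
    4 * ((Ioc 0 X).filter fun q : ℕ => ¬ Int.gcd q s ≤ 4 * D).card ≤ X := by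
  have h0 : s.natAbs ≤ n := by
    rw [Int.abs_eq_natAbs] at hn
    exact_mod_cast hn
  have h1 : ((Ioc 0 X).filter fun q : ℕ => ¬ Int.gcd q s ≤ 4 * D).card ≤
      X / (4 * D) * s.natAbs.divisors.card := by
    refine card_le_mul_card_image_of_maps_to (f := fun q : ℕ => Int.gcd q s) ?_ _ ?_
    · intro q _
      exact Nat.mem_divisors.2 ⟨Int.gcd_dvd_natAbs_right _ _, Int.natAbs_ne_zero.2 hs⟩
    · intro c hc
      by_cases h2 : c ≤ 4 * D
      · refine (card_eq_zero.2 (filter_eq_empty_iff.2 fun q hq hc => ?_)).le.trans (Nat.zero_le _)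
        rw [mem_filter, hc] at hq
        exact hq.2 h2
      have hD0 : 1 ≤ D := (one_le_Dm (by have := Int.natAbs_pos.2 hs; omega)).trans hD
      refine le_trans (card_le_card ?_) ((Nat.Ioc_filter_dvd_card_eq_div X c).le.trans
        (Nat.div_le_div_left (by omega) (by omega)))
      intro q hq
      simp only [mem_filter] at hq ⊢
      refine ⟨hq.1.1, ?_⟩
      rw [← hq.2]
      simpa using Int.gcd_dvd_natAbs_left (q : ℤ) s
  have h2 := (card_divisors_le h0).trans hD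
  have h3 := Nat.div_mul_le_self X (4 * D)
  have h4 := h1.trans (Nat.mul_le_mul_left _ h2)
  nlinarith

open Classical in
theorem Edges.fib [Fact p.Prime] (h : Edges p m V E z a b u) (hV : Short p V m)
    (hp : 2 * m ^ 2 < p) {Y L : ℕ}
    (hY : ∀ c s, (E.filter fun f => z f = c ∧ a f = s).card ≤ Y) {κ : Type*} (T : Finset κ)
    (e f : κ → ι) (q : κ → ℕ) {k : ℤ} (hk : k ≠ 0) (lam : ZMod p)
    (hT : ∀ t ∈ T, e t ∈ E ∧ f t ∈ E ∧ z (f t) = z (e t) ∧ b (f t) = b (e t) ∧ 1 ≤ q t ∧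
      u (f t) - u (e t) = k * q t * b (e t) ∧ Int.gcd (q t) (a (e t)) ≤ L ∧
      (u (f t) : ZMod p) = lam * u (e t))
    (hinj : ∀ t ∈ T, ∀ t' ∈ T, e t = e t' → q t = q t' → t = t') :
    T.card ≤ 2 * Y * Dm (3 * m ^ 4) * L := by
  have hmp : m < p := by nlinarith
  have hne : ∀ t ∈ T, u (f t) ≠ u (e t) := by
    intro t ht h0
    obtain ⟨t1, -, -, -, t5, t6, -⟩ := hT t ht
    rw [h0, sub_self] at t6
    exact mul_ne_zero (mul_ne_zero hk (by omega)) (h.b0 hV t1) t6.symm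
  have hL : (Icc 1 L).card = L := by simp
  rw [← hL]
  refine card_le_mul_card_image_of_maps_to (f := fun t => Int.gcd (q t) (a (e t))) ?_ _ ?_
  · intro t ht
    obtain ⟨t1, -, -, -, -, -, t7, -⟩ := hT t ht
    exact mem_Icc.2 ⟨Int.gcd_pos_of_ne_zero_right _ (h.swap.b0 hV t1), t7⟩
  intro c hc
  rcases (T.filter fun t => Int.gcd (q t) (a (e t)) = c).eq_empty_or_nonempty with h0 | ⟨t0, ht0⟩
  · rw [h0]
    simp
  have hkc : k.natAbs * c ≤ 3 * m ^ 4 := by
    obtain ⟨ht0, hc0⟩ := mem_filter.1 ht0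
    obtain ⟨t1, t2, -, -, t5, t6, -⟩ := hT t0 ht0
    have h1 : c ≤ m := by
      have h2 := h.ha _ t1
      rw [Int.abs_eq_natAbs] at h2
      rw [← hc0]
      exact (Int.gcd_le_natAbs_right _ (h.swap.b0 hV t1)).trans (by exact_mod_cast h2)
    have h2 : |k| ≤ m := by
      refine le_trans ?_ (hV.diam _ (h.hu _ t2) _ (h.hu _ t1))
      rw [t6, mul_assoc, abs_mul]
      exact le_mul_of_one_le_right (abs_nonneg _)
        (Int.one_le_abs (mul_ne_zero (by omega) (h.b0 hV t1)))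
    have h3 : |k * c| ≤ (m : ℤ) * m := by
      rw [abs_mul, Nat.abs_cast]
      exact mul_le_mul h2 (by exact_mod_cast h1) (by positivity) (by positivity)
    have h4 := le_three h3
    rw [abs_mul, Nat.abs_cast, Int.abs_eq_natAbs] at h4
    exact_mod_cast h4
  refine le_trans ?_ (Nat.mul_le_mul_left _ (card_divisors_le hkc))
  refine card_le_mul_card_image_of_maps_to (f := fun t => Int.gcd (a (e t)) (a (f t))) ?_ _ ?_
  · intro t ht
    obtain ⟨ht, hc0⟩ := mem_filter.1 ht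
    obtain ⟨t1, t2, t3, t4, t5, t6, -⟩ := hT t ht
    refine Nat.mem_divisors.2 ⟨?_, mul_ne_zero (Int.natAbs_ne_zero.2 hk)
      (by have := (mem_Icc.1 hc).1; omega)⟩
    obtain ⟨i, hi, hi'⟩ := h.row hV t1 t2 t3 t4
    have h1 : i = k * q t := mul_right_cancel₀ (h.b0 hV t1) (hi.symm.trans t6)
    have g1 : ((Int.gcd (a (e t)) (a (f t)) : ℕ) : ℤ) ∣ a (e t) := Int.gcd_dvd_left _ _
    have g2 : ((Int.gcd (a (e t)) (a (f t)) : ℕ) : ℤ) ∣ (z (e t)).1 * i :=
      hi' ▸ dvd_sub (Int.gcd_dvd_right _ _) g1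
    have g3 : IsCoprime ((Int.gcd (a (e t)) (a (f t)) : ℕ) : ℤ) (z (e t)).1 :=
      ((h.copab t1).of_mul_right_left.of_isCoprime_of_dvd_right g1).symm
    have g4 := g3.dvd_of_dvd_mul_left g2
    have g5 : ((Int.gcd (a (e t)) (a (f t)) : ℕ) : ℤ) ∣ k * c := by
      rw [← hc0, Int.gcd_eq_gcd_ab (q t) (a (e t)), mul_add, ← mul_assoc, ← h1]
      exact dvd_add (g4.mul_right _) ((g1.mul_right _).mul_left _)
    have g6 := Int.natAbs_dvd_natAbs.2 g5
    simpa [Int.natAbs_mul] using g6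
  intro G _
  rcases ((T.filter fun t => Int.gcd (q t) (a (e t)) = c).filter
    fun t => Int.gcd (a (e t)) (a (f t)) = G).eq_empty_or_nonempty with h0 | ⟨t1, ht1⟩
  · rw [h0]
    simp
  simp only [mem_filter] at ht1
  have h1 := card_union_le (E.filter fun g => z g = z (e t1) ∧ a g = a (e t1))
    (E.filter fun g => z g = z (e t1) ∧ a g = -a (e t1))
  have h2 := hY (z (e t1)) (a (e t1))
  have h3 := hY (z (e t1)) (-a (e t1))
  refine le_trans (card_le_card_of_injOn e ?_ ?_) (h1.trans (by omega))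
  · intro t ht
    simp only [coe_filter, mem_filter, Set.mem_ofPred_eq] at ht
    obtain ⟨s1, s2, s3, s4, -, -, -, s8⟩ := hT t ht.1.1
    obtain ⟨r1, r2, r3, r4, -, -, -, r8⟩ := hT t1 ht1.1.1
    obtain ⟨u1, u2⟩ := h.uniq hV hp s1 s2 r1 r2 s3 s4 r3 r4 (hne t ht.1.1) (by rw [s8, r8]; ring)
    simp only [coe_union, coe_filter, Set.mem_union, Set.mem_ofPred_eq]
    rcases par_gcd u2.symm (ht.2.trans ht1.2.symm) with h4 | h4
    · exact Or.inl ⟨s1, u1.symm, h4.1⟩
    · exact Or.inr ⟨s1, u1.symm, h4.1⟩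
  · intro t ht t' ht' he
    simp only [coe_filter, mem_filter, Set.mem_ofPred_eq] at ht ht'
    obtain ⟨s1, s2, -, -, -, s6, -, s8⟩ := hT t ht.1.1
    obtain ⟨r1, r2, -, -, -, r6, -, r8⟩ := hT t' ht'.1.1
    refine hinj t ht.1.1 t' ht'.1.1 he ?_
    rw [← he] at r6 r8
    have h4 : ((u (f t) - u (f t') : ℤ) : ZMod p) = 0 := by
      push_cast
      rw [s8, r8, sub_self]
    have h5 := eq_zero_of_cast h4 ((hV.diam _ (h.hu _ s2) _ (h.hu _ r2)).trans_lt
      (by exact_mod_cast hmp))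
    have h6 : (q t : ℤ) = q t' := by
      apply mul_left_cancel₀ (mul_ne_zero hk (h.b0 hV s1))
      linear_combination r6 - s6 + h5
    exact_mod_cast h6

open Classical in
theorem Edges.trip_le [Fact p.Prime] (h : Edges p m V E z a b u) (hV : Short p V m)
    (hp : 2 * m ^ 2 < p) {Λ : Finset (ZMod p)} {N Y L l : ℕ}
    (hΛ : ∀ v ∈ V, ∀ w ∈ V, (v : ZMod p) / w ∈ Λ) (hN : Ic.HN p Λ N)
    (hY : ∀ c s, (E.filter fun f => z f = c ∧ a f = s).card ≤ Y) (T : Finset (ι × ℕ))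
    (hT : ∀ t ∈ T, t.1 ∈ E ∧ 1 ≤ t.2 ∧ Trip E z b u l t.1 t.2 ∧ Int.gcd t.2 (a t.1) ≤ L) :
    T.card ≤ 2 * Y * Dm (3 * m ^ 4) * L * N * (2 * l) ^ 2 := by
  rcases T.eq_empty_or_nonempty with rfl | ⟨t0, -⟩
  · simp
  haveI : Nonempty ι := ⟨t0.1⟩
  have hmp : (m : ℤ) < p := by exact_mod_cast (by nlinarith : m < p)
  choose! f hf g hg k1 k2 r1 r2 c1 c2 c3 c4 c5 c6 c7 using fun t ht => (hT t ht).2.2.1
  have h1 : (Ioo (-(l : ℤ)) l ×ˢ Ioo (-(l : ℤ)) l).card ≤ (2 * l) ^ 2 := by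
    rw [card_product, Int.card_Ioo, sq]
    exact Nat.mul_le_mul (by omega) (by omega)
  refine le_trans ?_ (Nat.mul_le_mul_left _ h1)
  refine card_le_mul_card_image_of_maps_to (f := fun t => (k1 t, k2 t)) ?_ _ ?_
  · intro t ht
    exact mem_product.2 ⟨mem_Ioo.2 (abs_lt.1 (c1 t ht)), mem_Ioo.2 (abs_lt.1 (c2 t ht))⟩
  rintro ⟨j1, j2⟩ -
  rcases (T.filter fun t => (k1 t, k2 t) = (j1, j2)).eq_empty_or_nonempty with h0 | ⟨t1, ht1⟩
  · rw [h0]
    simp
  simp only [mem_filter, Prod.mk.injEq] at ht1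
  obtain ⟨ht1, e1, e2⟩ := ht1
  obtain ⟨s1, s2, -, -⟩ := hT t1 ht1
  have nz : ∀ (j : ℤ) (v w : ℤ), v ∈ V → w ∈ V → j ≠ 0 → v - w = j * t1.2 * b t1.1 →
      (j : ZMod p) ≠ 0 := by
    intro j v w hv hw hj hvw h0
    refine hj (eq_zero_of_cast h0 (lt_of_le_of_lt (le_trans ?_ (hV.diam _ hv _ hw)) hmp))
    rw [hvw, mul_assoc, abs_mul]
    exact le_mul_of_one_le_right (abs_nonneg _)
      (Int.one_le_abs (mul_ne_zero (by omega) (h.b0 hV s1)))
  have n1 := nz _ _ _ (h.hu _ (hf t1 ht1)) (h.hu _ s1) (c3 t1 ht1) (c6 t1 ht1)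
  have n2 := nz _ _ _ (h.hu _ (hg t1 ht1)) (h.hu _ s1) (c4 t1 ht1) (c7 t1 ht1)
  have n3 := nz (k2 t1 - k1 t1) _ _ (h.hu _ (hg t1 ht1)) (h.hu _ (hf t1 ht1))
    (sub_ne_zero.2 (c5 t1 ht1).symm) (by linear_combination c7 t1 ht1 - c6 t1 ht1)
  have n4 : j1 ≠ 0 := e1 ▸ c3 t1 ht1
  rw [e1] at n1 n3
  rw [e2] at n2 n3
  refine le_trans ?_ (Nat.mul_le_mul_left _ (hN _ _ _ n2 (neg_ne_zero.2 n1) n3))
  refine card_le_mul_card_image_of_maps_to
    (f := fun t => ((u (f t) : ZMod p) / u t.1, (u (g t) : ZMod p) / u t.1)) ?_ _ ?_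
  · intro t ht
    simp only [mem_filter, Prod.mk.injEq] at ht
    obtain ⟨ht, a1, a2⟩ := ht
    have a3 := (hT t ht).1
    refine mem_filter.2 ⟨mem_product.2 ⟨hΛ _ (h.hu _ (hf t ht)) _ (h.hu _ a3),
      hΛ _ (h.hu _ (hg t ht)) _ (h.hu _ a3)⟩, ?_⟩
    have a4 := hV.nz _ (h.hu _ a3)
    have a5 : j2 * (u (f t) - u t.1) = j1 * (u (g t) - u t.1) := by
      rw [c6 t ht, c7 t ht, a1, a2]
      ring
    have a6 := congrArg (Int.cast : ℤ → ZMod p) a5
    push_cast at a6 ⊢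
    field_simp
    linear_combination a6
  rintro ⟨l1, l2⟩ -
  refine h.fib hV hp hY _ (fun t => t.1) f (fun t => t.2) n4 l1 ?_ fun t _ t' _ => Prod.ext
  intro t ht
  simp only [mem_filter, Prod.mk.injEq] at ht
  obtain ⟨⟨ht, a1, -⟩, a2, -⟩ := ht
  obtain ⟨a3, a4, -, a5⟩ := hT t ht
  refine ⟨a3, hf t ht, (r1 t ht).1, (r1 t ht).2, a4, a1 ▸ c6 t ht, a5, ?_⟩
  rw [← a2, div_mul_cancel₀ _ (hV.nz _ (h.hu _ a3))]

open Classical in
/-- The dilation estimate. -/
theorem Edges.dil [Fact p.Prime] (h : Edges p m V E z a b u) (hV : Short p V m)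
    (hp : 2 * m ^ 2 < p) {Λ : Finset (ZMod p)} {N σ x Y : ℕ}
    (hΛ : ∀ v ∈ V, ∀ w ∈ V, (v : ZMod p) / w ∈ Λ) (hN : Ic.HN p Λ N) (hσ : Span E z b u σ)
    (hx : 8 ≤ x) (hdeg : ∀ e ∈ E, x ≤ (E.filter fun f => z f = z e ∧ b f = b e).card)
    (hY : ∀ c s, (E.filter fun f => z f = c ∧ a f = s).card ≤ Y) :
    E.card * x ^ 3 ≤ 2 ^ 20 * Dm (3 * m ^ 4) ^ 2 * σ ^ 2 * N * Y := by
  rcases E.eq_empty_or_nonempty with rfl | ⟨e0, he0⟩
  · simp
  have hxσ := (hdeg e0 he0).trans (h.deg_le hV hσ _ _)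
  set D := Dm (3 * m ^ 4) with hD
  set X := x / 8 with hX
  set l := 16 * σ / x + 1 with hl
  have l0 : 1 ≤ l := Nat.le_add_left _ _
  have l1 : 16 * σ ≤ l * x := by
    rw [mul_comm l]
    exact (Nat.lt_mul_div_succ _ (by omega)).le
  have l2 : l * x ≤ 19 * σ := by
    have := Nat.div_mul_le_self (16 * σ) x
    rw [hl, add_mul]
    omega
  have l3 : 8 * (2 * σ / l) ≤ x := by
    have h1 := Nat.div_mul_le_self (2 * σ) l
    refine Nat.le_of_mul_le_mul_left (?_ : l * _ ≤ l * x) l0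
    nlinarith
  set P := E ×ˢ Ioc 0 X with hP
  have h1 : 2 * (P.filter fun t => ¬ Trip E z b u l t.1 t.2).card ≤ E.card * X := by
    have h2 : (P.filter fun t => ¬ Trip E z b u l t.1 t.2).card =
        ∑ q ∈ Ioc 0 X, (E.filter fun e => ¬ Trip E z b u l e q).card := by
      simp only [card_filter, hP]
      rw [sum_product_right]
    rw [h2, mul_sum]
    refine (sum_le_card_nsmul _ _ E.card fun q hq => ?_).trans (by simp [mul_comm])
    have := mem_Ioc.1 hq
    exact h.half hV hσ (by omega) l0 (by omega) hdeg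
  have h2 : 4 * (P.filter fun t => ¬ Int.gcd t.2 (a t.1) ≤ 4 * D).card ≤ E.card * X := by
    have h3 : (P.filter fun t => ¬ Int.gcd t.2 (a t.1) ≤ 4 * D).card =
        ∑ e ∈ E, ((Ioc 0 X).filter fun q : ℕ => ¬ Int.gcd q (a e) ≤ 4 * D).card := by
      simp only [card_filter, hP]
      rw [sum_product]
    rw [h3, mul_sum]
    exact (sum_le_card_nsmul _ _ X fun e he =>
      gcd_bad (h.swap.b0 hV he) (le_three' (h.ha e he)) le_rfl X).trans (by simp)
  have h3 := h.trip_le hV hp (L := 4 * D) (l := l) hΛ hN hY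
    (P.filter fun t => Trip E z b u l t.1 t.2 ∧ Int.gcd t.2 (a t.1) ≤ 4 * D) (by
      intro t ht
      simp only [hP, mem_filter, mem_product, mem_Ioc] at ht
      exact ⟨ht.1.1, ht.1.2.1, ht.2.1, ht.2.2⟩)
  rw [← hD] at h3
  have h4 := card_filter_add_card_filter_not (s := P)
    fun t => Trip E z b u l t.1 t.2 ∧ Int.gcd t.2 (a t.1) ≤ 4 * D
  have h5 : (P.filter fun t => ¬ (Trip E z b u l t.1 t.2 ∧ Int.gcd t.2 (a t.1) ≤ 4 * D)).card ≤
      (P.filter fun t => ¬ Trip E z b u l t.1 t.2).card +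
      (P.filter fun t => ¬ Int.gcd t.2 (a t.1) ≤ 4 * D).card := by
    refine le_trans (card_le_card fun t ht => ?_) (card_union_le _ _)
    simp only [mem_filter, mem_union] at ht ⊢
    tauto
  have h6 : P.card = E.card * X := by simp [hP]
  have h7 : E.card * X ≤ 4 * (2 * Y * D * (4 * D) * N * (2 * l) ^ 2) := by omega
  have h8 : x ≤ 16 * X := by omega
  calc E.card * x ^ 3 = E.card * x * x ^ 2 := by ring
    _ ≤ E.card * (16 * X) * x ^ 2 := by gcongr
    _ = 16 * (E.card * X) * x ^ 2 := by ring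
    _ ≤ 16 * (4 * (2 * Y * D * (4 * D) * N * (2 * l) ^ 2)) * x ^ 2 := by gcongr
    _ = 2048 * (D ^ 2 * N * Y) * (l * x) ^ 2 := by ring
    _ ≤ 2048 * (D ^ 2 * N * Y) * (19 * σ) ^ 2 := by gcongr
    _ = 739328 * (D ^ 2 * σ ^ 2 * N * Y) := by ring
    _ ≤ 2 ^ 20 * (D ^ 2 * σ ^ 2 * N * Y) := Nat.mul_le_mul_right _ (by norm_num)
    _ = _ := by ring

end Pool.Agent.MP_bd74a7_nt.Ce

end

section

/-!
The method of Stepanov for the equation `α u + β v = γ` in roots of unity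
(Garcia-Voloch, Heath-Brown-Konyagin).
-/

open Finset Polynomial

namespace Pool.Agent.MP_bd74a7_nt.Ce

variable {K : Type*} [Field K]

/-- Expansion at `x`: the outer variable goes to `x`, the inner one to `X - x`. -/
noncomputable def ev (x : K) : K[X][X] →+* K[X] :=
  eval₂RingHom (aeval (X - C x : K[X])).toRingHom (C x)

theorem ev_X (x : K) : ev x X = C x := by simp [ev]

theorem ev_C_X (x : K) : ev x (C X) = X - C x := by simp [ev]

theorem ev_C_C (x a : K) : ev x (C (C a)) = C a := by simp [ev]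

theorem step_aux {ι : Type*} [Fintype ι] (g : ι → K[X])
    (hne : ∀ e : ι → K, ∑ t, C (e t) * g t = 0 → e = 0) (Φ : ι → K[X][X]) {D M Dg : ℕ}
    (hΦ : ∀ i, (Φ i).natDegree ≤ D) (hcard : (D + 1) * M < Fintype.card ι)
    (hDg : ∀ i, (g i).natDegree ≤ Dg) (Z : Finset K)
    (hZ : ∀ x ∈ Z, ∀ i, (X - C x) ^ M ∣ g i - ev x (Φ i)) : Z.card * M ≤ Dg := by
  classical
  let T : (ι → K) →ₗ[K] (Fin (D + 1) × Fin M → K) :=
    { toFun := fun e p => ∑ t, e t * ((Φ t).coeff p.1).coeff p.2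
      map_add' := fun a b => by ext p; simp [add_mul, sum_add_distrib]
      map_smul' := fun c a => by ext p; simp [mul_sum, mul_assoc] }
  have hker : LinearMap.ker T ≠ ⊥ := LinearMap.ker_ne_bot_of_finrank_lt (by simpa using hcard)
  obtain ⟨e, he, he0⟩ := Submodule.exists_mem_ne_zero_of_ne_bot hker
  rw [LinearMap.mem_ker] at he
  set R : K[X] := ∑ t, C (e t) * g t with hR
  have hR0 : R ≠ 0 := fun h => he0 (hne e h)
  have hRd : R.natDegree ≤ Dg :=
    natDegree_sum_le_of_forall_le _ _ fun t _ => (natDegree_C_mul_le _ _).trans (hDg t)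
  set Ψ : K[X][X] := ∑ t, C (C (e t)) * Φ t with hΨ
  have hΨc : ∀ i, X ^ M ∣ Ψ.coeff i := by
    intro i
    rw [X_pow_dvd_iff]
    intro m hm
    simp only [hΨ, finsetSum_coeff, coeff_C_mul]
    by_cases hi : i < D + 1
    · exact congr_fun he (⟨i, hi⟩, ⟨m, hm⟩)
    · refine sum_eq_zero fun t _ => ?_
      rw [coeff_eq_zero_of_natDegree_lt (p := Φ t) (by have := hΦ t; omega)]
      simp
  have hdiv : ∀ x ∈ Z, (X - C x) ^ M ∣ R := by
    intro x hx
    have h1 : (X - C x) ^ M ∣ ev x Ψ := by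
      rw [ev, coe_eval₂RingHom, eval₂_eq_sum_range]
      refine dvd_sum fun i _ => Dvd.dvd.mul_right ?_ _
      obtain ⟨r, hr⟩ := hΨc i
      rw [hr]
      simp
    have h2 : R = ev x Ψ + ∑ t, C (e t) * (g t - ev x (Φ t)) := by
      rw [hΨ, map_sum, ← sum_add_distrib]
      refine sum_congr rfl fun t _ => ?_
      rw [map_mul, ev_C_C]
      ring
    rw [h2]
    exact dvd_add h1 (dvd_sum fun t _ => (hZ x hx t).mul_left _)
  have hle : M • Z.val ≤ R.roots := by
    rw [Multiset.le_iff_count]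
    intro x
    rw [Multiset.count_nsmul, count_roots]
    by_cases hx : x ∈ Z
    · rw [Multiset.count_eq_one_of_mem Z.nodup hx, mul_one]
      exact (le_rootMultiplicity_iff hR0).2 (hdiv x hx)
    · rw [Multiset.count_eq_zero_of_notMem hx]
      simp
  have := (Multiset.card_le_card hle).trans ((card_roots' R).trans hRd)
  simpa [mul_comm] using this

/-- A polynomial with few monomials does not vanish to high order at `1`. -/
theorem sparse {ι : Type*} [Fintype ι] (ex : ι → ℕ)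
    (hinj : Function.Injective fun i => (ex i : K)) (c : ι → K)
    (h : (X - C 1) ^ Fintype.card ι ∣ ∑ i, C (c i) * X ^ ex i) : c = 0 := by
  have h1 : ∀ j, (X - C 1) ^ (Fintype.card ι - j) ∣
      ∑ i, C (c i * (ex i : K) ^ j) * X ^ ex i := by
    intro j
    induction j with
    | zero => simpa using h
    | succ j ih =>
      have h2 := (pow_sub_one_dvd_derivative_of_pow_dvd ih).mul_left X
      rw [derivative_sum, mul_sum] at h2
      rw [← Nat.sub_sub]
      convert h2 using 2 with i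
      rw [derivative_C_mul, derivative_X_pow]
      rcases ex i with _ | n
      · simp
      · simp only [Nat.add_sub_cancel, pow_succ, C_mul]
        ring
  let e := Fintype.equivFin ι
  have h2 := Matrix.eq_zero_of_forall_pow_sum_mul_pow_eq_zero (v := fun k => c (e.symm k))
    (hinj.comp e.symm.injective) fun j => by
      have h3 := (dvd_pow_self _ (by have := j.2; omega)).trans (h1 j)
      rw [dvd_iff_isRoot, IsRoot, eval_finsetSum] at h3
      simp only [eval_mul, eval_C, eval_pow, eval_X, one_pow, mul_one] at h3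
      rw [← h3]
      exact Equiv.sum_comp e.symm fun i => c i * (ex i : K) ^ (j : ℕ)
  funext i
  simpa using congrFun h2 (e i)

theorem layers {B t : ℕ} (Q : Fin B → K[X]) (hQ : ∀ c, (X - C 1) ^ t ∣ Q c → Q c = 0)
    (h : ∑ c : Fin B, ((X - C 1) ^ t) ^ (c : ℕ) * Q c = 0) (c : Fin B) : Q c = 0 := by
  induction B with
  | zero => exact c.elim0
  | succ B ih =>
    rw [Fin.sum_univ_succ] at h
    simp only [Fin.val_zero, pow_zero, one_mul, Fin.val_succ, pow_succ', mul_assoc,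
      ← mul_sum] at h
    have h0 : Q 0 = 0 := hQ 0 ⟨_, by rw [mul_neg]; exact eq_neg_of_add_eq_zero_left h⟩
    rw [h0, zero_add] at h
    refine Fin.cases h0 (ih (fun c => Q c.succ) (fun c => hQ c.succ) ?_) c
    exact (mul_eq_zero.1 h).resolve_left (pow_ne_zero _ (X_sub_C_ne_zero 1))

/-- The first `M` terms of the binomial expansion. -/
noncomputable def tr (θ : K) (n r M : ℕ) : K[X][X] :=
  ∑ j ∈ range M, C (X ^ j * (n.choose j : K[X])) * (X - C (C θ)) ^ (r - j)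

theorem tr_deg (θ : K) (n r M : ℕ) : (tr θ n r M).natDegree ≤ r := by
  refine natDegree_sum_le_of_forall_le _ _ fun j _ => (natDegree_C_mul_le _ _).trans
    (natDegree_pow_le.trans ?_)
  rw [natDegree_X_sub_C]
  omega

theorem tr_dvd (θ x c : K) {t b r M : ℕ} (hr : M ≤ r) (hx : (x - θ) ^ t = c) :
    (X - C x) ^ M ∣ (X - C θ) ^ (t * b + r) - C (c ^ b) * ev x (tr θ (t * b + r) r M) := by
  have h1 : (X - C θ : K[X]) = (X - C x) + C (x - θ) := by
    rw [C_sub]
    ring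
  have h2 : C (c ^ b) * ev x (tr θ (t * b + r) r M) = ∑ j ∈ range M,
      (X - C x) ^ j * C (x - θ) ^ (t * b + r - j) * ((t * b + r).choose j : K[X]) := by
    rw [tr, map_sum, mul_sum]
    refine sum_congr rfl fun j hj => ?_
    have := mem_range.1 hj
    rw [show t * b + r - j = t * b + (r - j) by omega, pow_add, pow_mul, ← C_pow, hx]
    simp only [map_mul, map_pow, map_natCast, map_sub, ev_X, ev_C_X, ev_C_C]
    ring
  rw [h2, h1, add_pow, ← sum_range_add_sum_Ico _ (by omega : M ≤ t * b + r + 1),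
    add_sub_cancel_left]
  exact dvd_sum fun j hj =>
    ((pow_dvd_pow _ (mem_Ico.1 hj).1).mul_right _).mul_right _

theorem step_count {p : ℕ} [Fact p.Prime] {t A B M : ℕ} (hA : A * B ≤ t) (hp : t * B ≤ p)
    (hc : (A + 2 * M + 1) * M < A * B * B) (c1 c2 : ZMod p) (S : Finset (ZMod p))
    (hS : ∀ x ∈ S, x ^ t = c1 ∧ (x - 1) ^ t = c2) : S.card * M ≤ A + 2 * (t * B + M) := by
  refine step_aux (ι := Fin B × Fin A × Fin B) (D := A + 2 * M)
    (fun i => (X - C 0) ^ (t * i.2.2 + (i.2.1 + M)) * (X - C 1) ^ (t * i.1 + M)) ?_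
    (fun i => C (C (c1 ^ (i.2.2 : ℕ))) * tr 0 (t * i.2.2 + (i.2.1 + M)) (i.2.1 + M) M *
      (C (C (c2 ^ (i.1 : ℕ))) * tr 1 (t * i.1 + M) M M)) ?_ (by simpa [mul_comm] using hc) ?_ S ?_
  · intro e he
    have hX : (X * (X - C 1) : (ZMod p)[X]) ^ M ≠ 0 :=
      pow_ne_zero _ (mul_ne_zero X_ne_zero (X_sub_C_ne_zero 1))
    have h1 : ∑ c : Fin B, ((X - C 1) ^ t) ^ (c : ℕ) *
        ∑ i : Fin A × Fin B, C (e (c, i)) * X ^ (t * i.2 + i.1) = 0 := by
      apply mul_left_cancel₀ hX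
      rw [mul_zero, ← he, Fintype.sum_prod_type, mul_sum]
      refine sum_congr rfl fun c _ => ?_
      rw [mul_sum, mul_sum]
      refine sum_congr rfl fun i _ => ?_
      rw [C_0, sub_zero, mul_pow]
      ring
    have h2 : ∀ c : Fin B, (X - C 1) ^ t ∣
        ∑ i : Fin A × Fin B, C (e (c, i)) * X ^ (t * i.2 + i.1) → (fun i => e (c, i)) = 0 := by
      intro c h
      have hlt : ∀ i : Fin A × Fin B, (i.1 : ℕ) < t ∧ t * i.2 + i.1 < p := by
        intro i
        have a1 := i.1.2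
        have a2 := i.2.2
        have a3 : A ≤ t := le_trans (Nat.le_mul_of_pos_right _ (by omega)) hA
        have a4 : t * (i.2 + 1) ≤ t * B := Nat.mul_le_mul_left _ a2
        rw [mul_add] at a4
        omega
      refine sparse (fun i : Fin A × Fin B => t * i.2 + i.1) ?_ _
        ((pow_dvd_pow _ (by simpa using hA)).trans h)
      intro i j hij
      have h3 := (ZMod.natCast_eq_natCast_iff' _ _ _).1 hij
      rw [Nat.mod_eq_of_lt (hlt i).2, Nat.mod_eq_of_lt (hlt j).2] at h3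
      have h4 := congrArg (· % t) h3
      simp only [Nat.mul_add_mod, Nat.mod_eq_of_lt (hlt i).1, Nat.mod_eq_of_lt (hlt j).1] at h4
      have h5 : t * i.2 = t * j.2 := by omega
      exact Prod.ext (Fin.ext h4) (Fin.ext (Nat.eq_of_mul_eq_mul_left
        (by have := (hlt i).1; omega) h5))
    funext ⟨c, i⟩
    refine congrFun (h2 c ?_) i
    rw [layers _ (fun c h => ?_) h1 c]
    · exact dvd_zero _
    · simp only [congrFun (h2 c h), Pi.zero_apply, C_0, zero_mul, sum_const_zero]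
  · intro i
    have h1 := (natDegree_C_mul_le (C (c1 ^ (i.2.2 : ℕ))) _).trans
      (tr_deg (0 : ZMod p) (t * i.2.2 + (i.2.1 + M)) (i.2.1 + M) M)
    have h2 := (natDegree_C_mul_le (C (c2 ^ (i.1 : ℕ))) _).trans
      (tr_deg (1 : ZMod p) (t * i.1 + M) M M)
    have h3 := i.2.1.2
    exact natDegree_mul_le.trans (by omega)
  · intro i
    refine natDegree_mul_le.trans ?_
    rw [natDegree_pow, natDegree_pow, natDegree_X_sub_C, natDegree_X_sub_C]
    have h1 : t * i.2.2 ≤ t * B := Nat.mul_le_mul_left _ i.2.2.2.le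
    have h2 : t * i.1 ≤ t * B := Nat.mul_le_mul_left _ i.1.2.le
    have h3 := i.2.1.2
    omega
  · intro x hx i
    have h1 := tr_dvd 0 x c1 (t := t) (b := i.2.2) (r := i.2.1 + M) (M := M) (by omega)
      (by rw [sub_zero, (hS x hx).1])
    have h2 := tr_dvd 1 x c2 (b := i.1) (le_refl M) (hS x hx).2
    simp only [map_mul (ev x), ev_C_C]
    convert dvd_add (h1.mul_right ((X - C 1) ^ (t * i.1 + M))) (h2.mul_left
      (C (c1 ^ (i.2.2 : ℕ)) * ev x (tr 0 (t * i.2.2 + (i.2.1 + M)) (i.2.1 + M) M))) using 1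
    ring

theorem step_cube {p : ℕ} [Fact p.Prime] {t : ℕ} (ht : 1 ≤ t) (hp : t ^ 4 ≤ p ^ 3)
    (c1 c2 : ZMod p) (S : Finset (ZMod p)) (hS : ∀ x ∈ S, x ^ t = c1 ∧ (x - 1) ^ t = c2) :
    S.card ^ 3 ≤ 64000 * t ^ 2 := by
  classical
  obtain ⟨B, h1, h2⟩ : ∃ B, B ^ 3 ≤ t ∧ t < (B + 1) ^ 3 := by
    have h0 : ∃ n, t < (n + 1) ^ 3 := ⟨t, (Nat.lt_succ_self t).trans_le
      (Nat.le_self_pow (by norm_num) _)⟩
    refine ⟨Nat.find h0, ?_, Nat.find_spec h0⟩
    rcases h3 : Nat.find h0 with _ | n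
    · simp
    · exact not_lt.1 (Nat.find_min h0 (by omega))
  by_cases hB : B < 2
  · have h3 : t < 8 := h2.trans_le (Nat.pow_le_pow_left (by omega : B + 1 ≤ 2) 3)
    have h4 : S.card ≤ t := by
      have h5 : S.val ≤ (X ^ t - C c1 : (ZMod p)[X]).roots := by
        refine Finset.val_le_iff_val_subset.2 fun x hx => ?_
        rw [mem_roots (X_pow_sub_C_ne_zero ht c1)]
        simp [(hS x hx).1]
      exact (Multiset.card_le_card h5).trans ((card_roots' _).trans natDegree_X_pow_sub_C.le)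
    calc S.card ^ 3 ≤ t ^ 3 := Nat.pow_le_pow_left h4 3
      _ = t * t ^ 2 := by ring
      _ ≤ _ := Nat.mul_le_mul_right _ (by omega)
  have h3 : t * B ≤ p := by
    refine (Nat.pow_le_pow_iff_left (by norm_num : 3 ≠ 0)).1 (le_trans ?_ hp)
    rw [mul_pow, pow_succ t 3]
    exact Nat.mul_le_mul_left _ h1
  have h4 : 4 ≤ B * B := Nat.mul_le_mul (by omega : 2 ≤ B) (by omega : 2 ≤ B)
  have h5 := step_count (A := B * B) (B := B) (M := B * B / 3) (by rw [← sq, ← pow_succ]; exact h1)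
    h3 (by
      rw [mul_assoc (B * B)]
      generalize B * B = n at h4
      calc (n + 2 * (n / 3) + 1) * (n / 3) ≤ (2 * n) * (n / 3) :=
            Nat.mul_le_mul_right _ (by omega)
        _ = n * (2 * (n / 3)) := by ring
        _ < n * n := Nat.mul_lt_mul_of_pos_left (by omega) (by omega)) c1 c2 S hS
  have h6 : B ≤ t := (Nat.le_self_pow (by norm_num) _).trans h1
  have h7 : B * B ≤ t * B := Nat.mul_le_mul_right _ h6
  have h8 : S.card * B ≤ 20 * t := by
    refine Nat.le_of_mul_le_mul_right ?_ (by omega : 0 < B)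
    calc S.card * B * B = S.card * (B * B) := by ring
      _ ≤ S.card * (5 * (B * B / 3)) := Nat.mul_le_mul_left _ (by omega)
      _ = 5 * (S.card * (B * B / 3)) := by ring
      _ ≤ 20 * (t * B) := by omega
      _ = _ := by ring
  refine Nat.le_of_mul_le_mul_right ?_ ht
  calc S.card ^ 3 * t ≤ S.card ^ 3 * (2 * B) ^ 3 :=
        Nat.mul_le_mul_left _ (h2.le.trans (Nat.pow_le_pow_left (by omega) 3))
    _ = 8 * (S.card * B) ^ 3 := by ring
    _ ≤ 8 * (20 * t) ^ 3 := by gcongr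
    _ = _ := by ring

theorem hn_step {p : ℕ} [Fact p.Prime] {t : ℕ} (ht : 1 ≤ t) (hp : t ^ 4 ≤ p ^ 3)
    (Λ : Finset (ZMod p)) (hΛ : ∀ x ∈ Λ, x ^ t = 1) :
    ∃ N : ℕ, N ^ 3 ≤ 64000 * t ^ 2 ∧ Ic.HN p Λ N := by
  classical
  refine ⟨Nat.findGreatest (fun n => n ^ 3 ≤ 64000 * t ^ 2) (64000 * t ^ 2),
    Nat.findGreatest_spec (P := fun n => n ^ 3 ≤ 64000 * t ^ 2) (Nat.zero_le _) (by simp),
    fun α β γ ha hb hc => ?_⟩
  have h1 := step_cube ht hp ((α / γ) ^ t) ((-β / γ) ^ t)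
    (((Λ ×ˢ Λ).filter fun x => α * x.1 + β * x.2 = γ).image fun x => α / γ * x.1) (by
      intro y hy
      obtain ⟨x, hx, rfl⟩ := mem_image.1 hy
      simp only [mem_filter, mem_product] at hx
      have h2 : α / γ * x.1 - 1 = -β / γ * x.2 := by
        field_simp
        linear_combination hx.2
      rw [h2, mul_pow, mul_pow, hΛ _ hx.1.1, hΛ _ hx.1.2, mul_one, mul_one]
      exact ⟨rfl, rfl⟩)
  rw [card_image_of_injOn] at h1
  · exact Nat.le_findGreatest ((Nat.le_self_pow (by norm_num) _).trans h1) h1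
  · intro x hx y hy hxy
    simp only [coe_filter, Set.mem_ofPred_eq] at hx hy
    have h2 := mul_left_cancel₀ (div_ne_zero ha hc) hxy
    refine Prod.ext h2 (mul_left_cancel₀ hb ?_)
    rw [h2] at hx
    linear_combination hx.2 - hy.2

end Pool.Agent.MP_bd74a7_nt.Ce

end
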