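import Mathlib
import Pool.Agent.Mg.Fbd74a7ap.Gf653fe
import Pool.Agent.Mg.Fbd74a7ap.Gce7d9f

set_option linter.all false

section

open Finset
namespace Pool.Agent.MP_bd74a7_nt.Ic

theorem icFew_ev {K : Type} [Field K] (R : MvPolynomial (Fin 2) K) (z t : K) :
    (MvPolynomial.aeval ![Polynomial.X, Polynomial.C t] R).eval z =
      MvPolynomial.eval ![z, t] R := by
  induction R using MvPolynomial.induction_on with
  | C a => simp
  | add p q hp hq => simp [hp, hq]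
  | mul_X p i hp => fin_cases i <;> simp [hp]

theorem icFew_evL {K : Type} [Field K] (R : MvPolynomial (Fin 2) K) (l : K × K × K) (t : K) :
    (evL l (MvPolynomial.rename Fin.succ R)).eval t = MvPolynomial.eval ![l.2.2, t] R := by
  induction R using MvPolynomial.induction_on with
  | C a => simp [evL]
  | add p q hp hq => rw [map_add, map_add, Polynomial.eval_add, hp, hq, map_add]
  | mul_X p i hp =>
    rw [map_mul, map_mul, Polynomial.eval_mul, hp, map_mul]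
    fin_cases i <;> simp [evL]

theorem icFew_W {K : Type} [Field K] [Infinite K] (R : MvPolynomial (Fin 2) K) (hR : R ≠ 0)
    (d : ℕ) (hd : ∀ t : K, (MvPolynomial.aeval ![Polynomial.X, Polynomial.C t] R).natDegree ≤ d)
    (L : Finset (K × K × K)) (hL : DisL L)
    (h : ∀ l ∈ L, evL l (MvPolynomial.rename Fin.succ R) = 0) : L.card ≤ d := by
  classical
  obtain ⟨x, hx⟩ : ∃ x : Fin 2 → K, MvPolynomial.eval x R ≠ 0 := by
    by_contra h0
    exact hR (MvPolynomial.funext fun x => by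
      rw [map_zero]
      by_contra h1
      exact h0 ⟨x, h1⟩)
  have hF : MvPolynomial.aeval ![Polynomial.X, Polynomial.C (x 1)] R ≠ 0 := fun e => by
    have h1 := icFew_ev R (x 0) (x 1)
    have h2 : ![x 0, x 1] = x := by
      funext i
      fin_cases i <;> rfl
    rw [e, h2, Polynomial.eval_zero] at h1
    exact hx h1.symm
  rw [← Finset.card_image_of_injOn (f := fun l : K × K × K => l.2.2)
    fun l hl l' hl' e => hL l hl l' hl' e]
  refine (Polynomial.card_le_degree_of_subset_roots fun z hz => ?_).trans (hd (x 1))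
  obtain ⟨l, hl, rfl⟩ := Finset.mem_image.1 (show z ∈ L.image (fun l => l.2.2) from hz)
  rw [Polynomial.mem_roots hF, Polynomial.IsRoot, icFew_ev, ← icFew_evL, h l hl,
    Polynomial.eval_zero]

theorem few_thm (hE : ElimStmt) : FewStmt := by
  intro K _ _ P Q hP hQ L hL h
  obtain ⟨R, hR, hd, A, B, e⟩ := hE K P Q hP hQ
  refine icFew_W R hR _ (fun t => ?_) L hL fun l hl => ?_
  · refine (MvPolynomial.aeval_natDegree_le R hd _ (n := 1) fun i => ?_).trans (mul_one _).le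
    fin_cases i <;> simp
  · rw [← e, map_add, map_mul, map_mul, (h l hl).1, (h l hl).2, mul_zero, mul_zero, add_zero]

theorem free_thm : FreeStmt := by
  intro K _ _ P hP hC h0 L hL h
  classical
  have hv : (0 : Fin 3) ∉ P.vars := fun hv => by
    obtain ⟨s, hs, h1⟩ := (MvPolynomial.mem_vars_iff_mem_support _).1 hv
    have h2 : 1 ≤ s 0 := Nat.one_le_iff_ne_zero.2 (Finsupp.mem_support_iff.1 h1)
    have h3 : s 0 ≤ P.totalDegree :=
      (Finsupp.le_degree 0 s).trans (MvPolynomial.le_totalDegree hs)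
    have h4 := MvPolynomial.coeff_pderiv (i := 0) P (s - Finsupp.single 0 1)
    rw [h0, MvPolynomial.coeff_zero,
      tsub_add_cancel_of_le (Finsupp.single_le_iff.2 h2), ← Nat.cast_succ, Finsupp.tsub_apply,
      Finsupp.single_eq_same, Nat.succ_eq_add_one, Nat.sub_add_cancel h2] at h4
    exact mul_ne_zero (MvPolynomial.mem_support_iff.1 hs) (hC _ h2 h3) h4.symm
  obtain ⟨R, rfl⟩ := MvPolynomial.exists_rename_eq_of_vars_subset_range P Fin.succ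
    (Fin.succ_injective _) fun i hi => by
      refine Fin.cases (fun hi => absurd hi hv) (fun j _ => ⟨j, rfl⟩) i hi
  refine icFew_W R (fun e => hP (by rw [e, map_zero])) _ (fun t => ?_) L hL h
  have e : MvPolynomial.aeval ![Polynomial.X, Polynomial.C t] R =
      MvPolynomial.aeval ![0, Polynomial.X, Polynomial.C t] (MvPolynomial.rename Fin.succ R) := by
    rw [MvPolynomial.aeval_rename]
    rfl
  rw [e]
  refine (MvPolynomial.aeval_natDegree_le _ le_rfl _ (n := 1) fun i => ?_).trans (mul_one _).le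
  fin_cases i <;> simp

end Pool.Agent.MP_bd74a7_nt.Ic

end

section

open Finset

namespace Pool.Agent.MP_bd74a7_nt.Ic

section

variable {K : Type} [Field K]

theorem icOne_mono_left {L L' : Finset (K × K × K)} (h : L ⊆ L') (M : Finset (K × K × K)) :
    inc L M ≤ inc L' M := by
  classical
  unfold inc
  apply card_le_card
  intro x hx
  rw [mem_filter, mem_product] at hx ⊢
  exact ⟨⟨h hx.1.1, hx.1.2⟩, hx.2⟩

theorem icOne_le_mul (L M : Finset (K × K × K)) : inc L M ≤ L.card * M.card := by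
  classical
  unfold inc
  exact (card_filter_le _ _).trans (card_product _ _).le

theorem icOne_split (L : Finset (K × K × K)) {M M1 M2 : Finset (K × K × K)}
    (h : ∀ m ∈ M, m ∈ M1 ∨ m ∈ M2) : inc L M ≤ inc L M1 + inc L M2 := by
  classical
  unfold inc
  refine le_trans (card_le_card ?_) (card_union_le _ _)
  intro x hx
  rw [mem_filter, mem_product] at hx
  rw [mem_union, mem_filter, mem_filter, mem_product, mem_product]
  rcases h _ hx.1.2 with h1 | h1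
  · exact Or.inl ⟨⟨hx.1.1, h1⟩, hx.2⟩
  · exact Or.inr ⟨⟨hx.1.1, h1⟩, hx.2⟩

theorem icOne_empty (L : Finset (K × K × K)) : inc L ∅ = 0 := by
  have := icOne_le_mul L (∅ : Finset (K × K × K))
  simpa using this

omit [Field K] in
theorem icOne_disM {M M' : Finset (K × K × K)} (h : DisM M) (hs : M' ⊆ M) : DisM M' :=
  fun m hm m' hm' e => h m (hs hm) m' (hs hm') e

omit [Field K] in
theorem icOne_disL {L L' : Finset (K × K × K)} (h : DisL L) (hs : L' ⊆ L) : DisL L' :=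
  fun m hm m' hm' e => h m (hs hm) m' (hs hm') e

theorem icOne_col {L L' : Finset (K × K × K)} {k : ℕ} (h : Col L k) (hs : L' ⊆ L) : Col L' k :=
  fun p q hpq S hS hr => h p q hpq S (hS.trans hs) hr

theorem icOne_ch {d d' : ℕ} (h : Ch K d) (hd : d' ≤ d) : Ch K d' :=
  fun j h1 h2 => h j h1 (h2.trans hd)

theorem icOne_peel (L : Finset (K × K × K)) (c X Y : ℕ) (j : ℕ) :
    ∀ M : Finset (K × K × K), (∀ M' : Finset (K × K × K), M' ⊆ M → M'.card ≤ c →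
      inc L M' ≤ X + Y * M'.card) → M.card ≤ j * c → inc L M ≤ j * X + Y * M.card := by
  classical
  induction j with
  | zero =>
    intro M _ hM
    have : M = ∅ := card_eq_zero.mp (by omega)
    subst this
    rw [icOne_empty]
    exact Nat.zero_le _
  | succ j ih =>
    intro M h hM
    obtain ⟨M1, h1, hc⟩ := exists_subset_card_eq (s := M) (n := min c M.card) (min_le_right _ _)
    have hcard : (M \ M1).card + M1.card = M.card := card_sdiff_add_card_eq_card h1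
    have h2 : inc L (M \ M1) ≤ j * X + Y * (M \ M1).card := by
      refine ih _ (fun M' hM' hc' => h M' (hM'.trans sdiff_subset) hc') ?_
      have e : (j + 1) * c = j * c + c := by ring
      rcases le_total c M.card with h3 | h3
      · rw [min_eq_left h3] at hc
        omega
      · rw [min_eq_right h3] at hc
        omega
    have h3 : inc L M1 ≤ X + Y * M1.card := h M1 h1 (hc ▸ min_le_left _ _)
    have h4 : inc L M ≤ inc L (M \ M1) + inc L M1 := by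
      refine icOne_split L fun m hm => ?_
      by_cases h5 : m ∈ M1
      · exact Or.inr h5
      · exact Or.inl (mem_sdiff.mpr ⟨hm, h5⟩)
    rw [← hcard]
    nlinarith

end

theorem one_thm (hP : PrimeStmt) : OneStmt := by
  intro K _ _ L M k P hL hM hC hk hP0 hCh hev
  classical
  induction P using UniqueFactorizationMonoid.induction_on_prime generalizing M with
  | h₁ => exact absurd rfl hP0
  | h₂ P hu =>
    have hM0 : M = ∅ := by
      rw [eq_empty_iff_forall_notMem]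
      intro m hm
      have h1 := hu.map (evM m)
      rw [hev m hm] at h1
      exact not_isUnit_zero h1
    subst hM0
    refine ⟨∅, empty_subset _, by simp, ?_⟩
    rw [icOne_empty]
    exact Nat.zero_le _
  | h₃ Q π hQ hπ ih =>
    have hdeg : (π * Q).totalDegree = π.totalDegree + Q.totalDegree :=
      MvPolynomial.totalDegree_mul_of_isDomain hπ.ne_zero hQ
    rw [hdeg] at hCh ⊢
    obtain ⟨L1, hL1, hc1, hi1⟩ := hP K L (M.filter fun m => evM m π = 0) k π hL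
      (icOne_disM hM (filter_subset _ _)) hC hk hπ (icOne_ch hCh (Nat.le_add_right _ _))
      (fun m hm => (mem_filter.mp hm).2)
    obtain ⟨L2, hL2, hc2, hi2⟩ := ih (M.filter fun m => ¬ evM m π = 0)
      (icOne_disM hM (filter_subset _ _)) hQ (icOne_ch hCh (Nat.le_add_left _ _))
      (fun m hm => by
        have h1 := hev m (mem_filter.mp hm).1
        rw [map_mul, mul_eq_zero] at h1
        exact h1.resolve_left (mem_filter.mp hm).2)
    have hcard := card_filter_add_card_filter_not (s := M) (fun m => evM m π = 0)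
    refine ⟨L1 ∪ L2, union_subset hL1 hL2, ?_, ?_⟩
    · have := card_union_le L1 L2
      nlinarith [Nat.zero_le (π.totalDegree * Q.totalDegree)]
    · have h1 : inc L M ≤ inc L (M.filter fun m => evM m π = 0) +
          inc L (M.filter fun m => ¬ evM m π = 0) := by
        refine icOne_split L fun m hm => ?_
        by_cases h5 : evM m π = 0
        · exact Or.inl (mem_filter.mpr ⟨hm, h5⟩)
        · exact Or.inr (mem_filter.mpr ⟨hm, h5⟩)
      have h2 := icOne_mono_left (subset_union_left : L1 ⊆ L1 ∪ L2)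
        (M.filter fun m => evM m π = 0)
      have h3 := icOne_mono_left (subset_union_right : L2 ⊆ L1 ∪ L2)
        (M.filter fun m => ¬ evM m π = 0)
      have h4 : inc (L1 ∪ L2) (M.filter fun m => evM m π = 0) +
          inc (L1 ∪ L2) (M.filter fun m => ¬ evM m π = 0) ≤ inc (L1 ∪ L2) M := by
        unfold inc
        rw [← card_union_of_disjoint]
        · apply card_le_card
          intro x hx
          rw [mem_union, mem_filter, mem_filter, mem_product, mem_product] at hx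
          rw [mem_filter, mem_product]
          rcases hx with hx | hx
          · exact ⟨⟨hx.1.1, (mem_filter.mp hx.1.2).1⟩, hx.2⟩
          · exact ⟨⟨hx.1.1, (mem_filter.mp hx.1.2).1⟩, hx.2⟩
        · rw [disjoint_left]
          intro x hx hx'
          rw [mem_filter, mem_product] at hx hx'
          exact (mem_filter.mp hx'.1.2).2 (mem_filter.mp hx.1.2).2
      rw [← hcard]
      nlinarith

theorem inc_thm (hO : OneStmt) (hI : InterpStmt) : IncStmt := by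
  intro K _ _ r k
  induction r using Nat.strong_induction_on with
  | _ r ih =>
    intro L M hL hM hC hk hLc hMc hCh
    rcases lt_or_ge r 16 with hr | hr
    · have h1 := icOne_le_mul L M
      have h2 : L.card * M.card ≤ 4 ^ r * 4 ^ r := Nat.mul_le_mul hLc hMc
      have h3 : 4 ^ r * 4 ^ r = 2 ^ r * 8 ^ r := by
        rw [← mul_pow, ← mul_pow]
        norm_num
      have h4 : 2 ^ r ≤ 2 ^ 22 := Nat.pow_le_pow_right (by norm_num) (by omega)
      have h5 : 2 ^ r * 8 ^ r ≤ 2 ^ 22 * 8 ^ r := Nat.mul_le_mul_right _ h4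
      omega
    · obtain ⟨s, rfl⟩ : ∃ s, r = s + 16 := ⟨r - 16, by omega⟩
      have e4 : 4 ^ s = (2 ^ s) ^ 2 := by
        rw [← pow_mul, mul_comm, pow_mul]; norm_num
      have e8 : 8 ^ s = (2 ^ s) ^ 3 := by
        rw [← pow_mul, mul_comm, pow_mul]; norm_num
      have key := icOne_peel L (4 ^ s) (2 ^ 22 * 8 ^ (s + 5) + 18 * 2 ^ s * 4 ^ (s + 16))
        ((s + 16) * k) (4 ^ 16) M (fun M' hM' hc' => by
          obtain ⟨P, hP0, hd, hev⟩ := hI K M' (2 * 2 ^ s) (by rw [e4] at hc'; nlinarith)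
          have hd2 : P.totalDegree ≤ 2 ^ (s + 16) := by
            rw [pow_add]; omega
          obtain ⟨L', hL', hc1, hi1⟩ := hO K L M' k P hL (icOne_disM hM hM') hC hk hP0
            (icOne_ch hCh hd2) hev
          have hsq : P.totalDegree ^ 2 ≤ (6 * 2 ^ s) ^ 2 := Nat.pow_le_pow_left (by omega) 2
          have hc2 : L'.card ≤ 4 ^ (s + 5) := by
            rw [pow_add, e4]; nlinarith
          have hc3 : M'.card ≤ 4 ^ (s + 5) := by
            rw [pow_add]; omega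
          have h2 := ih (s + 5) (by omega) L' M' (icOne_disL hL hL') (icOne_disM hM hM')
            (icOne_col hC hL') hk hc2 hc3
            (icOne_ch hCh (Nat.pow_le_pow_right (by norm_num) (by omega)))
          have h3 : 3 * P.totalDegree * L.card ≤ 18 * 2 ^ s * 4 ^ (s + 16) :=
            Nat.mul_le_mul (by omega) hLc
          have h4 : (s + 5) * k * M'.card + k * M'.card ≤ (s + 16) * k * M'.card := by
            nlinarith [Nat.zero_le (k * M'.card)]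
          omega) (by rw [mul_comm, ← pow_add]; exact hMc)
      have h5 : 4 ^ 16 * (2 ^ 22 * 8 ^ (s + 5) + 18 * 2 ^ s * 4 ^ (s + 16)) ≤
          2 ^ 22 * 8 ^ (s + 16) := by
        rw [pow_add, pow_add, pow_add, e4, e8]
        nlinarith [Nat.zero_le ((2 ^ s) ^ 3)]
      omega

end Pool.Agent.MP_bd74a7_nt.Ic

end

section

open Finset

namespace Pool.Agent.MP_bd74a7_nt.Ic

theorem icClassB_basic {p m : ℕ} [Fact p.Prime] {V : Finset ℤ} (hV : Short p V m)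
    (hp : 2 * m ^ 2 < p) {a : ℤ × ℤ × ℤ × ℤ} (h : Gd p V a) :
    qA a ≠ 0 ∧ qB a ≠ 0 ∧ qs a ≤ m := by
  obtain ⟨h0, h1, h2, h3, hr, hc⟩ := h
  have hp' : 2 * (m : ℤ) ^ 2 < p := by exact_mod_cast hp
  have hm2 : (m : ℤ) ≤ m ^ 2 := by exact_mod_cast Nat.le_self_pow (by norm_num) m
  have d1 := hV.diam _ h1 _ h0
  have d2 := hV.diam _ h3 _ h2
  have hc' : |qc a| < p := by
    unfold qc
    rw [abs_le] at d1 d2
    rw [abs_lt]
    constructor <;> linarith [d1.1, d1.2, d2.1, d2.2]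
  have hA : qA a ≠ 0 := by
    intro hA
    apply hc
    refine eq_zero_of_cast (p := p) ?_ hc'
    apply mul_left_cancel₀ (hV.nz _ h0)
    have e : a.2.1 = a.1 := by
      unfold qA at hA
      omega
    unfold qc
    rw [e] at hr ⊢
    push_cast
    linear_combination hr
  have hB : qB a ≠ 0 := by
    intro hB
    apply hc
    refine eq_zero_of_cast (p := p) ?_ hc'
    apply mul_left_cancel₀ (hV.nz _ h0)
    have e : a.2.2.1 = a.1 := by
      unfold qB at hB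
      omega
    unfold qc
    rw [e] at hr ⊢
    push_cast
    linear_combination hr
  have hd : qs a ∣ Int.gcd (qA a) (qc a) := Nat.div_dvd_of_dvd (Nat.gcd_dvd_left _ _)
  have hd' : (qs a : ℤ) ∣ qA a := (Int.natCast_dvd_natCast.2 hd).trans (Int.gcd_dvd_left _ _)
  refine ⟨hA, hB, ?_⟩
  have h5 := Int.le_of_dvd (abs_pos.2 hA) ((dvd_abs _ _).2 hd')
  have h6 : (qs a : ℤ) ≤ m := h5.trans d1
  exact_mod_cast h6

theorem icClassB_arith {x J W : ℕ} (h : x ^ 2 ≤ J * (x + W)) :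
    x ≤ 2 * J ∨ x ^ 2 ≤ 2 * J * W := by
  rcases le_or_gt x (2 * J) with h1 | h1
  · exact Or.inl h1
  · right
    nlinarith [Nat.mul_le_mul_right x h1.le]

theorem icClassB_gcd (a : ℤ × ℤ × ℤ × ℤ) :
    Int.gcd (qA a) (a.2.2.2 - a.2.2.1) = qg a * qs a := by
  have h1 : Int.gcd (qA a) (qc a) = Int.gcd (qA a) (a.2.2.2 - a.2.2.1) := by
    rw [← Int.gcd_add_self_right]
    congr 1
    unfold qA qc
    ring
  rw [← h1]
  exact (Nat.mul_div_cancel' (Nat.gcd_dvd_left _ _)).symm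

/-- The last entry is determined by the first three. -/
theorem icClassB_last {p m : ℕ} [Fact p.Prime] {V : Finset ℤ} (hV : Short p V m)
    (hp : m < p) {a b : ℤ × ℤ × ℤ × ℤ} (ha : Gd p V a) (hb : Gd p V b) (e0 : a.1 = b.1)
    (e1 : a.2.1 = b.2.1) (e2 : a.2.2.1 = b.2.2.1) : a = b := by
  obtain ⟨a0, -, -, a3, ar, -⟩ := ha
  obtain ⟨-, -, -, b3, br, -⟩ := hb
  have e3 : a.2.2.2 - b.2.2.2 = 0 := by
    refine eq_zero_of_cast (p := p) ?_ ((hV.diam _ a3 _ b3).trans_lt (by exact_mod_cast hp))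
    apply mul_left_cancel₀ (hV.nz _ a0)
    rw [← e0, ← e1, ← e2] at br
    push_cast
    linear_combination ar - br
  exact Prod.ext e0 (Prod.ext e1 (Prod.ext e2 (sub_eq_zero.1 e3)))

/-- Two quadruples in the same class have proportional first differences. -/
theorem icClassB_prop {p m : ℕ} [Fact p.Prime] {V : Finset ℤ} (hV : Short p V m)
    (hp : 2 * m ^ 2 < p) {a b : ℤ × ℤ × ℤ × ℤ} (ha : Gd p V a) (hb : Gd p V b) (e0 : a.1 = b.1)
    (e2 : a.2.2.1 = b.2.2.1) (eg : qg a = qg b) (es : 0 < qA a ↔ 0 < qA b) (sa : 1 ≤ qs a)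
    (sb : 1 ≤ qs b) : (qs a : ℤ) * qA b = qs b * qA a := by
  have hA := (icClassB_basic hV hp ha).1
  have hB := (icClassB_basic hV hp hb).1
  obtain ⟨a0, a1, a2, a3, ar, -⟩ := ha
  obtain ⟨b0, b1, b2, b3, br, -⟩ := hb
  have hdet : qA a * (b.2.2.2 - b.2.2.1) - (a.2.2.2 - a.2.2.1) * qA b = 0 := by
    apply eq_zero_of_cast (p := p)
    · rw [← e0, ← e2] at br
      apply mul_left_cancel₀ (hV.nz _ a0)
      unfold qA
      rw [← e0, ← e2]
      push_cast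
      linear_combination ((a.2.1 : ZMod p) - a.1) * br - ((b.2.1 : ZMod p) - a.1) * ar
    · have d1 := hV.diam _ a1 _ a0
      have d2 := hV.diam _ b3 _ b2
      have d3 := hV.diam _ a3 _ a2
      have d4 := hV.diam _ b1 _ b0
      have hp' : 2 * (m : ℤ) ^ 2 < p := by exact_mod_cast hp
      refine (abs_sub _ _).trans_lt ?_
      unfold qA
      rw [abs_mul, abs_mul]
      have i1 := mul_le_mul d1 d2 (abs_nonneg _) (by positivity)
      have i2 := mul_le_mul d3 d4 (abs_nonneg _) (by positivity)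
      nlinarith
  have g1 := icClassB_gcd a
  have g2 := icClassB_gcd b
  have hpar := par_gcd (A := (qs b : ℤ) * qA a) (A' := (qs b : ℤ) * (a.2.2.2 - a.2.2.1))
    (C := (qs a : ℤ) * qA b) (C' := (qs a : ℤ) * (b.2.2.2 - b.2.2.1))
    (by linear_combination ((qs a : ℤ) * qs b) * hdet)
    (by
      rw [Int.gcd_mul_left, Int.gcd_mul_left, g1, g2, eg, Int.natAbs_natCast, Int.natAbs_natCast]
      ring)
  rcases hpar with ⟨f, -⟩ | ⟨f, -⟩
  · exact f.symm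
  · exfalso
    have sa' : (0 : ℤ) < qs a := by exact_mod_cast sa
    have sb' : (0 : ℤ) < qs b := by exact_mod_cast sb
    rcases lt_or_gt_of_ne hA with h | h
    · have h' : qA b < 0 := by
        rcases lt_or_gt_of_ne hB with h' | h'
        · exact h'
        · exact absurd (es.2 h') (by omega)
      nlinarith [mul_pos sa' (neg_pos.2 h'), mul_pos sb' (neg_pos.2 h)]
    · have h' := es.1 h
      nlinarith [mul_pos sa' h', mul_pos sb' h]

theorem classB_thm (hT : TripStmt) : ClassBStmt := by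
  classical
  intro p _ m N R σ V Λ T hV hp hΛ hN hσ hTa
  have hmp : m < p := by
    have : m ≤ m ^ 2 := Nat.le_self_pow (by norm_num) m
    omega
  have hm4 : m ≤ 3 * m ^ 4 := by
    have : m ≤ m ^ 4 := Nat.le_self_pow (by norm_num) m
    omega
  set D := Dm (3 * m ^ 4) with hD
  set ψ : ℤ × ℤ × ℤ × ℤ → ℤ × ℤ × ℕ × Bool :=
    fun a => (a.1, a.2.2.1, qg a, decide (0 < qA a)) with hψ
  set Cl := T.image ψ with hCl
  have h2 : Cl.card ≤ (D * 2) * (V ×ˢ V).card := by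
    refine card_le_mul_card_image_of_maps_to (f := fun y => (y.1, y.2.1)) ?_ _ ?_
    · intro y hy
      obtain ⟨b, hb, rfl⟩ := mem_image.1 hy
      exact mem_product.2 ⟨(hTa b hb).1.1, (hTa b hb).1.2.2.1⟩
    · rintro ⟨w, w'⟩ hw
      rw [mem_product] at hw
      have h3 : ((w' - w).natAbs.divisors ×ˢ (univ : Finset Bool)).card ≤ D * 2 := by
        rw [card_product, card_univ, Fintype.card_bool]
        refine Nat.mul_le_mul_right _ (card_divisors_le (le_trans ?_ hm4))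
        have h4 := hV.diam _ hw.2 _ hw.1
        rw [Int.abs_eq_natAbs] at h4
        exact_mod_cast h4
      refine le_trans ?_ h3
      refine card_le_card_of_injOn (fun y => y.2.2) ?_ ?_
      · intro y hy
        rw [mem_coe, mem_filter] at hy
        obtain ⟨hy, e⟩ := hy
        obtain ⟨b, hb, rfl⟩ := mem_image.1 hy
        simp only [hψ, Prod.mk.injEq] at e
        rw [mem_coe, mem_product, Nat.mem_divisors]
        have h5 := (icClassB_basic hV hp (hTa b hb).1).2.1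
        have h6 : w' - w = qB b := by
          unfold qB
          rw [e.1, e.2]
        rw [h6]
        refine ⟨⟨?_, Int.natAbs_ne_zero.2 h5⟩, mem_univ _⟩
        exact (Nat.gcd_dvd_right _ _).trans (Int.natCast_dvd.1 (Int.gcd_dvd_left (qB b) (qc b)))
      · intro y hy z hz e
        rw [mem_coe, mem_filter] at hy hz
        have e' := hy.2.trans hz.2.symm
        simp only [Prod.mk.injEq] at e'
        exact Prod.ext e'.1 (Prod.ext e'.2 e)
  have h3 := sq_le_mul_coll T Cl ψ fun x hx => mem_image_of_mem _ hx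
  set C := (T ×ˢ T).filter fun x => ψ x.1 = ψ x.2 with hC
  have hcol : ∀ x ∈ C, x.1 ∈ T ∧ x.2 ∈ T ∧ x.1.1 = x.2.1 ∧ x.1.2.2.1 = x.2.2.2.1 ∧
      (qs x.1 : ℤ) * qA x.2 = qs x.2 * qA x.1 := by
    rintro ⟨a, b⟩ hab
    rw [mem_filter, mem_product] at hab
    obtain ⟨⟨ha, hb⟩, e⟩ := hab
    simp only [hψ, Prod.mk.injEq, decide_eq_decide] at e
    obtain ⟨e0, e2, eg, es⟩ := e
    exact ⟨ha, hb, e0, e2, icClassB_prop hV hp (hTa a ha).1 (hTa b hb).1 e0 e2 eg es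
      (hσ.trans (hTa a ha).2.2.1) (hσ.trans (hTa b hb).2.2.1)⟩
  have h4 : (C.filter fun x => x.1.2.1 = x.2.2.1).card ≤ T.card := by
    refine card_le_card_of_injOn Prod.fst ?_ ?_
    · intro x hx
      rw [mem_coe, mem_filter] at hx
      exact (hcol x hx.1).1
    · have key : ∀ x ∈ C.filter fun x => x.1.2.1 = x.2.2.1, x.1 = x.2 := by
        intro x hx
        rw [mem_filter] at hx
        obtain ⟨ha, hb, e0, e2, -⟩ := hcol x hx.1
        exact icClassB_last hV hmp (hTa _ ha).1 (hTa _ hb).1 e0 hx.2 e2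
      intro x hx y hy e
      exact Prod.ext e (by rw [← key x hx, ← key y hy, e])
  have h5 : (C.filter fun x => ¬ x.1.2.1 = x.2.2.1).card ≤ R * (σ ^ 2 * N * R) := by
    set θ : (ℤ × ℤ × ℤ × ℤ) × (ℤ × ℤ × ℤ × ℤ) → ℤ × ℤ × ℤ × ℕ × ℕ :=
      fun x => (x.1.1, x.1.2.1, x.2.2.1, qs x.1, qs x.2) with hθ
    set C' := C.filter fun x => ¬ x.1.2.1 = x.2.2.1 with hC'
    have h6 : C'.card ≤ R * (C'.image θ).card := by
      refine card_le_mul_card_image C' _ fun y hy => ?_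
      obtain ⟨z, hz, rfl⟩ := mem_image.1 hy
      refine le_trans ?_ (hTa z.1 (hcol z (mem_filter.1 hz).1).1).2.1
      unfold rr
      refine card_le_card_of_injOn (fun x => (x.1.2.2.1, x.1.2.2.2)) ?_ ?_
      · intro x hx
        rw [mem_coe, mem_filter] at hx
        obtain ⟨hx, e⟩ := hx
        simp only [hθ, Prod.mk.injEq] at e
        obtain ⟨e0, e1, -⟩ := e
        obtain ⟨⟨h0, h1, h2, h3, hr, -⟩, -⟩ := hTa x.1 (hcol x (mem_filter.1 hx).1).1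
        rw [mem_coe, mem_filter, mem_product]
        refine ⟨⟨h2, h3⟩, ?_⟩
        rw [← e0, ← e1]
        have h4 := hV.nz _ h0
        apply mul_left_cancel₀ h4
        rw [← mul_assoc, mul_div_cancel₀ _ h4]
        exact hr
      · intro x hx y hy hxy
        rw [mem_coe, mem_filter] at hx hy
        have e := hx.2.trans hy.2.symm
        simp only [hθ, Prod.mk.injEq] at e hxy
        obtain ⟨e0, e1, e2, -⟩ := e
        obtain ⟨xa, xb, x0, x2, -⟩ := hcol x (mem_filter.1 hx.1).1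
        obtain ⟨ya, yb, y0, y2, -⟩ := hcol y (mem_filter.1 hy.1).1
        refine Prod.ext (icClassB_last hV hmp (hTa _ xa).1 (hTa _ ya).1 e0 e1 hxy.1)
          (icClassB_last hV hmp (hTa _ xb).1 (hTa _ yb).1 ?_ e2 ?_)
        · rw [← x0, ← y0, e0]
        · rw [← x2, ← y2, hxy.1]
    refine h6.trans (Nat.mul_le_mul_left _ ?_)
    refine hT p m N R σ V Λ _ hV hmp hΛ hN hσ fun y hy => ?_
    obtain ⟨x, hx, rfl⟩ := mem_image.1 hy
    rw [mem_filter] at hx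
    obtain ⟨ha, hb, e0, -, e1⟩ := hcol x hx.1
    obtain ⟨⟨a0, a1, -⟩, ar, as1, as2⟩ := hTa _ ha
    obtain ⟨⟨-, b1, -⟩, -, bs1, bs2⟩ := hTa _ hb
    refine ⟨a0, a1, b1, hx.2, ar, as1, as2, bs1, bs2, (icClassB_basic hV hp (hTa _ ha).1).2.2,
      (icClassB_basic hV hp (hTa _ hb).1).2.2, ?_⟩
    unfold qA at e1
    rw [← e0] at e1
    exact e1
  have h6 : C.card ≤ T.card + R * (σ ^ 2 * N * R) := by
    rw [← card_filter_add_card_filter_not (s := C) fun x => x.1.2.1 = x.2.2.1]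
    exact Nat.add_le_add h4 h5
  have h7 : T.card ^ 2 ≤ ((D * 2) * (V ×ˢ V).card) * (T.card + R * (σ ^ 2 * N * R)) :=
    h3.trans (Nat.mul_le_mul h2 h6)
  rw [card_product] at h7
  rcases icClassB_arith h7 with h8 | h8
  · left
    exact h8.trans (le_of_eq (by ring))
  · right
    exact h8.trans (le_of_eq (by ring))

end Pool.Agent.MP_bd74a7_nt.Ic

end

section

/-!
The statements of `IcDefs` without hypotheses.
-/

namespace Pool.Agent.MP_bd74a7_nt.Ic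

/-- The point-plane incidence bound in generic position. -/
theorem inc_all : IncStmt :=
  inc_thm (one_thm (prime_thm (few_thm elim_thm) free_thm hs_thm (flat_thm elim_thm))) interp_thm

/-- The point-plane incidence bound for a grid of points over a prime field. -/
theorem grid_all : GridStmt := grid_thm inc_all

theorem n_all : NStmt := n_thm grid_all

theorem core_all : CoreStmt :=
  core_thm small_thm (level_thm (classA_thm trip_thm) (classB_thm trip_thm) nb_thm)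

end Pool.Agent.MP_bd74a7_nt.Ic

end

section

/-!
Counting rectangles in the grids.
-/

open Finset

namespace Pool.Agent.MP_bd74a7_nt.Ce

variable {p m : ℕ} {V : Finset ℤ} {ι : Type*} {E : Finset ι} {z : ι → ℤ × ℤ} {a b u : ι → ℤ}

theorem Edges.span_m [Fact p.Prime] (h : Edges p m V E z a b u) (hV : Short p V m) :
    Span E z b u m := by
  intro e he f hf _ _ i hi
  refine le_trans ?_ (hV.diam _ (h.hu f hf) _ (h.hu e he))
  rw [hi, abs_mul]
  exact le_mul_of_one_le_right (abs_nonneg _) (Int.one_le_abs (h.b0 hV he))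

open Classical in
theorem Edges.deg_bd [Fact p.Prime] (h : Edges p m V E z a b u) (hV : Short p V m) {e : ι}
    (he : e ∈ E) : 1 ≤ (E.filter fun f => z f = z e ∧ b f = b e).card ∧
      (E.filter fun f => z f = z e ∧ b f = b e).card ≤ 3 * m ^ 4 := by
  refine ⟨card_pos.2 ⟨e, mem_filter.2 ⟨he, rfl, rfl⟩⟩,
    (h.deg_le hV (h.span_m hV) _ _).trans ?_⟩
  have h1 : 1 ≤ m := by exact_mod_cast (Int.one_le_abs (h.b0 hV he)).trans (h.hb e he)
  have h2 : m ≤ m ^ 4 := Nat.le_self_pow (by norm_num) _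
  omega

theorem Edges.log_le [Fact p.Prime] (h : Edges p m V E z a b u) (hV : Short p V m) {e : ι}
    (he : e ∈ E) : Nat.log 2 (3 * m ^ 4) + 1 ≤ Dm (3 * m ^ 4) := by
  have h1 : 1 ≤ m := by exact_mod_cast (Int.one_le_abs (h.b0 hV he)).trans (h.hb e he)
  exact log_le_Dm (by positivity) le_rfl

open Classical in
theorem reg_eq (E : Finset ι) (z : ι → ℤ × ℤ) (b : ι → ℤ) (φ : ℕ → Prop) [DecidablePred φ]
    {e : ι} (he : φ (E.filter fun f => z f = z e ∧ b f = b e).card) :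
    ((E.filter fun g => φ (E.filter fun f => z f = z g ∧ b f = b g).card).filter
      fun f => z f = z e ∧ b f = b e) = E.filter fun f => z f = z e ∧ b f = b e := by
  ext g
  simp only [mem_filter]
  refine ⟨fun hg => ⟨hg.1.1, hg.2⟩, fun hg => ⟨⟨hg.1, ?_⟩, hg.2⟩⟩
  rw [hg.2.1, hg.2.2]
  exact he

open Classical in
theorem pairs_ge (E : Finset ι) (z : ι → ℤ × ℤ) (b : ι → ℤ) {y : ℕ}
    (hy : ∀ e ∈ E, y ≤ (E.filter fun f => z f = z e ∧ b f = b e).card) :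
    y * E.card ≤ ((E ×ˢ E).filter fun x => z x.2 = z x.1 ∧ b x.2 = b x.1).card := by
  refine mul_card_image_le_card_of_maps_to (f := fun x : ι × ι => x.1)
    (fun x hx => (mem_product.1 (mem_filter.1 hx).1).1) _ fun e he => (hy e he).trans ?_
  refine card_le_card_of_injOn (fun f => (e, f)) ?_ fun f _ g _ hfg => (Prod.ext_iff.1 hfg).2
  intro f hf
  simp only [coe_filter, mem_filter, mem_product, Set.mem_ofPred_eq] at hf ⊢
  exact ⟨⟨⟨he, hf.1⟩, hf.2⟩, trivial⟩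

open Classical in
theorem pairs_le (E F : Finset ι) (z : ι → ℤ × ℤ) (b : ι → ℤ) {y : ℕ} (P : Finset (ι × ι))
    (hP : ∀ x ∈ P, x.1 ∈ F ∧ x.2 ∈ E ∧ z x.2 = z x.1 ∧ b x.2 = b x.1)
    (hy : ∀ e ∈ F, (E.filter fun f => z f = z e ∧ b f = b e).card ≤ y) :
    P.card ≤ y * F.card := by
  refine card_le_mul_card_image_of_maps_to (f := fun x : ι × ι => x.1)
    (fun x hx => (hP x hx).1) _ fun e he => le_trans ?_ (hy e he)
  refine card_le_card_of_injOn (fun x => x.2) ?_ ?_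
  · intro x hx
    simp only [coe_filter, Set.mem_ofPred_eq] at hx ⊢
    rw [← hx.2]
    exact (hP x hx.1).2
  · intro x hx x' hx' hxx
    simp only [coe_filter, Set.mem_ofPred_eq] at hx hx'
    exact Prod.ext (hx.2.trans hx'.2.symm) hxx

theorem grid_num {P Q Z D N J M p x y σ τ e ex : ℕ} (h0 : P ^ 2 ≤ Z * Q)
    (h1 : Q ≤ 2 * y * (D * (2 * x * ex))) (h2 : ex * x ^ 3 ≤ 2 ^ 20 * D ^ 2 * σ ^ 2 * N * (2 * y))
    (h3 : e * y ^ 3 ≤ 2 ^ 20 * D ^ 2 * τ ^ 2 * N * (3 * σ)) (h4 : P ≤ 2 * y * e) (h5 : ex ≤ e)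
    (h6 : e * (σ ^ 2 * τ ^ 2 * p) ≤ 9408 * (D * J * M)) :
    P ^ 8 * p ^ 2 ≤ 2 ^ 100 * D ^ 11 * Z ^ 3 * N ^ 3 * J ^ 2 * M ^ 2 := by
  have a1 : Q ^ 3 ≤ 2 ^ 27 * D ^ 5 * y ^ 4 * e ^ 2 * σ ^ 2 * N :=
    calc Q ^ 3 ≤ (2 * y * (D * (2 * x * ex))) ^ 3 := by gcongr
      _ = 64 * D ^ 3 * y ^ 3 * ex ^ 2 * (ex * x ^ 3) := by ring
      _ ≤ 64 * D ^ 3 * y ^ 3 * e ^ 2 * (2 ^ 20 * D ^ 2 * σ ^ 2 * N * (2 * y)) := by gcongr
      _ = _ := by ring
  calc P ^ 8 * p ^ 2 = (P ^ 2) ^ 3 * P ^ 2 * p ^ 2 := by ring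
    _ ≤ (Z * Q) ^ 3 * (2 * y * e) ^ 2 * p ^ 2 := by gcongr
    _ = Z ^ 3 * Q ^ 3 * (2 * y * e) ^ 2 * p ^ 2 := by ring
    _ ≤ Z ^ 3 * (2 ^ 27 * D ^ 5 * y ^ 4 * e ^ 2 * σ ^ 2 * N) * (2 * y * e) ^ 2 * p ^ 2 := by gcongr
    _ = 2 ^ 29 * Z ^ 3 * D ^ 5 * N * σ ^ 2 * e ^ 2 * p ^ 2 * (e * y ^ 3) ^ 2 := by ring
    _ ≤ 2 ^ 29 * Z ^ 3 * D ^ 5 * N * σ ^ 2 * e ^ 2 * p ^ 2 *
        (2 ^ 20 * D ^ 2 * τ ^ 2 * N * (3 * σ)) ^ 2 := by gcongr
    _ = 9 * 2 ^ 69 * Z ^ 3 * D ^ 9 * N ^ 3 * (e * (σ ^ 2 * τ ^ 2 * p)) ^ 2 := by ring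
    _ ≤ 9 * 2 ^ 69 * Z ^ 3 * D ^ 9 * N ^ 3 * (9408 * (D * J * M)) ^ 2 := by gcongr
    _ = (9 * 2 ^ 69 * 9408 ^ 2) * (D ^ 11 * Z ^ 3 * N ^ 3 * J ^ 2 * M ^ 2) := by ring
    _ ≤ 2 ^ 100 * (D ^ 11 * Z ^ 3 * N ^ 3 * J ^ 2 * M ^ 2) :=
        Nat.mul_le_mul_right _ (by norm_num)
    _ = _ := by ring

/-- Primitive pairs in columns. -/
def Prim (E : Finset ι) (z : ι → ℤ × ℤ) (a b u : ι → ℤ) (P : Finset (ι × ι)) : Prop :=
  ∀ x ∈ P, x.1 ∈ E ∧ x.2 ∈ E ∧ z x.2 = z x.1 ∧ a x.2 = a x.1 ∧ u x.2 ≠ u x.1 ∧ 1 ≤ b x.1 ∧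
    IsCoprime (b x.1) (b x.2)

theorem Edges.rect [Fact p.Prime] (h : Edges p m V E z a b u) (hV : Short p V m)
    (hp : 2 * m ^ 2 < p) {P : Finset (ι × ι)} (hP : Prim E z a b u P) {x y : ι × ι} (hx : x ∈ P)
    (hy : y ∈ P) (hr : (u x.2 : ZMod p) / u x.1 = u y.2 / u y.1) :
    z y.1 = z x.1 ∧ b y.1 = b x.1 ∧ b y.2 = b x.2 := by
  obtain ⟨x1, x2, x3, x4, x5, x6, x7⟩ := hP x hx
  obtain ⟨y1, y2, y3, y4, -, y6, y7⟩ := hP y hy
  rw [div_eq_div_iff (hV.nz _ (h.hu _ x1)) (hV.nz _ (h.hu _ y1))] at hr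
  obtain ⟨k1, k2⟩ := h.swap.uniq hV hp x1 x2 y1 y2 x3 x4 y3 y4 x5 hr
  exact ⟨k1, centre_eq y6 x6 y7 x7 (by linear_combination k2)⟩

open Classical in
theorem Edges.grid1 [Fact p.Prime] (h : Edges p m V E z a b u) (hV : Short p V m)
    (hp : 2 * m ^ 2 < p) {Λ : Finset (ZMod p)} {N Z σ τ y : ℕ}
    (hΛ : ∀ v ∈ V, ∀ w ∈ V, (v : ZMod p) / w ∈ Λ) (hN : Ic.HN p Λ N) (hZ : Λ.card ≤ Z)
    (hσ : Span E z b u σ) (hτ : Span E z a u τ) (hE : E.card ≤ 2 * V.card ^ 2)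
    (hn : (E.image z).card ≤ 1 ∨ (E.image z).card * (σ ^ 2 * τ ^ 2 * p) ≤ 4704 * m ^ 3)
    (hy1 : ∀ e ∈ E, y ≤ (E.filter fun f => z f = z e ∧ a f = a e).card)
    (hy2 : ∀ e ∈ E, (E.filter fun f => z f = z e ∧ a f = a e).card ≤ 2 * y)
    {P : Finset (ι × ι)} (hP : Prim E z a b u P) :
    P.card ^ 2 ≤ 128 * Dm (3 * m ^ 4) ^ 2 * Z * V.card ^ 2 ∨
      P.card ^ 8 * p ^ 2 ≤
        2 ^ 100 * Dm (3 * m ^ 4) ^ 11 * Z ^ 3 * N ^ 3 * V.card ^ 2 * (m ^ 3) ^ 2 := by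
  rcases E.eq_empty_or_nonempty with rfl | ⟨e0, he0⟩
  · left
    rw [card_eq_zero.2 (eq_empty_of_forall_notMem fun x hx => notMem_empty _ (hP x hx).1)]
    simp
  have hlog := h.log_le hV he0
  have hY : ∀ c s, (E.filter fun f => z f = c ∧ a f = s).card ≤ 2 * y := by
    intro c s
    rcases (E.filter fun f => z f = c ∧ a f = s).eq_empty_or_nonempty with h0 | ⟨e, he1⟩
    · rw [h0]
      simp
    obtain ⟨he, rfl, rfl⟩ := mem_filter.1 he1
    exact hy2 e he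
  have h0 := sq_le_mul_coll P Λ (fun x => (u x.2 : ZMod p) / u x.1) fun x hx =>
    hΛ _ (h.hu _ (hP x hx).2.1) _ (h.hu _ (hP x hx).1)
  replace h0 := h0.trans (Nat.mul_le_mul_right _ hZ)
  set Q := (P ×ˢ P).filter fun x => (u x.1.2 : ZMod p) / u x.1.1 = u x.2.2 / u x.2.1 with hQ
  have hF : ∀ x ∈ Q, x.1 ∈ P ∧ x.2 ∈ P ∧ z x.2.1 = z x.1.1 ∧ b x.2.1 = b x.1.1 ∧
      b x.2.2 = b x.1.2 := by
    intro x hx
    simp only [hQ, mem_filter, mem_product] at hx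
    exact ⟨hx.1.1, hx.1.2, h.rect hV hp hP hx.1.1 hx.1.2 hx.2⟩
  have hA : Q.card ≤ E.card ^ 2 := by
    rw [sq, ← card_product]
    refine card_le_card_of_injOn (fun x => (x.1.1, x.2.2)) ?_ ?_
    · intro x hx
      obtain ⟨x1, x2, -⟩ := hF x hx
      exact mem_coe.2 (mem_product.2 ⟨(hP _ x1).1, (hP _ x2).2.1⟩)
    · rintro ⟨⟨e, f⟩, e', f'⟩ hx ⟨⟨g, k⟩, g', k'⟩ hy hxy
      simp only [Prod.mk.injEq] at hxy ⊢
      obtain ⟨rfl, rfl⟩ := hxy
      obtain ⟨x1, x2, x3, x4, x5⟩ := hF _ hx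
      obtain ⟨y1, y2, y3, y4, y5⟩ := hF _ hy
      obtain ⟨-, a2, a3, a4, -⟩ := hP _ x1
      obtain ⟨b1, -, -, b4, -⟩ := hP _ x2
      obtain ⟨-, c2, c3, c4, -⟩ := hP _ y1
      obtain ⟨d1, -, -, d4, -⟩ := hP _ y2
      dsimp only at *
      exact ⟨⟨rfl, h.inj _ a2 _ c2 (by rw [a3, c3]) (by rw [a4, c4]) (by rw [← x5, y5])⟩,
        h.inj _ b1 _ d1 (by rw [x3, y3]) (by rw [← b4, d4]) (by rw [x4, y4]), rfl⟩
  set R := (E ×ˢ E).filter fun x => z x.2 = z x.1 ∧ b x.2 = b x.1 with hR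
  have hB : Q.card ≤ 2 * y * R.card := by
    refine card_le_mul_card_image_of_maps_to (f := fun x => (x.1.1, x.2.1)) ?_ _ ?_
    · intro x hx
      obtain ⟨x1, x2, x3, x4, -⟩ := hF x hx
      exact mem_filter.2 ⟨mem_product.2 ⟨(hP _ x1).1, (hP _ x2).1⟩, x3, x4⟩
    · rintro ⟨e, e'⟩ -
      refine le_trans (card_le_card_of_injOn (fun x => x.1.2) ?_ ?_) (hY (z e) (a e))
      · intro x hx
        simp only [coe_filter, Set.mem_ofPred_eq, Prod.mk.injEq] at hx ⊢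
        obtain ⟨-, a2, a3, a4, -⟩ := hP _ (hF x hx.1).1
        rw [← hx.2.1]
        exact ⟨a2, a3, a4⟩
      · rintro ⟨⟨g, f⟩, g', f'⟩ hx ⟨⟨k, l⟩, k', l'⟩ hy hxy
        simp only [coe_filter, Set.mem_ofPred_eq, Prod.mk.injEq] at hx hy hxy ⊢
        obtain ⟨hx, rfl, rfl⟩ := hx
        obtain ⟨hy, rfl, rfl⟩ := hy
        subst hxy
        obtain ⟨-, x2, -, -, x5⟩ := hF _ hx
        obtain ⟨-, y2, -, -, y5⟩ := hF _ hy
        obtain ⟨-, b2, b3, b4, -⟩ := hP _ x2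
        obtain ⟨-, d2, d3, d4, -⟩ := hP _ y2
        dsimp only at *
        exact ⟨⟨rfl, rfl⟩, rfl,
          h.inj _ b2 _ d2 (by rw [b3, d3]) (by rw [b4, d4]) (by rw [x5, y5])⟩
  obtain ⟨x, -, hx⟩ := Ic.icCore_dyad R
    (fun t => (E.filter fun f => z f = z t.1 ∧ b f = b t.1).card) _ _ hlog
    fun t ht => h.deg_bd hV (mem_product.1 (mem_filter.1 ht).1).1
  set F := E.filter fun g => x ≤ (E.filter fun f => z f = z g ∧ b f = b g).card ∧
    (E.filter fun f => z f = z g ∧ b f = b g).card < 2 * x with hFd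
  have hFE : F ⊆ E := filter_subset _ _
  have hC : R.card ≤ Dm (3 * m ^ 4) * (2 * x * F.card) := by
    refine hx.trans (Nat.mul_le_mul_left _ (pairs_le E F z b _ ?_ ?_))
    · intro t ht
      simp only [hR, hFd, mem_filter, mem_product] at ht ⊢
      exact ⟨⟨ht.1.1.1, ht.2⟩, ht.1.1.2, ht.1.2⟩
    · intro e he
      exact (mem_filter.1 he).2.2.le
  have hD : P.card ≤ 2 * y * E.card := pairs_le E E z a P
    (fun t ht => ⟨(hP t ht).1, (hP t ht).2.1, (hP t ht).2.2.1, (hP t ht).2.2.2.1⟩) hy2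
  have hG := (pairs_ge E z a hy1).trans (h.swap.pairs hV hp)
  have hH : R.card ≤ _ := h.pairs hV hp
  have hI := h.card_le hV
  have hJ := card_le_card hFE
  set D := Dm (3 * m ^ 4) with hDd
  have hD1 : 1 ≤ D := by omega
  set J := V.card
  have small : Q.card ≤ 128 * D ^ 2 * J ^ 2 → P.card ^ 2 ≤ 128 * D ^ 2 * Z * J ^ 2 := fun h1 =>
    calc P.card ^ 2 ≤ Z * Q.card := h0
      _ ≤ Z * (128 * D ^ 2 * J ^ 2) := Nat.mul_le_mul_left _ h1
      _ = _ := by ring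
  have s1 : J ^ 2 ≤ D * J ^ 2 := Nat.le_mul_of_pos_left _ hD1
  have s2 : D * J ^ 2 ≤ D ^ 2 * J ^ 2 := Nat.mul_le_mul_right _ (Nat.le_self_pow two_ne_zero _)
  rcases hn with hn | hn
  · refine Or.inl (small (hA.trans ?_))
    calc E.card ^ 2 ≤ (2 * D * (1 * J)) ^ 2 := by
          gcongr
          exact hI.trans (by gcongr)
      _ = 4 * (D ^ 2 * J ^ 2) := by ring
      _ ≤ _ := by rw [mul_assoc]; omega
  by_cases hy8 : y < 8
  · refine Or.inl (small ?_)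
    have : 2 * y * R.card ≤ 16 * R.card := Nat.mul_le_mul_right _ (by omega)
    rw [mul_assoc] at hH ⊢
    omega
  by_cases hx8 : x < 8
  · refine Or.inl (small ?_)
    rw [mul_assoc] at hG
    calc Q.card ≤ 2 * y * (D * (2 * x * F.card)) := hB.trans (Nat.mul_le_mul_left _ hC)
      _ ≤ 2 * y * (D * (2 * 8 * E.card)) := by gcongr
      _ = 32 * D * (y * E.card) := by ring
      _ ≤ 32 * D * (4 * (D * J ^ 2)) := Nat.mul_le_mul_left _ (by omega)
      _ = _ := by ring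
  rcases F.eq_empty_or_nonempty with hF0 | ⟨e1, he1⟩
  · refine Or.inl (small ?_)
    rw [hF0, card_empty, mul_zero, mul_zero, Nat.le_zero] at hC
    rw [hC] at hB
    omega
  right
  have hσ1 : 1 ≤ σ := by
    have h1 := (mem_filter.1 he1).2.1.trans (h.deg_le hV hσ _ _)
    omega
  refine grid_num h0 (hB.trans (Nat.mul_le_mul_left _ hC))
    ((h.mono hFE).dil hV hp hΛ hN (hσ.mono hFE) (by omega) ?_ fun c s =>
      (card_le_card (filter_subset_filter _ hFE)).trans (hY c s))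
    (h.swap.dil hV hp hΛ hN hτ (by omega) hy1 fun c s =>
      (h.deg_le hV hσ c s).trans (by omega)) hD hJ ?_
  · intro e he
    rw [hFd, reg_eq E z b (fun n => x ≤ n ∧ n < 2 * x) (mem_filter.1 he).2]
    exact (mem_filter.1 he).2.1
  · calc E.card * (σ ^ 2 * τ ^ 2 * p) ≤ 2 * D * ((E.image z).card * J) * (σ ^ 2 * τ ^ 2 * p) :=
          Nat.mul_le_mul_right _ hI
      _ = 2 * D * J * ((E.image z).card * (σ ^ 2 * τ ^ 2 * p)) := by ring
      _ ≤ 2 * D * J * (4704 * m ^ 3) := Nat.mul_le_mul_left _ hn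
      _ = _ := by ring

open Classical in
theorem Edges.grid [Fact p.Prime] (h : Edges p m V E z a b u) (hV : Short p V m)
    (hp : 2 * m ^ 2 < p) {Λ : Finset (ZMod p)} {N Z σ τ : ℕ}
    (hΛ : ∀ v ∈ V, ∀ w ∈ V, (v : ZMod p) / w ∈ Λ) (hN : Ic.HN p Λ N) (hZ : Λ.card ≤ Z)
    (hσ : Span E z b u σ) (hτ : Span E z a u τ) (hE : E.card ≤ 2 * V.card ^ 2)
    (hn : (E.image z).card ≤ 1 ∨ (E.image z).card * (σ ^ 2 * τ ^ 2 * p) ≤ 4704 * m ^ 3)
    {P : Finset (ι × ι)} (hP : Prim E z a b u P) :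
    ∃ n : ℕ, P.card ≤ Dm (3 * m ^ 4) * n ∧ (n ^ 2 ≤ 128 * Dm (3 * m ^ 4) ^ 2 * Z * V.card ^ 2 ∨
      n ^ 8 * p ^ 2 ≤
        2 ^ 100 * Dm (3 * m ^ 4) ^ 11 * Z ^ 3 * N ^ 3 * V.card ^ 2 * (m ^ 3) ^ 2) := by
  rcases P.eq_empty_or_nonempty with rfl | ⟨t0, ht0⟩
  · exact ⟨0, by simp, Or.inl (by simp)⟩
  obtain ⟨y, -, hy⟩ := Ic.icCore_dyad P
    (fun t => (E.filter fun f => z f = z t.1 ∧ a f = a t.1).card) _ _
    (h.log_le hV (hP t0 ht0).1) fun t ht => h.swap.deg_bd hV (hP t ht).1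
  set F := E.filter fun g => y ≤ (E.filter fun f => z f = z g ∧ a f = a g).card ∧
    (E.filter fun f => z f = z g ∧ a f = a g).card < 2 * y with hFd
  have hFE : F ⊆ E := filter_subset _ _
  have h1 := card_le_card (image_subset_image (f := z) hFE)
  refine ⟨_, hy, (h.mono hFE).grid1 hV hp hΛ hN hZ (hσ.mono hFE) (hτ.mono hFE)
    ((card_le_card hFE).trans hE) (y := y) ?_ ?_ ?_ ?_⟩
  · exact hn.imp h1.trans (Nat.mul_le_mul_right _ h1).trans
  · intro e he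
    rw [hFd, reg_eq E z a (fun n => y ≤ n ∧ n < 2 * y) (mem_filter.1 he).2]
    exact (mem_filter.1 he).2.1
  · intro e he
    rw [hFd, reg_eq E z a (fun n => y ≤ n ∧ n < 2 * y) (mem_filter.1 he).2]
    exact (mem_filter.1 he).2.2.le
  · intro t ht
    obtain ⟨t1, t2⟩ := mem_filter.1 ht
    obtain ⟨a1, a2, a3, a4, a5⟩ := hP t t1
    refine ⟨mem_filter.2 ⟨a1, t2⟩, mem_filter.2 ⟨a2, ?_⟩, a3, a4, a5⟩
    rw [a3, a4]
    exact t2

end Pool.Agent.MP_bd74a7_nt.Ce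

end

section

/-!
The core estimate `J ^ 2 ≪ Z` or `J ^ 14 p ^ 2 ≪ Z ^ 3 N ^ 3 m ^ 6`.
-/

open Finset

namespace Pool.Agent.MP_bd74a7_nt.Ce

variable {p m : ℕ} {V : Finset ℤ}

theorem prim {x : ℤ} (hx : x ≠ 0) (y : ℤ) :
    ∃ g s t : ℤ, 1 ≤ s ∧ IsCoprime s t ∧ x = s * g ∧ y = t * g := by
  obtain ⟨s, t, h1, h2, h3⟩ := Int.exists_gcd_one (Int.gcd_pos_of_ne_zero_left y hx)
  have h4 := Int.isCoprime_iff_gcd_eq_one.2 h1
  have h5 : s ≠ 0 := by
    rintro rfl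
    exact hx (by rw [h2, zero_mul])
  rcases lt_or_gt_of_ne h5 with h6 | h6
  · exact ⟨-(Int.gcd x y : ℤ), -s, -t, by omega, h4.neg_neg, by rw [neg_mul_neg]; exact h2,
      by rw [neg_mul_neg]; exact h3⟩
  · exact ⟨Int.gcd x y, s, t, h6, h4, h2, h3⟩

theorem abs_le_of_mul {x s g : ℤ} (h : x = s * g) (hg : g ≠ 0) : |s| ≤ |x| := by
  rw [h, abs_mul]
  exact le_mul_of_one_le_right (abs_nonneg _) (Int.one_le_abs hg)

theorem le_div' {i s : ℤ} {σ B : ℕ} (hσ : 1 ≤ σ) (hs : σ ≤ s.natAbs) (hb : |i * s| ≤ B) :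
    |i| ≤ (B / σ : ℕ) :=
  abs_le_div hσ hs rfl (by rwa [abs_mul, Nat.abs_cast, Int.natCast_natAbs, mul_comm, ← abs_mul])

/-- A pair whose ratio occurs twice lies in a column of the grid of some centre. -/
theorem pair_data [Fact p.Prime] (hV : Short p V m) (hp : 2 * m ^ 2 < p) {u v u' v' : ℤ}
    (hu : u ∈ V) (hv : v ∈ V) (hu' : u' ∈ V) (hv' : v' ∈ V) (hne : v ≠ u)
    (hne' : (u', v') ≠ (u, v)) (hr : (v' : ZMod p) / u' = v / u) :
    ∃ d k a s t : ℤ, (1 ≤ d ∧ d ≤ 2 * m ∧ IsCoprime d k) ∧ (a ≠ 0 ∧ |a| ≤ m) ∧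
      (1 ≤ s ∧ |s| ≤ m) ∧ (t ≠ 0 ∧ |t| ≤ m) ∧ IsCoprime s t ∧ a * s = d * u - p * k ∧
      a * t = d * v - p * k := by
  have hmp : (m : ℤ) < p := by exact_mod_cast (by nlinarith : m < p)
  have n1 := hV.nz u hu
  have n2 := hV.nz v hv
  have d1 := hV.diam _ hu' _ hu
  have d2 := hV.diam _ hv' _ hv
  have d3 := hV.diam _ hv _ hu
  have nz : ∀ x : ℤ, x ≠ 0 → |x| ≤ m → (x : ZMod p) ≠ 0 := fun x h0 h1 h2 =>
    h0 (eq_zero_of_cast h2 (h1.trans_lt hmp))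
  rw [div_eq_div_iff (hV.nz _ hu') n1] at hr
  have h1 : u' - u ≠ 0 := by
    intro h0
    rw [sub_eq_zero.1 h0] at hr hne'
    have h2 : v' - v = 0 := by
      by_contra h3
      refine nz _ h3 d2 ?_
      push_cast
      rw [mul_right_cancel₀ n1 hr, sub_self]
    exact hne' (by rw [sub_eq_zero.1 h2])
  obtain ⟨g, s, t, s1, st, e1, e2⟩ := prim h1 (v' - v)
  have g0 : g ≠ 0 := by
    rintro rfl
    exact h1 (by rw [e1, mul_zero])
  have bs := (abs_le_of_mul e1 g0).trans d1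
  have bt := (abs_le_of_mul e2 g0).trans d2
  have bg := (abs_le_of_mul (e1.trans (mul_comm _ _)) (by omega)).trans d1
  have h2 : (t : ZMod p) * u = s * v := by
    have a1 := congrArg (Int.cast : ℤ → ZMod p) e1
    have a2 := congrArg (Int.cast : ℤ → ZMod p) e2
    push_cast at a1 a2
    apply mul_left_cancel₀ (nz g g0 bg)
    linear_combination (v : ZMod p) * a1 - (u : ZMod p) * a2 + hr
  have s0 := nz s (by omega) bs
  have t0 : t ≠ 0 := by
    rintro rfl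
    rw [Int.cast_zero, zero_mul] at h2
    exact mul_ne_zero s0 n2 h2.symm
  have h3 : t - s ≠ 0 := by
    intro h0
    rw [sub_eq_zero.1 h0] at h2
    refine nz _ (sub_ne_zero.2 hne) d3 ?_
    push_cast
    rw [mul_left_cancel₀ s0 h2, sub_self]
  obtain ⟨κ, hκ⟩ : (p : ℤ) ∣ t * u - s * v := (ZMod.intCast_zmod_eq_zero_iff_dvd _ p).1 (by
    push_cast
    rw [h2, sub_self])
  obtain ⟨c, d, k, a1, a2, a3, a4⟩ := prim h3 κ
  have c0 : c ≠ 0 := by
    rintro rfl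
    exact h3 (by rw [a3, mul_zero])
  have b1 : c * (d * u - p * k) = s * (v - u) := by
    linear_combination (-u) * a3 + (p : ℤ) * a4 + hκ
  have b2 : c * (d * v - p * k) = t * (v - u) := by
    linear_combination (-v) * a3 + (p : ℤ) * a4 + hκ
  have b3 : IsCoprime s (d * c) := by
    rw [← a3, sub_eq_add_neg, ← mul_neg_one]
    exact st.add_mul_left_right _
  obtain ⟨a, ha⟩ : c ∣ v - u := b3.of_mul_right_right.symm.dvd_of_dvd_mul_left ⟨_, b1.symm⟩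
  refine ⟨d, k, a, s, t, ⟨a1, ?_, a2⟩, ⟨?_, ?_⟩, ⟨s1, bs⟩, ⟨t0, bt⟩, st,
    mul_left_cancel₀ c0 ?_, mul_left_cancel₀ c0 ?_⟩
  · have b4 := (le_abs_self d).trans ((abs_le_of_mul a3 c0).trans (abs_sub _ _))
    omega
  · rintro rfl
    exact hne (by omega)
  · exact (abs_le_of_mul (ha.trans (mul_comm _ _)) c0).trans d3
  · rw [b1, ha]
    ring
  · rw [b2, ha]
    ring

theorem box_num {n p Δ α β m σ τ : ℕ} (h : n * p ≤ 49 * (2 * Δ * (4 * α * β + 2 * Δ * m)))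
    (h1 : σ * β ≤ m) (h2 : σ * Δ ≤ 4 * α) (h3 : τ * α ≤ m) :
    n * (σ ^ 2 * τ ^ 2 * p) ≤ 4704 * m ^ 3 :=
  calc n * (σ ^ 2 * τ ^ 2 * p) = n * p * (σ ^ 2 * τ ^ 2) := by ring
    _ ≤ 49 * (2 * Δ * (4 * α * β + 2 * Δ * m)) * (σ ^ 2 * τ ^ 2) := by gcongr
    _ = 392 * ((σ * Δ) * (σ * β) * (τ * α) * τ) + 196 * ((σ * Δ) ^ 2 * τ ^ 2 * m) := by ring
    _ ≤ 392 * ((4 * α) * m * m * τ) + 196 * ((4 * α) ^ 2 * τ ^ 2 * m) := by gcongr
    _ = 1568 * (m ^ 2 * (τ * α)) + 3136 * ((τ * α) ^ 2 * m) := by ring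
    _ ≤ 1568 * (m ^ 2 * m) + 3136 * (m ^ 2 * m) := by gcongr
    _ = _ := by ring

open Classical in
theorem level [Fact p.Prime] (hV : Short p V m) (hp : 2 * m ^ 2 < p) {Λ : Finset (ZMod p)}
    {N Z Δ α β : ℕ} (hΛ : ∀ v ∈ V, ∀ w ∈ V, (v : ZMod p) / w ∈ Λ) (hN : Ic.HN p Λ N)
    (hZ : Λ.card ≤ Z) (hΔ : 1 ≤ Δ) (hα : 1 ≤ α) (hβ : 1 ≤ β) (P : Finset (ℤ × ℤ))
    (d k a s t : ℤ × ℤ → ℤ)
    (hP : ∀ x ∈ P, x.1 ∈ V ∧ x.2 ∈ V ∧ x.2 ≠ x.1 ∧
      ((1 ≤ d x ∧ d x ≤ 2 * m ∧ IsCoprime (d x) (k x)) ∧ (a x ≠ 0 ∧ |a x| ≤ m) ∧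
        (1 ≤ s x ∧ |s x| ≤ m) ∧ (t x ≠ 0 ∧ |t x| ≤ m) ∧ IsCoprime (s x) (t x) ∧
        a x * s x = d x * x.1 - p * k x ∧ a x * t x = d x * x.2 - p * k x) ∧
      (Δ ≤ (d x).natAbs ∧ (d x).natAbs < 2 * Δ) ∧ (α ≤ (a x).natAbs ∧ (a x).natAbs < 2 * α) ∧
      β ≤ min (s x).natAbs (t x).natAbs ∧ min (s x).natAbs (t x).natAbs < 2 * β) :
    ∃ n : ℕ, P.card ≤ Dm (3 * m ^ 4) * n ∧ (n ^ 2 ≤ 128 * Dm (3 * m ^ 4) ^ 2 * Z * V.card ^ 2 ∨
      n ^ 8 * p ^ 2 ≤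
        2 ^ 100 * Dm (3 * m ^ 4) ^ 11 * Z ^ 3 * N ^ 3 * V.card ^ 2 * (m ^ 3) ^ 2) := by
  set e1 : ℤ × ℤ → (ℤ × ℤ) × ℤ × ℤ × ℤ := fun x => ((d x, k x), a x, s x, x.1) with he1
  set e2 : ℤ × ℤ → (ℤ × ℤ) × ℤ × ℤ × ℤ := fun x => ((d x, k x), a x, t x, x.2) with he2
  set E := P.image e1 ∪ P.image e2 with hE
  have hG : ∀ e ∈ E, (1 ≤ e.1.1 ∧ e.1.1 ≤ 2 * m ∧ IsCoprime e.1.1 e.1.2) ∧
      (e.2.1 ≠ 0 ∧ |e.2.1| ≤ m) ∧ |e.2.2.1| ≤ m ∧ e.2.2.2 ∈ V ∧
      e.2.1 * e.2.2.1 = e.1.1 * e.2.2.2 - p * e.1.2 ∧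
      (Δ ≤ e.1.1.natAbs ∧ e.1.1.natAbs < 2 * Δ) ∧ (α ≤ e.2.1.natAbs ∧ e.2.1.natAbs < 2 * α) ∧
      β ≤ e.2.2.1.natAbs ∧ ∃ v ∈ V, |e.1.1 * v - p * e.1.2| ≤ (4 * α * β : ℕ) := by
    have key : ∀ x ∈ P, ∃ v ∈ V, |d x * v - p * k x| ≤ (4 * α * β : ℕ) := by
      intro x hx
      obtain ⟨x1, x2, -, ⟨-, -, -, -, -, r1, r2⟩, -, ⟨-, c2⟩, -, c4⟩ := hP x hx
      have bd : ∀ y : ℤ, y.natAbs < 2 * β → |a x * y| ≤ (4 * α * β : ℕ) := by
        intro y hy
        rw [Int.abs_eq_natAbs, Int.natAbs_mul]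
        have : (a x).natAbs * y.natAbs ≤ 2 * α * (2 * β) := Nat.mul_le_mul c2.le hy.le
        exact_mod_cast this.trans (le_of_eq (by ring))
      rcases min_lt_iff.1 c4 with h1 | h1
      · exact ⟨_, x1, r1 ▸ bd _ h1⟩
      · exact ⟨_, x2, r2 ▸ bd _ h1⟩
    intro e he
    rcases mem_union.1 he with he | he <;> obtain ⟨x, hx, rfl⟩ := mem_image.1 he <;>
      obtain ⟨x1, x2, -, ⟨a1, a2, a3, a4, -, r1, r2⟩, c1, c2, c3, -⟩ := hP x hx
    · exact ⟨a1, a2, a3.2, x1, r1, c1, c2, (le_min_iff.1 c3).1, key x hx⟩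
    · exact ⟨a1, a2, a4.2, x2, r2, c1, c2, (le_min_iff.1 c3).2, key x hx⟩
  have h : Edges p m V E (fun e => e.1) (fun e => e.2.1) (fun e => e.2.2.1) fun e => e.2.2.2 := by
    refine ⟨fun e he => (hG e he).1.1, fun e he => ?_, fun e he => (hG e he).1.2.2,
      fun e he => (hG e he).2.1.2, fun e he => (hG e he).2.2.1, fun e he => (hG e he).2.2.2.1,
      fun e he => (hG e he).2.2.2.2.1, ?_⟩
    · obtain ⟨⟨a1, a2, -⟩, -⟩ := hG e he
      have h1 : 2 * (m : ℤ) ^ 2 < p := by exact_mod_cast hp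
      have h2 : 1 ≤ (m : ℤ) := by omega
      nlinarith
    · rintro ⟨z, a, b, u⟩ he ⟨z', a', b', u'⟩ hf h1 h2 h3
      dsimp only at h1 h2 h3
      subst h1 h2 h3
      obtain ⟨⟨a1, -⟩, -, -, -, r1, -⟩ := hG _ he
      obtain ⟨-, -, -, -, r2, -⟩ := hG _ hf
      dsimp only at a1 r1 r2
      rw [show u = u' from mul_left_cancel₀ (show z.1 ≠ 0 by omega) (by linear_combination r2 - r1)]
  have hc : (P.image fun x => (e1 x, e2 x)).card = P.card := by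
    refine card_image_of_injOn fun x _ y _ hxy => ?_
    simp only [he1, he2, Prod.mk.injEq] at hxy
    exact Prod.ext hxy.1.2.2.2 hxy.2.2.2.2
  rw [← hc]
  refine h.grid hV hp hΛ hN hZ (σ := min (m / β) (4 * α / Δ)) (τ := m / α) ?_ ?_ ?_ ?_ ?_
  · intro e he f hf h1 h2 i hi
    obtain ⟨j, hj, hj'⟩ := h.row hV he hf h1 h2
    obtain rfl : i = j := mul_right_cancel₀ (h.b0 hV he) (hi.symm.trans hj)
    obtain ⟨-, -, -, -, -, ⟨c1, -⟩, ⟨-, c2⟩, c3, -⟩ := hG e he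
    obtain ⟨-, -, -, -, -, -, ⟨-, c4⟩, -⟩ := hG f hf
    rw [Nat.cast_min, le_min_iff]
    refine ⟨le_div' hβ c3 (hi ▸ hV.diam _ (h.hu f hf) _ (h.hu e he)), le_div' hΔ c1 ?_⟩
    rw [mul_comm, ← hj', abs_le]
    omega
  · intro e he f hf _ _ i hi
    exact le_div' hα (hG e he).2.2.2.2.2.2.1.1 (hi ▸ hV.diam _ (h.hu f hf) _ (h.hu e he))
  · have h1 : P.card ≤ V.card ^ 2 := by
      rw [sq, ← card_product]
      exact card_le_card fun x hx => mem_product.2 ⟨(hP x hx).1, (hP x hx).2.1⟩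
    have h2 : E.card ≤ _ := card_union_le (P.image e1) (P.image e2)
    have h3 := card_image_le (s := P) (f := e1)
    have h4 := card_image_le (s := P) (f := e2)
    omega
  · refine (centres hV _ (2 * Δ) (4 * α * β) ?_
      (Nat.pos_of_ne_zero (by positivity))).imp id fun h1 =>
      box_num h1 ?_ ?_ (Nat.div_mul_le_self _ _)
    · intro c hc
      obtain ⟨e, he, rfl⟩ := mem_image.1 hc
      obtain ⟨⟨a1, -, a2⟩, -, -, -, -, ⟨-, c1⟩, -, -, c2⟩ := hG e he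
      exact ⟨a1, by omega, a2, c2⟩
    · exact (Nat.mul_le_mul_right _ (min_le_left _ _)).trans (Nat.div_mul_le_self _ _)
    · exact (Nat.mul_le_mul_right _ (min_le_right _ _)).trans (Nat.div_mul_le_self _ _)
  · intro y hy
    obtain ⟨x, hx, rfl⟩ := mem_image.1 hy
    obtain ⟨-, -, x3, ⟨-, -, a3, -, a5, -⟩, -⟩ := hP x hx
    exact ⟨mem_union_left _ (mem_image_of_mem _ hx), mem_union_right _ (mem_image_of_mem _ hx),
      rfl, rfl, x3, a3.1, a5⟩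

open Classical in
theorem many_pairs [Fact p.Prime] (hV : Short p V m) {Λ : Finset (ZMod p)}
    (hΛ : ∀ v ∈ V, ∀ w ∈ V, (v : ZMod p) / w ∈ Λ) :
    V.card ^ 2 ≤ ((V ×ˢ V).filter fun x => x.2 ≠ x.1 ∧ ∃ y ∈ V ×ˢ V, y ≠ x ∧
      (y.2 : ZMod p) / y.1 = x.2 / x.1).card + V.card + Λ.card := by
  have h1 := card_filter_add_card_filter_not (s := V ×ˢ V) fun x => x.2 ≠ x.1 ∧
    ∃ y ∈ V ×ˢ V, y ≠ x ∧ (y.2 : ZMod p) / y.1 = x.2 / x.1
  have h2 : ((V ×ˢ V).filter fun x => x.2 = x.1).card ≤ V.card := by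
    refine card_le_card_of_injOn (fun x => x.1) (fun x hx => ?_) fun x hx y hy hxy => ?_
    · exact (mem_product.1 (mem_filter.1 hx).1).1
    · exact Prod.ext hxy (by rw [(mem_filter.1 hx).2, (mem_filter.1 hy).2]; exact hxy)
  have h3 : ((V ×ˢ V).filter fun x => ¬ ∃ y ∈ V ×ˢ V, y ≠ x ∧
      (y.2 : ZMod p) / y.1 = x.2 / x.1).card ≤ Λ.card := by
    refine card_le_card_of_injOn (fun x => (x.2 : ZMod p) / x.1) (fun x hx => ?_)
      fun x hx y hy hxy => ?_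
    · have := mem_product.1 (mem_filter.1 hx).1
      exact hΛ _ this.2 _ this.1
    · by_contra h4
      exact (mem_filter.1 hy).2 ⟨x, (mem_filter.1 hx).1, h4, hxy⟩
  have h4 : ((V ×ˢ V).filter fun x => ¬ (x.2 ≠ x.1 ∧ ∃ y ∈ V ×ˢ V, y ≠ x ∧
      (y.2 : ZMod p) / y.1 = x.2 / x.1)).card ≤ _ :=
    le_trans (card_le_card fun x hx => by
      simp only [mem_filter, mem_union] at hx ⊢
      by_cases h5 : x.2 = x.1
      · exact Or.inl ⟨hx.1, h5⟩
      · exact Or.inr ⟨hx.1, fun h6 => hx.2 ⟨h5, h6⟩⟩) ((card_union_le _ _).trans (add_le_add h2 h3))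
  rw [card_product, ← sq] at h1
  omega

theorem core [Fact p.Prime] (hV : Short p V m) (hp : 2 * m ^ 2 < p) {Λ : Finset (ZMod p)}
    {N Z : ℕ} (hΛ : ∀ v ∈ V, ∀ w ∈ V, (v : ZMod p) / w ∈ Λ) (hN : Ic.HN p Λ N)
    (hZ : Λ.card ≤ Z) :
    V.card ^ 2 ≤ 2 ^ 12 * (Dm (3 * m ^ 4) + 1) ^ 10 * Z ∨
      V.card ^ 14 * p ^ 2 ≤ 2 ^ 120 * (Dm (3 * m ^ 4) + 1) ^ 43 * Z ^ 3 * N ^ 3 * m ^ 6 := by
  classical
  rcases V.eq_empty_or_nonempty with rfl | ⟨v0, hv0⟩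
  · simp
  have hJ : 1 ≤ V.card := card_pos.2 ⟨v0, hv0⟩
  have hZ1 : 1 ≤ Z := (card_pos.2 ⟨_, hΛ _ hv0 _ hv0⟩).trans_le hZ
  have h0 := many_pairs hV hΛ
  set P := (V ×ˢ V).filter fun x => x.2 ≠ x.1 ∧ ∃ y ∈ V ×ˢ V, y ≠ x ∧
    (y.2 : ZMod p) / y.1 = x.2 / x.1 with hP
  set D := Dm (3 * m ^ 4) with hD
  have hD1 : 1 ≤ (D + 1) ^ 10 := Nat.one_le_pow _ _ (by omega)
  by_cases h1 : ¬ V.card ^ 2 ≤ 4 * P.card
  · left
    have h2 : V.card ^ 2 ≤ 4 * Z := by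
      by_cases h3 : V.card = 1
      · rw [h3]
        omega
      have : 2 * V.card ≤ V.card ^ 2 := by
        rw [sq]
        exact Nat.mul_le_mul_right _ (by omega)
      omega
    nlinarith
  rw [not_not] at h1
  have hmem : ∀ x ∈ P, x.1 ∈ V ∧ x.2 ∈ V ∧ x.2 ≠ x.1 := fun x hx =>
    ⟨(mem_product.1 (mem_filter.1 hx).1).1, (mem_product.1 (mem_filter.1 hx).1).2,
      (mem_filter.1 hx).2.1⟩
  choose! y hy y1 y2 using fun x (hx : x ∈ P) => (mem_filter.1 hx).2.2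
  choose! d k a s t hd using fun x (hx : x ∈ P) =>
    pair_data hV hp (hmem x hx).1 (hmem x hx).2.1 (mem_product.1 (hy x hx)).1
      (mem_product.1 (hy x hx)).2 (hmem x hx).2.2 (y1 x hx) (y2 x hx)
  have hm : 1 ≤ m := by
    obtain ⟨x, hx⟩ : P.Nonempty := card_pos.1 (by nlinarith)
    have := (hd x hx).1
    omega
  have hm4 : m ≤ m ^ 4 := Nat.le_self_pow (by norm_num) _
  have hlog : Nat.log 2 (3 * m ^ 4) + 1 ≤ D := log_le_Dm (by positivity) le_rfl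
  obtain ⟨Δ, hΔ, q1⟩ := Ic.icCore_dyad P (fun x => (d x).natAbs) _ _ hlog fun x hx => by
    have := (hd x hx).1
    omega
  obtain ⟨α, hα, q2⟩ := Ic.icCore_dyad (P.filter fun x => Δ ≤ (d x).natAbs ∧ (d x).natAbs < 2 * Δ)
    (fun x => (a x).natAbs) _ _ hlog fun x hx => by
      have h2 := (hd x (mem_filter.1 hx).1).2.1
      have h3 := abs_le.1 h2.2
      omega
  obtain ⟨β, hβ, q3⟩ := Ic.icCore_dyad ((P.filter fun x => Δ ≤ (d x).natAbs ∧
    (d x).natAbs < 2 * Δ).filter fun x => α ≤ (a x).natAbs ∧ (a x).natAbs < 2 * α)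
    (fun x => min (s x).natAbs (t x).natAbs) _ _ hlog fun x hx => by
      obtain ⟨-, -, h2, h3, -⟩ := hd x (mem_filter.1 (mem_filter.1 hx).1).1
      have h4 := abs_le.1 h2.2
      omega
  obtain ⟨n, q4, q5⟩ := level hV hp hΛ hN hZ hΔ hα hβ (((P.filter fun x => Δ ≤ (d x).natAbs ∧
    (d x).natAbs < 2 * Δ).filter fun x => α ≤ (a x).natAbs ∧ (a x).natAbs < 2 * α).filter
    fun x => β ≤ min (s x).natAbs (t x).natAbs ∧ min (s x).natAbs (t x).natAbs < 2 * β)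
    d k a s t fun x hx => by
      obtain ⟨h2, h3⟩ := mem_filter.1 hx
      obtain ⟨h4, h5⟩ := mem_filter.1 h2
      obtain ⟨h6, h7⟩ := mem_filter.1 h4
      exact ⟨(hmem x h6).1, (hmem x h6).2.1, (hmem x h6).2.2, hd x h6, h7, h5, h3⟩
  rw [← hD] at q4 q5
  have h2 : V.card ^ 2 ≤ 4 * D ^ 4 * n :=
    calc V.card ^ 2 ≤ 4 * P.card := h1
      _ ≤ 4 * (D * (D * (D * (D * n)))) := Nat.mul_le_mul_left _ (q1.trans (Nat.mul_le_mul_left _
        (q2.trans (Nat.mul_le_mul_left _ (q3.trans (Nat.mul_le_mul_left _ q4))))))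
      _ = _ := by ring
  have hJ2 : 0 < V.card ^ 2 := by positivity
  refine q5.imp (fun q => Nat.le_of_mul_le_mul_right ?_ hJ2)
    fun q => Nat.le_of_mul_le_mul_right ?_ hJ2
  · calc V.card ^ 2 * V.card ^ 2 = (V.card ^ 2) ^ 2 := by ring
      _ ≤ (4 * D ^ 4 * n) ^ 2 := by gcongr
      _ = 16 * D ^ 8 * n ^ 2 := by ring
      _ ≤ 16 * D ^ 8 * (128 * D ^ 2 * Z * V.card ^ 2) := by gcongr
      _ = 2 ^ 11 * D ^ 10 * Z * V.card ^ 2 := by ring
      _ ≤ _ := by gcongr <;> omega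
  · calc V.card ^ 14 * p ^ 2 * V.card ^ 2 = (V.card ^ 2) ^ 8 * p ^ 2 := by ring
      _ ≤ (4 * D ^ 4 * n) ^ 8 * p ^ 2 := by gcongr
      _ = 2 ^ 16 * D ^ 32 * (n ^ 8 * p ^ 2) := by ring
      _ ≤ 2 ^ 16 * D ^ 32 * (2 ^ 100 * D ^ 11 * Z ^ 3 * N ^ 3 * V.card ^ 2 * (m ^ 3) ^ 2) := by
          gcongr
      _ = 2 ^ 116 * D ^ 43 * Z ^ 3 * N ^ 3 * m ^ 6 * V.card ^ 2 := by ring
      _ ≤ _ := by gcongr <;> omega

end Pool.Agent.MP_bd74a7_nt.Ce

end

section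

/-!
The bound `M ^ (1/2) + M ^ (9/14) N ^ (3/14) p ^ (-1/7)` from the core estimate.
-/

open Finset

namespace Pool.Agent.MP_bd74a7_nt.Ce

theorem final_real {J M p N m d : ℕ} {D : ℝ} (hp : 0 < p) (hm : m ≤ M) (hD : (d : ℝ) + 1 ≤ D)
    (h : J ^ 2 ≤ 2 ^ 12 * (d + 1) ^ 10 * (3 * M) ∨
      J ^ 14 * p ^ 2 ≤ 2 ^ 120 * (d + 1) ^ 43 * (3 * M) ^ 3 * N ^ 3 * m ^ 6) :
    (J : ℝ) ≤ 512 * D ^ 5 * ((M : ℝ) ^ (1 / 2 : ℝ) +
      (M : ℝ) ^ (9 / 14 : ℝ) * (N : ℝ) ^ (3 / 14 : ℝ) * (p : ℝ) ^ (-1 / 7 : ℝ)) := by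
  have hd0 : (0 : ℝ) ≤ d := Nat.cast_nonneg _
  have hD1 : 1 ≤ D := by linarith
  have hp0 : (0 : ℝ) < p := by exact_mod_cast hp
  have hM0 : (0 : ℝ) ≤ M := Nat.cast_nonneg _
  have hN0 : (0 : ℝ) ≤ N := Nat.cast_nonneg _
  have hA : (0 : ℝ) ≤ (M : ℝ) ^ (1 / 2 : ℝ) := by positivity
  have hB : (0 : ℝ) ≤ (M : ℝ) ^ (9 / 14 : ℝ) * (N : ℝ) ^ (3 / 14 : ℝ) * (p : ℝ) ^ (-1 / 7 : ℝ) := by
    positivity
  have hc : 0 ≤ 512 * D ^ 5 := by positivity
  rcases h with h | h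
  · have h1 : (J : ℝ) ^ 2 ≤ 2 ^ 12 * (d + 1) ^ 10 * (3 * M) := by exact_mod_cast h
    have h2 : (J : ℝ) ≤ 512 * D ^ 5 * (M : ℝ) ^ (1 / 2 : ℝ) := by
      refine le_of_pow_le two_ne_zero (by positivity) (h1.trans ?_)
      have e1 : ((M : ℝ) ^ (1 / 2 : ℝ)) ^ 2 = M := by
        rw [rpow_pow_eq hM0]
        norm_num
      rw [mul_pow, e1]
      calc (2 : ℝ) ^ 12 * (d + 1) ^ 10 * (3 * M) = (2 ^ 12 * 3) * ((d + 1) ^ 10 * M) := by ring
        _ ≤ 512 ^ 2 * (D ^ 10 * M) := by gcongr; norm_num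
        _ = _ := by ring
    nlinarith [mul_nonneg hc hB]
  · have h1 : (J : ℝ) ^ 14 * p ^ 2 ≤ 2 ^ 120 * (d + 1) ^ 43 * (3 * M) ^ 3 * N ^ 3 * m ^ 6 := by
      exact_mod_cast h
    have hm' : (m : ℝ) ≤ M := by exact_mod_cast hm
    have h2 : (J : ℝ) ≤ 512 * D ^ 5 *
        ((M : ℝ) ^ (9 / 14 : ℝ) * (N : ℝ) ^ (3 / 14 : ℝ) * (p : ℝ) ^ (-1 / 7 : ℝ)) := by
      refine le_of_pow_le (n := 14) (by norm_num) (by positivity) ?_
      have e1 : ((M : ℝ) ^ (9 / 14 : ℝ)) ^ 14 = (M : ℝ) ^ 9 := by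
        rw [rpow_pow_eq hM0, ← Real.rpow_natCast]
        norm_num
      have e2 : ((p : ℝ) ^ (-1 / 7 : ℝ)) ^ 14 = ((p : ℝ) ^ 2)⁻¹ := by
        rw [rpow_pow_eq hp0.le, ← Real.rpow_natCast, ← Real.rpow_neg hp0.le]
        norm_num
      have e3 : ((N : ℝ) ^ (3 / 14 : ℝ)) ^ 14 = (N : ℝ) ^ 3 := by
        rw [rpow_pow_eq hN0, ← Real.rpow_natCast]
        norm_num
      rw [mul_pow, mul_pow _ ((p : ℝ) ^ (-1 / 7 : ℝ)), mul_pow ((M : ℝ) ^ (9 / 14 : ℝ)), e1, e2,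
        e3, ← mul_assoc, le_mul_inv_iff₀ (by positivity)]
      have h4 : ((d : ℝ) + 1) ^ 43 ≤ D ^ 70 :=
        (pow_le_pow_left₀ (by positivity) hD 43).trans (pow_le_pow_right₀ hD1 (by norm_num))
      calc (J : ℝ) ^ 14 * p ^ 2 ≤ _ := h1
        _ = (2 ^ 120 * 27) * ((d + 1) ^ 43 * (M ^ 3 * m ^ 6 * N ^ 3)) := by ring
        _ ≤ 512 ^ 14 * (D ^ 70 * (M ^ 3 * M ^ 6 * N ^ 3)) := by gcongr; norm_num
        _ = _ := by ring
    nlinarith [mul_nonneg hc hA]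

theorem final_gen (ε : ℝ) (hε : 0 < ε) :
    ∃ C : ℝ, 0 < C ∧ ∀ (p : ℕ) [Fact p.Prime] (g : ℕ) (a K L : ℤ) (M N : ℕ),
      ¬ (p : ℤ) ∣ a → 1 ≤ M → M < orderOf (g : ZMod p) → (M : ℝ) < √p →
      Ic.HN p ((Icc (-(M : ℤ)) M).image fun j => (g : ZMod p) ^ j) N →
      ((((Icc (K + 1) (K + M) ×ˢ Icc (L + 1) (L + M)).filter
        fun xy : ℤ × ℤ => (xy.2 : ZMod p) = a * (g : ZMod p) ^ xy.1).card : ℕ) : ℝ) ≤
        C * (M : ℝ) ^ ε * ((M : ℝ) ^ (1 / 2 : ℝ) +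
          (M : ℝ) ^ (9 / 14 : ℝ) * (N : ℝ) ^ (3 / 14 : ℝ) * (p : ℝ) ^ (-1 / 7 : ℝ)) := by
  classical
  obtain ⟨C, hC, hD⟩ := Dm_pow_bound (ε := ε / 5) (by positivity) 3 4 (by norm_num)
  refine ⟨1024 * C ^ 5, by positivity, fun p _ g a K L M N ha hM ht hp hN => ?_⟩
  obtain ⟨V, hc, hI, hnz, hΛ⟩ := Ic.icFinal_setup p g a K L M ha ht
  rw [← hc]
  have hp1 : M ^ 2 < p := by
    have := (Real.lt_sqrt (Nat.cast_nonneg M)).1 hp
    exact_mod_cast this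
  have hp2 : 2 * (M / 2) ^ 2 < p := by
    have := Nat.pow_le_pow_left (Nat.div_mul_le_self M 2) 2
    rw [mul_pow] at this
    omega
  have hZ : ((Icc (-(M : ℤ)) M).image fun j => (g : ZMod p) ^ j).card ≤ 3 * M :=
    card_image_le.trans (by rw [Int.card_Icc]; omega)
  have hd : (Dm (3 * (M / 2) ^ 4) : ℝ) + 1 ≤ C * (M : ℝ) ^ (ε / 5) := by
    have h1 : Dm (3 * (M / 2) ^ 4) ≤ Dm (3 * M ^ 4) := Dm_mono (by
      gcongr
      exact Nat.div_le_self _ _)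
    have h2 : (Dm (3 * (M / 2) ^ 4) : ℝ) ≤ Dm (3 * M ^ 4) := by exact_mod_cast h1
    linarith [hD M hM]
  have hsq : (C * (M : ℝ) ^ (ε / 5)) ^ 5 = C ^ 5 * (M : ℝ) ^ ε := by
    rw [mul_pow, rpow_pow_eq (Nat.cast_nonneg M)]
    norm_num
  have key : ∀ W : Finset ℤ, W ⊆ V → (∀ v ∈ W, ∀ w ∈ W, |v - w| ≤ (M / 2 : ℕ)) →
      (W.card : ℝ) ≤ 512 * (C ^ 5 * (M : ℝ) ^ ε) * ((M : ℝ) ^ (1 / 2 : ℝ) +
        (M : ℝ) ^ (9 / 14 : ℝ) * (N : ℝ) ^ (3 / 14 : ℝ) * (p : ℝ) ^ (-1 / 7 : ℝ)) := by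
    intro W hW hdm
    rw [← hsq]
    exact final_real (by omega) (Nat.div_le_self M 2) hd
      (core ⟨hdm, fun v hv => hnz v (hW hv)⟩ hp2
        (fun v hv w hw => hΛ v (hW hv) w (hW hw)) hN hZ)
  have h1 := key (V.filter fun v => v ≤ L + 1 + (M / 2 : ℕ)) (filter_subset _ _) fun v hv w hw => by
    rw [mem_filter] at hv hw
    have := hI v hv.1
    have := hI w hw.1
    rw [abs_le]
    omega
  have h2 := key (V.filter fun v => ¬ v ≤ L + 1 + (M / 2 : ℕ)) (filter_subset _ _)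
    fun v hv w hw => by
      rw [mem_filter] at hv hw
      have := hI v hv.1
      have := hI w hw.1
      rw [abs_le]
      omega
  have h3 := card_filter_add_card_filter_not (s := V) fun v => v ≤ L + 1 + (M / 2 : ℕ)
  rw [← h3, Nat.cast_add]
  linarith

end Pool.Agent.MP_bd74a7_nt.Ce

end

section

/-!
The two final bounds.
-/

open Finset

namespace Pool.Agent.MP_bd74a7_nt.Ce

theorem rpow_le_of_pow {N M c r : ℝ} {a b : ℕ} (hN : 0 ≤ N) (hM : 0 ≤ M) (hc : 1 ≤ c)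
    (hr : 0 ≤ r) (hr1 : r ≤ 1) (h : N ^ a ≤ c * M ^ b) : N ^ (a * r) ≤ c * M ^ (b * r) := by
  rw [Real.rpow_natCast_mul hN, Real.rpow_natCast_mul hM]
  refine (Real.rpow_le_rpow (by positivity) h hr).trans ?_
  rw [Real.mul_rpow (by linarith) (by positivity)]
  exact mul_le_mul_of_nonneg_right (Real.rpow_le_self_of_one_le hc hr1) (by positivity)

theorem whole (ε : ℝ) (hε : 0 < ε) :
    ∃ C : ℝ, 0 < C ∧ ∀ (p : ℕ) [Fact p.Prime] (g : ℕ) (a K L : ℤ) (M : ℕ),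
      ¬ (p : ℤ) ∣ a → 1 ≤ M → M < orderOf (g : ZMod p) → (M : ℝ) < √p →
      ((((Icc (K + 1) (K + M) ×ˢ Icc (L + 1) (L + M)).filter
        fun xy : ℤ × ℤ => (xy.2 : ZMod p) = a * (g : ZMod p) ^ xy.1).card : ℕ) : ℝ) ≤
        C * (M : ℝ) ^ ε *
          ((M : ℝ) ^ (1 / 2 : ℝ) + (M : ℝ) ^ (45 / 56 : ℝ) * (p : ℝ) ^ (-1 / 7 : ℝ)) := by
  obtain ⟨C, hC, h⟩ := final_gen ε hε
  refine ⟨C * 2 ^ 85, by positivity, fun p _ g a K L M ha hM ht hp => ?_⟩
  have hp1 : M ^ 2 < p := by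
    have := (Real.lt_sqrt (Nat.cast_nonneg M)).1 hp
    exact_mod_cast this
  obtain ⟨N, h1, h2⟩ := Ic.n_all p (g : ZMod p) M hM ht hp1
  have hM0 : (0 : ℝ) < M := by exact_mod_cast hM
  have h3 := rpow_le_of_pow (N := N) (M := M) (c := 2 ^ 85) (r := 3 / 56) (a := 4) (b := 3)
    (Nat.cast_nonneg _) hM0.le (by norm_num) (by norm_num) (by norm_num) (by exact_mod_cast h1)
  rw [show ((4 : ℕ) : ℝ) * (3 / 56) = 3 / 14 by norm_num,
    show ((3 : ℕ) : ℝ) * (3 / 56) = 9 / 56 by norm_num] at h3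
  have h4 : (M : ℝ) ^ (45 / 56 : ℝ) = (M : ℝ) ^ (9 / 14 : ℝ) * (M : ℝ) ^ (9 / 56 : ℝ) := by
    rw [← Real.rpow_add hM0]
    norm_num
  refine (h p g a K L M N ha hM ht hp h2).trans ?_
  rw [h4]
  calc _ ≤ C * (M : ℝ) ^ ε * (2 ^ 85 * (M : ℝ) ^ (1 / 2 : ℝ) + (M : ℝ) ^ (9 / 14 : ℝ) *
        (2 ^ 85 * (M : ℝ) ^ (9 / 56 : ℝ)) * (p : ℝ) ^ (-1 / 7 : ℝ)) := by
        gcongr
        exact le_mul_of_one_le_left (by positivity) (by norm_num)
    _ = _ := by ring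

theorem hn_order (p : ℕ) [Fact p.Prime] (g : ZMod p) (M : ℕ) (hM : 1 ≤ M) (ht : M < orderOf g)
    (hp : M ^ 2 < p) :
    ∃ N : ℕ, N ^ 3 ≤ 2 ^ 64 * orderOf g ^ 2 ∧
      Ic.HN p ((Icc (-(M : ℤ)) M).image fun j => g ^ j) N := by
  by_cases h : orderOf g ^ 4 ≤ p ^ 3
  · obtain ⟨N, h1, h2⟩ := hn_step (by omega) h ((Icc (-(M : ℤ)) M).image fun j => g ^ j) (by
      intro x hx
      obtain ⟨j, -, rfl⟩ := mem_image.1 hx
      rw [← zpow_natCast, ← zpow_mul, mul_comm, zpow_mul, zpow_natCast, pow_orderOf_eq_one,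
        one_zpow])
    exact ⟨N, h1.trans (Nat.mul_le_mul_right _ (by norm_num)), h2⟩
  obtain ⟨N, h1, h2⟩ := Ic.n_all p g M hM ht hp
  refine ⟨N, (Nat.pow_le_pow_iff_left (by norm_num : 4 ≠ 0)).1 ?_, h2⟩
  have h3 : (M ^ 2) ^ 3 ≤ orderOf g ^ 4 := (Nat.pow_le_pow_left hp.le 3).trans (not_le.1 h).le
  calc (N ^ 3) ^ 4 = (N ^ 4) ^ 3 := by ring
    _ ≤ (2 ^ 85 * M ^ 3) ^ 3 := Nat.pow_le_pow_left h1 3
    _ = 2 ^ 255 * M ^ 9 := by ring
    _ ≤ 2 ^ 256 * M ^ 12 := Nat.mul_le_mul (by norm_num) (Nat.pow_le_pow_right hM (by norm_num))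
    _ = 2 ^ 256 * ((M ^ 2) ^ 3) ^ 2 := by ring
    _ ≤ 2 ^ 256 * (orderOf g ^ 4) ^ 2 := by gcongr
    _ = _ := by ring

theorem small_order (ε : ℝ) (hε : 0 < ε) :
    ∃ C : ℝ, 0 < C ∧ ∀ (p : ℕ) [Fact p.Prime] (g : ℕ) (a K L : ℤ) (M : ℕ),
      ¬ (p : ℤ) ∣ a → 1 ≤ M → M < orderOf (g : ZMod p) → (M : ℝ) < √p →
      ((((Icc (K + 1) (K + M) ×ˢ Icc (L + 1) (L + M)).filter
        fun xy : ℤ × ℤ => (xy.2 : ZMod p) = a * (g : ZMod p) ^ xy.1).card : ℕ) : ℝ) ≤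
        C * (M : ℝ) ^ ε * ((M : ℝ) ^ (1 / 2 : ℝ) + (M : ℝ) ^ (9 / 14 : ℝ) *
          (orderOf (g : ZMod p) : ℝ) ^ (1 / 7 : ℝ) * (p : ℝ) ^ (-1 / 7 : ℝ)) := by
  obtain ⟨C, hC, h⟩ := final_gen ε hε
  refine ⟨C * 2 ^ 64, by positivity, fun p _ g a K L M ha hM ht hp => ?_⟩
  have hp1 : M ^ 2 < p := by
    have := (Real.lt_sqrt (Nat.cast_nonneg M)).1 hp
    exact_mod_cast this
  obtain ⟨N, h1, h2⟩ := hn_order p (g : ZMod p) M hM ht hp1
  have h3 := rpow_le_of_pow (N := N) (M := orderOf (g : ZMod p)) (c := 2 ^ 64) (r := 1 / 14)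
    (a := 3) (b := 2) (Nat.cast_nonneg _) (Nat.cast_nonneg _) (by norm_num) (by norm_num)
    (by norm_num) (by exact_mod_cast h1)
  rw [show ((3 : ℕ) : ℝ) * (1 / 14) = 3 / 14 by norm_num,
    show ((2 : ℕ) : ℝ) * (1 / 14) = 1 / 7 by norm_num] at h3
  refine (h p g a K L M N ha hM ht hp h2).trans ?_
  calc _ ≤ C * (M : ℝ) ^ ε * (2 ^ 64 * (M : ℝ) ^ (1 / 2 : ℝ) + (M : ℝ) ^ (9 / 14 : ℝ) *
        (2 ^ 64 * (orderOf (g : ZMod p) : ℝ) ^ (1 / 7 : ℝ)) * (p : ℝ) ^ (-1 / 7 : ℝ)) := by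
        gcongr
        exact le_mul_of_one_le_left (by positivity) (by norm_num)
    _ = _ := by ring

end Pool.Agent.MP_bd74a7_nt.Ce

end
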